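import Pool.Agent.Helper75.QC.Defs
import Pool.Agent.Helper75.QC.Base

/-! Project WC. The cohomology of a finite abelian extension `K / R` is spanned by that of the
intermediate fields `M` with a cyclic Galois group `Gal(M / R)`. The characteristic may divide the
degree. -/

set_option autoImplicit false

namespace Pool.Agent.Helper75.WC

open IntermediateField Pool.Agent.Helper75.QC

/-- A representation of a finite commutative group is spanned by the eigenvectors. -/
theorem mem_iSup_eigen {L G V : Type} [Field L] [CharZero L] [IsAlgClosed L] [Group G] [Finite G]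
    (hab : ∀ g h : G, g * h = h * g) [AddCommGroup V] [Module L V] (ρ : G →* Module.End L V)
    (t : V) : t ∈ ⨆ χ : G →* Lˣ, ⨅ g, (ρ g).eigenspace (χ g : L) := by
  classical
  letI : CommGroup G := { (inferInstance : Group G) with mul_comm := hab }
  haveI : Fintype G := Fintype.ofFinite G
  haveI : NeZero ((Monoid.exponent G : ℕ) : L) :=
    ⟨by exact_mod_cast Monoid.exponent_ne_zero_of_finite⟩
  haveI : Finite (G →* Lˣ) :=
    Finite.of_equiv G
      (CommGroup.monoidHom_mulEquiv_of_hasEnoughRootsOfUnity G L).some.toEquiv.symm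
  haveI : Fintype (G →* Lˣ) := Fintype.ofFinite _
  have hcard : Fintype.card (G →* Lˣ) = Fintype.card G := by
    rw [← Nat.card_eq_fintype_card, ← Nat.card_eq_fintype_card]
    exact CommGroup.card_monoidHom_of_hasEnoughRootsOfUnity G L
  have hG : ((Fintype.card G : ℕ) : L) ≠ 0 := by exact_mod_cast Fintype.card_ne_zero
  -- the projectors
  let e : (G →* Lˣ) → V := fun χ => ∑ g : G, ((χ g)⁻¹ : Lˣ) • ρ g t
  have he : ∀ χ, e χ ∈ ⨅ g, (ρ g).eigenspace (χ g : L) := by
    intro χ
    rw [Submodule.mem_iInf]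
    intro g
    rw [Module.End.mem_eigenspace_iff]
    show ρ g (∑ h : G, ((χ h)⁻¹ : Lˣ) • ρ h t) = (χ g : L) • ∑ h : G, ((χ h)⁻¹ : Lˣ) • ρ h t
    rw [map_sum, Finset.smul_sum]
    refine Fintype.sum_equiv (Equiv.mulLeft g) _ _ fun h => ?_
    rw [Equiv.coe_mulLeft, map_mul, map_mul, Module.End.mul_apply, mul_inv, Units.smul_def,
      Units.smul_def, map_smul, smul_smul]
    congr 1
    push_cast
    rw [← mul_assoc, mul_inv_cancel₀ (Units.ne_zero _), one_mul]
  have hsum : ∑ χ : G →* Lˣ, e χ = ((Fintype.card G : ℕ) : L) • t := by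
    show ∑ χ : G →* Lˣ, ∑ g : G, ((χ g)⁻¹ : Lˣ) • ρ g t = _
    rw [Finset.sum_comm]
    have h1 : ∀ g : G, ∑ χ : G →* Lˣ, ((χ g)⁻¹ : Lˣ) • ρ g t =
        (if g = 1 then ((Fintype.card G : ℕ) : L) else 0) • ρ g t := by
      intro g
      have h2 : ∑ χ : G →* Lˣ, ((χ g)⁻¹ : Lˣ) • ρ g t =
          (∑ χ : G →* Lˣ, (((χ g)⁻¹ : Lˣ) : L)) • ρ g t := by
        rw [Finset.sum_smul]
        rfl
      rw [h2]
      congr 1
      split_ifs with h
      · subst h
        simp [hcard]
      · obtain ⟨ψ, hψ⟩ := CommGroup.exists_apply_ne_one_of_hasEnoughRootsOfUnity G L h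
        have h3 : (∑ χ : G →* Lˣ, (((χ g)⁻¹ : Lˣ) : L)) =
            (((ψ g)⁻¹ : Lˣ) : L) * ∑ χ : G →* Lˣ, (((χ g)⁻¹ : Lˣ) : L) := by
          rw [Finset.mul_sum]
          refine (Fintype.sum_equiv (Equiv.mulLeft ψ) _ _ fun χ => ?_).symm
          rw [Equiv.coe_mulLeft, MonoidHom.mul_apply, mul_inv, Units.val_mul]
        have h4 : ((((ψ g)⁻¹ : Lˣ) : L) - 1) * ∑ χ : G →* Lˣ, (((χ g)⁻¹ : Lˣ) : L) = 0 := by
          rw [sub_mul, one_mul, ← h3, sub_self]
        rcases mul_eq_zero.1 h4 with h5 | h5
        · exfalso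
          apply hψ
          have h6 : ((ψ g)⁻¹ : Lˣ) = 1 := Units.ext (sub_eq_zero.1 h5)
          exact inv_eq_one.1 h6
        · exact h5
    rw [Finset.sum_congr rfl fun g _ => h1 g]
    simp
  have ht : t = (((Fintype.card G : ℕ) : L))⁻¹ • ∑ χ : G →* Lˣ, e χ := by
    rw [hsum, smul_smul, inv_mul_cancel₀ hG, one_smul]
  rw [ht]
  refine Submodule.smul_mem _ _ (Submodule.sum_mem _ fun χ _ => ?_)
  exact Submodule.mem_iSup_of_mem χ (he χ)

variable {Ω L K : Type} [Field Ω] [Field L] [Field K] [Algebra Ω K]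

/-- the inclusion of an intermediate field of `K / R`, over `Ω` -/
def incl (R : IntermediateField Ω K) (M : IntermediateField R K) : M →ₐ[Ω] K :=
  M.val.restrictScalars Ω

/-- the action of the Galois group on the cohomology -/
noncomputable def galRep (T : BaseTheory Ω L) (R : IntermediateField Ω K) (r : ℕ) :
    (K ≃ₐ[R] K) →* Module.End L (T.H r K) where
  toFun g := T.map r ((g : K →ₐ[R] K).restrictScalars Ω)
  map_one' := T.map_id r K
  map_mul' g h := T.map_comp r ((h : K →ₐ[R] K).restrictScalars Ω)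
    ((g : K →ₐ[R] K).restrictScalars Ω)

/-- An eigenclass comes from the fixed field of the kernel of its character. -/
theorem eigen_cyclic (T : BaseTheory Ω L) (R : IntermediateField Ω K) [FiniteDimensional R K]
    [IsGalois R K] (r : ℕ) (χ : (K ≃ₐ[R] K) →* Lˣ) (t : T.H r K)
    (ht : ∀ g, galRep T R r g t = (χ g : L) • t) :
    IsCyclic (fixedField χ.ker ≃ₐ[R] fixedField χ.ker) ∧
      t ∈ LinearMap.range (T.map r (incl R (fixedField χ.ker))) := by
  classical
  constructor
  · haveI : Finite χ.range := by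
      have h1 : Finite (K ≃ₐ[R] K) := inferInstance
      exact Finite.of_surjective _ χ.rangeRestrict_surjective
    haveI : IsCyclic χ.range := isCyclic_subgroup_units _
    have e1 := (IsGalois.normalAutEquivQuotient χ.ker).symm.trans
      (QuotientGroup.quotientKerEquivRange χ)
    exact (MulEquiv.isCyclic e1).2 inferInstance
  · obtain ⟨M, hM⟩ : ∃ M : IntermediateField R K, M = fixedField χ.ker := ⟨_, rfl⟩
    rw [← hM]
    have i1 : FiniteDimensional (M.restrictScalars Ω : IntermediateField Ω K) K :=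
      inferInstanceAs (FiniteDimensional M K)
    have i2 : IsGalois (M.restrictScalars Ω : IntermediateField Ω K) K :=
      inferInstanceAs (IsGalois M K)
    obtain ⟨s, hs⟩ := T.descent r K (M.restrictScalars Ω) t (fun τ => by
      let τ' : K →ₐ[R] K :=
        { toRingHom := (τ : K →+* K)
          commutes' := fun c => τ.commutes
            (⟨(c : K), M.algebraMap_mem c⟩ : (M.restrictScalars Ω : IntermediateField Ω K)) }
      let g : K ≃ₐ[R] K := AlgEquiv.ofBijective τ' (Algebra.IsAlgebraic.algHom_bijective τ')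
      have hg : g ∈ χ.ker := by
        rw [← fixingSubgroup_fixedField χ.ker, ← hM, IntermediateField.mem_fixingSubgroup_iff]
        intro x hx
        exact τ.commutes (⟨x, hx⟩ : (M.restrictScalars Ω : IntermediateField Ω K))
      have h1 := ht g
      rw [MonoidHom.mem_ker] at hg
      rw [hg, Units.val_one, one_smul] at h1
      exact h1)
    let e : (M.restrictScalars Ω : IntermediateField Ω K) →ₐ[Ω] M :=
      { toFun := fun x => ⟨x.1, x.2⟩
        map_one' := rfl
        map_mul' := fun _ _ => rfl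
        map_zero' := rfl
        map_add' := fun _ _ => rfl
        commutes' := fun _ => rfl }
    refine ⟨T.map r e s, ?_⟩
    have h1 : (incl R M).comp e = (M.restrictScalars Ω : IntermediateField Ω K).val := rfl
    have h2 := T.map_comp r e (incl R M)
    rw [h1] at h2
    rw [← hs, h2]
    rfl

/-- **The cohomology of an abelian extension is spanned by that of its cyclic subextensions.** -/
theorem span_cyclic [CharZero L] [IsAlgClosed L] (T : BaseTheory Ω L) (R : IntermediateField Ω K)
    [FiniteDimensional R K] [IsGalois R K] (hab : ∀ g h : K ≃ₐ[R] K, g * h = h * g) (r : ℕ) :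
    ⨆ M : {M : IntermediateField R K // IsCyclic (M ≃ₐ[R] M)},
      LinearMap.range (T.map r (incl R M.1)) = ⊤ := by
  rw [eq_top_iff]
  intro t _
  have h1 := mem_iSup_eigen hab (galRep T R r) t
  refine (iSup_le fun χ s hs => ?_ : (⨆ χ : (K ≃ₐ[R] K) →* Lˣ,
    ⨅ g, (galRep T R r g).eigenspace (χ g : L)) ≤ _) h1
  obtain ⟨h2, h3⟩ := eigen_cyclic T R r χ s fun g => by
    rw [Submodule.mem_iInf] at hs
    exact Module.End.mem_eigenspace_iff.1 (hs g)
  exact Submodule.mem_iSup_of_mem ⟨_, h2⟩ h3

end Pool.Agent.Helper75.WC
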