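import Pool.Agent.Helper75.WC.CurveListed
import Pool.Agent.Helper15.WC.RowM

/-! Project WC. The list for elements `x`, `y`, `w` of `M`. -/

set_option autoImplicit false

namespace Pool.Agent.Helper75.WC

open IntermediateField MvPolynomial

/-- `M = Ω(x, y, w)`, `R ⊆ Ω(x, y)`, is given by one of the equations. -/
def LstM (Ω R M : Type) [Field Ω] [Field R] [Field M] [Algebra Ω M] [Algebra R M] : Prop :=
  ∃ x y w : M, (∀ r : R, algebraMap R M r ∈ adjoin Ω {x, y}) ∧ adjoin Ω {x, y, w} = ⊤ ∧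
    (IsWeighted Ω (Module.finrank (adjoin Ω {x, y}) M) x y w ∨
      IsTab Ω (Module.finrank (adjoin Ω {x, y}) M) x y w)

theorem tab_mem {Ω M : Type} [Field Ω] [Field M] [Algebra Ω M] {n : ℕ} {x y w : M}
    (h : IsTab Ω n x y w) : w ^ n ∈ adjoin Ω {x, y} := by
  obtain ⟨a, b, c, f, g, k, -, h⟩ := h
  have hmX : x ∈ adjoin Ω {x, y} := subset_adjoin _ _ (by simp)
  have hmY : y ∈ adjoin Ω {x, y} := subset_adjoin _ _ (by simp)
  rw [h]
  exact mul_mem (mul_mem (pow_mem (mem_valr75 f x y _ hmX hmY) _)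
    (pow_mem (mem_valr75 g x y _ hmX hmY) _)) (pow_mem (mem_valr75 k x y _ hmX hmY) _)

theorem Lst.toM {Ω R M : Type} [Field Ω] [Field R] [Field M] [Algebra Ω R] [Algebra Ω M]
    [Algebra R M] [IsScalarTower Ω R M] [FiniteDimensional R M] [IsGalois R M]
    (h : Lst Ω R M (Module.finrank R M)) : LstM Ω R M := by
  obtain ⟨x, y, w, hR, hw, h⟩ := h
  have hwn : w ^ Module.finrank R M ∈ adjoin Ω {algebraMap R M x, algebraMap R M y} := by
    rcases h with h | h
    · exact Pool.Agent.Helper15.WC.weighted_mem h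
    · exact tab_mem h
  obtain ⟨-, h1, h2, -, -, h3⟩ := cyc_data x y hR w hw rfl hwn
  refine ⟨algebraMap R M x, algebraMap R M y, w, h3, h1, ?_⟩
  rwa [h2]

theorem LstM.of_le {Ω R B M : Type} [Field Ω] [Field R] [Field B] [Field M] [Algebra Ω M]
    [Algebra R M] [Algebra B M] (hRB : ∀ r : R, ∃ b : B, algebraMap R M r = algebraMap B M b)
    (h : LstM Ω B M) : LstM Ω R M := by
  obtain ⟨x, y, w, h1, h2, h3⟩ := h
  refine ⟨x, y, w, fun r => ?_, h2, h3⟩
  obtain ⟨b, hb⟩ := hRB r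
  rw [hb]
  exact h1 b

/-- the data of `M` over `B = Ω(x, y)` -/
theorem toB {Ω R M : Type} [Field Ω] [Field R] [Field M] [Algebra Ω R] [Algebra Ω M]
    [Algebra R M] [IsScalarTower Ω R M] [FiniteDimensional R M] [IsGalois R M] (x y w : M)
    (hR : ∀ r : R, algebraMap R M r ∈ adjoin Ω {x, y}) (hM : adjoin Ω {x, y, w} = ⊤) :
    FiniteDimensional (adjoin Ω {x, y} : IntermediateField Ω M) M ∧
      IsGalois (adjoin Ω {x, y} : IntermediateField Ω M) M ∧
      ∃ x' y' : (adjoin Ω {x, y} : IntermediateField Ω M), (x' : M) = x ∧ (y' : M) = y ∧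
        adjoin Ω {x', y'} = ⊤ ∧
        adjoin (adjoin Ω {x, y} : IntermediateField Ω M) {w} = ⊤ := by
  obtain ⟨B, hB⟩ : ∃ B : IntermediateField Ω M, B = adjoin Ω {x, y} := ⟨_, rfl⟩
  rw [← hB] at hR ⊢
  let _ : Algebra R B := RingHom.toAlgebra
    ({ toFun := fun r => ⟨algebraMap R M r, hR r⟩
       map_one' := Subtype.ext (map_one _)
       map_mul' := fun a b => Subtype.ext (map_mul _ a b)
       map_zero' := Subtype.ext (map_zero _)
       map_add' := fun a b => Subtype.ext (map_add _ a b) } : R →+* B)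
  have : IsScalarTower R B M := IsScalarTower.of_algebraMap_eq fun r => rfl
  have hfd : FiniteDimensional B M := FiniteDimensional.right R B M
  have hgal : IsGalois B M := IsGalois.tower_top_of_isGalois R B M
  have hx : x ∈ B := by
    rw [hB]
    exact subset_adjoin _ _ (by simp)
  have hy : y ∈ B := by
    rw [hB]
    exact subset_adjoin _ _ (by simp)
  refine ⟨hfd, hgal, ⟨x, hx⟩, ⟨y, hy⟩, rfl, rfl, ?_, ?_⟩
  · apply lift_injective B
    rw [lift_top, lift_adjoin, Set.image_pair]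
    exact hB.symm
  · have h1 : ∀ k ∈ adjoin Ω {x, y, w}, k ∈ (adjoin B {w}).restrictScalars Ω := by
      have h2 : adjoin Ω {x, y, w} ≤ (adjoin B {w}).restrictScalars Ω := by
        have mB : ∀ b ∈ B, b ∈ (adjoin B {w}).restrictScalars Ω := fun b hb =>
          (adjoin B {w}).algebraMap_mem ⟨b, hb⟩
        rw [adjoin_le_iff]
        rintro s (rfl | rfl | rfl)
        · exact mB _ hx
        · exact mB _ hy
        · exact subset_adjoin B _ (by simp)
      exact h2
    rw [eq_top_iff]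
    intro k _
    exact h1 k (by rw [hM]; exact mem_top)

/-- the equation for a curve of degree at most five, `n ≤ N` or `n = 10` or at most three
components, at most one of which is a line if the degree is five -/
def IsCrv (Ω : Type) {M : Type} [Field Ω] [Field M] [Algebra Ω M] (N n : ℕ) (x y w : M) : Prop :=
  ∃ (r : ℕ) (d e : Fin r → ℕ) (f : Fin r → MvPolynomial (Fin 2) Ω),
    (∀ i, (f i).totalDegree ≤ d i) ∧ ∑ i, d i ≤ 5 ∧ n ∣ ∑ i, d i * e i ∧
    (n ≤ N ∨ n = 10 ∨ r ≤ 3 ∧ (∑ i, d i ≤ 4 ∨ (Finset.univ.filter fun i => d i = 1).card ≤ 1)) ∧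
    w ^ n = ∏ i, aeval ![x, y] (f i) ^ e i

theorem lstM_of_curve7 {Ω R M : Type} [Field Ω] [IsAlgClosed Ω] [Field R] [Field M] [Algebra Ω R]
    [Algebra Ω M] [Algebra R M] [IsScalarTower Ω R M] [FiniteDimensional R M] [IsGalois R M]
    (x y w : M) (hR : ∀ r : R, algebraMap R M r ∈ adjoin Ω {x, y}) (hM : adjoin Ω {x, y, w} = ⊤)
    (h : IsCrv Ω 7 (Module.finrank (adjoin Ω {x, y}) M) x y w) : LstM Ω R M := by
  obtain ⟨h1, h2, x', y', hx, hy, hB, hw⟩ := toB x y w hR hM
  obtain ⟨r, d, e, f, hd, h5, hdvd, hc, heq⟩ := h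
  refine LstM.of_le (B := (adjoin Ω {x, y} : IntermediateField Ω M)) (fun r => ⟨⟨_, hR r⟩, rfl⟩)
    (Lst.toM (lst_of_curve rfl hB hw d e f hd h5 hdvd hc ?_))
  rw [heq]
  have e1 : algebraMap (adjoin Ω {x, y} : IntermediateField Ω M) M x' = x := hx
  have e2 : algebraMap (adjoin Ω {x, y} : IntermediateField Ω M) M y' = y := hy
  rw [e1, e2]

end Pool.Agent.Helper75.WC
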