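import Pool.Agent.Helper75.WC.Abel

/-! Project WC. The cohomology of a finite abelian extension `K / R` is spanned by the images of the
eigenclasses, for the faithful characters of `Gal(M / R)`, of the intermediate fields `M` with a
cyclic Galois group. -/

set_option autoImplicit false

namespace Pool.Agent.Helper75.WC

open IntermediateField Pool.Agent.Helper75.QC

variable {Ω L : Type} [Field Ω] [Field L]

/-- the automorphisms of `M / R`, over `Ω` -/
def autHom (Ω : Type) [Field Ω] {R M : Type} [Field R] [Field M] [Algebra Ω R] [Algebra Ω M]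
    [Algebra R M] [IsScalarTower Ω R M] (g : M ≃ₐ[R] M) : M →ₐ[Ω] M :=
  (g : M →ₐ[R] M).restrictScalars Ω

/-- the eigenclasses of `M / R` for the faithful characters of the Galois group -/
def IsPrim (T : BaseTheory Ω L) {R M : Type} [Field R] [Field M] [Algebra Ω R] [Algebra Ω M]
    [Algebra R M] [IsScalarTower Ω R M] (r : ℕ) (χ : (M ≃ₐ[R] M) →* Lˣ) (s : T.H r M) : Prop :=
  Function.Injective χ ∧ ∀ g : M ≃ₐ[R] M, T.map r (autHom Ω g) s = (χ g : L) • s

/-- the restriction of an automorphism -/
theorem exists_restrict {R K : Type} [Field R] [Field K] [Algebra R K] [FiniteDimensional R K]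
    [IsGalois R K] (hab : ∀ g h : K ≃ₐ[R] K, g * h = h * g) (M : IntermediateField R K) :
    IsGalois R M ∧ (∀ g : K ≃ₐ[R] K, ∃ g' : M ≃ₐ[R] M, ∀ a : M, ((g' a : M) : K) = g a) ∧
      ∀ g' : M ≃ₐ[R] M, ∃ g : K ≃ₐ[R] K, ∀ a : M, ((g' a : M) : K) = g a := by
  have hN : (M.fixingSubgroup).Normal := by
    constructor
    intro n hn g
    rw [hab g n, mul_assoc, mul_inv_cancel, mul_one]
    exact hn
  have hG : IsGalois R M := by
    have h1 : M = fixedField M.fixingSubgroup := (IsGalois.fixedField_fixingSubgroup M).symm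
    have h2 : IsGalois R (fixedField M.fixingSubgroup) := inferInstance
    rw [← h1] at h2
    exact h2
  refine ⟨hG, fun g => ⟨AlgEquiv.restrictNormal g M, fun a => ?_⟩, fun g' => ?_⟩
  · exact AlgEquiv.restrictNormal_commutes g M a
  · obtain ⟨g, hg⟩ := AlgEquiv.restrictNormalHom_surjective (F := R) (K₁ := M) K g'
    refine ⟨g, fun a => ?_⟩
    rw [← hg]
    exact AlgEquiv.restrictNormal_commutes g M a

/-- **An eigenclass comes from a primitive eigenclass of a cyclic subextension.** -/
theorem eigen_prim {K : Type} [Field K] [Algebra Ω K] (T : BaseTheory Ω L)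
    (R : IntermediateField Ω K) [FiniteDimensional R K] [IsGalois R K]
    (hab : ∀ g h : K ≃ₐ[R] K, g * h = h * g) (r : ℕ) (χ : (K ≃ₐ[R] K) →* Lˣ) :
    ∃ M : IntermediateField R K, IsCyclic (M ≃ₐ[R] M) ∧ IsGalois R M ∧
      ∃ χ' : (M ≃ₐ[R] M) →* Lˣ, Function.Injective χ' ∧
        ∀ t : T.H r K, (∀ g, galRep T R r g t = (χ g : L) • t) →
          ∃ s : T.H r M, IsPrim T r χ' s ∧ T.map r (incl R M) s = t := by
  classical
  obtain ⟨M, hM⟩ : ∃ M : IntermediateField R K, M = fixedField χ.ker := ⟨_, rfl⟩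
  obtain ⟨hG, h1, h2⟩ := exists_restrict hab M
  have hinj : Function.Injective (T.map r (incl R M)) := by
    refine T.inj r _ fun a => ?_
    have h3 : IsAlgebraic M a := Algebra.IsAlgebraic.isAlgebraic a
    obtain ⟨P, hP, hP'⟩ := h3
    let f : M →+* (incl R M).fieldRange := ((incl R M).rangeRestrict : M →ₐ[Ω] _).toRingHom
    refine ⟨P.map f, (Polynomial.map_ne_zero_iff f.injective).2 hP, ?_⟩
    rw [Polynomial.aeval_def, Polynomial.eval₂_map]
    exact hP'
  -- the fixing subgroup of `M` is the kernel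
  have hker : ∀ g : K ≃ₐ[R] K, (∀ a : M, g a = a) ↔ g ∈ χ.ker := by
    intro g
    rw [← fixingSubgroup_fixedField χ.ker, ← hM, IntermediateField.mem_fixingSubgroup_iff]
    exact ⟨fun h x hx => h ⟨x, hx⟩, fun h a => h a a.2⟩
  choose ext hext using h2
  let χ' : (M ≃ₐ[R] M) →* Lˣ :=
    { toFun := fun g => χ (ext g)
      map_one' := by
        have h3 : ext 1 ∈ χ.ker := (hker _).1 fun a => (hext 1 a).symm
        exact h3
      map_mul' := fun g h => by
        have h3 : (ext g * ext h)⁻¹ * ext (g * h) ∈ χ.ker := by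
          refine (hker _).1 fun a => ?_
          show (ext g * ext h)⁻¹ (ext (g * h) a) = a
          rw [← hext (g * h) a]
          have h4 : (ext g * ext h) a = ((g * h) a : M) := by
            show ext g (ext h a) = _
            rw [← hext h a, ← hext g (h a)]
            rfl
          rw [← h4]
          exact (ext g * ext h).symm_apply_apply _
        rw [MonoidHom.mem_ker, map_mul, map_inv, map_mul, inv_mul_eq_one] at h3
        exact h3.symm }
  have hχ' : Function.Injective χ' := by
    rw [injective_iff_map_eq_one]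
    intro g hg
    have h3 : ext g ∈ χ.ker := hg
    ext a
    rw [hext g a, (hker _).2 h3 a]
    rfl
  have hcyc : IsCyclic (M ≃ₐ[R] M) := by
    haveI : Finite χ'.range := Finite.of_surjective _ χ'.rangeRestrict_surjective
    haveI : IsCyclic χ'.range := isCyclic_subgroup_units _
    have e1 : (M ≃ₐ[R] M) ≃* χ'.range := MonoidHom.ofInjective hχ'
    exact (MulEquiv.isCyclic e1).2 inferInstance
  refine ⟨M, hcyc, hG, χ', hχ', fun t ht => ?_⟩
  obtain ⟨-, s, hs⟩ := eigen_cyclic T R r χ t ht
  obtain ⟨s', hs'⟩ : ∃ s' : T.H r M, T.map r (incl R M) s' = t := by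
    rw [hM]
    exact ⟨s, hs⟩
  refine ⟨s', ⟨hχ', fun g => hinj ?_⟩, hs'⟩
  rw [map_smul, hs']
  have h3 : (incl R M).comp (autHom Ω g) =
      ((ext g : K →ₐ[R] K).restrictScalars Ω).comp (incl R M) := AlgHom.ext fun a => hext g a
  have h4 := congrArg (fun k => T.map r k s') h3
  simp only [T.map_comp, LinearMap.comp_apply] at h4
  rw [h4, hs']
  exact ht (ext g)

end Pool.Agent.Helper75.WC
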