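import Pool.Agent.Helper75.WC.RowU

/-! Project WC. The equations of the list, and the data of a cyclic extension `M / R`,
`R = Ω(x, y)`, `M = R(w)`. -/

set_option autoImplicit false

namespace Pool.Agent.Helper75.WC

open IntermediateField Pool.Agent.Helper75.QC Pool.Agent.Helper40.SD

/-- The equation `w ^ n = F(x, y)` with weights: either `F = f / g ^ 2`,
`deg (z ^ i * g) ≤ a + b + c`, `deg (z ^ j * f) ≤ 2 * (a + b + c)` and `n = |2 * i - j|`, or
`F = f * g ^ (m - 1)`, `n = 2 * m`, `m = |i - j|`, `i` odd, `deg (z ^ i * g) ≤ 2 * (a + b + c)`,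
`deg (z ^ j * f) ≤ 2 * (a + b + c)`. For `n = 2` the weight `c` of `z` is zero. -/
def IsWeighted (Ω : Type) {M : Type} [Field Ω] [Field M] [Algebra Ω M] (n : ℕ) (x y w : M) : Prop :=
  ∃ (a b c i j : ℕ) (f g : MvPolynomial (Fin 2) Ω), 0 < a + b + c ∧ (2 < n ∨ c = 0) ∧
    DegLE a b c j (2 * (a + b + c)) f ∧
    ((2 * i = j + n ∨ j = 2 * i + n) ∧ DegLE a b c i (a + b + c) g ∧
        MvPolynomial.aeval ![x, y] g ≠ 0 ∧
        w ^ n * MvPolynomial.aeval ![x, y] g ^ 2 = MvPolynomial.aeval ![x, y] f ∨
      Odd i ∧ DegLE a b c i (2 * (a + b + c)) g ∧ ∃ m : ℕ, n = 2 * m ∧ (j = i + m ∨ i = j + m) ∧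
        w ^ n = MvPolynomial.aeval ![x, y] f * MvPolynomial.aeval ![x, y] g ^ (m - 1))

/-- The data of `M / R`: `x`, `y` generate `R`, `w` generates `M` over `R`, `w ^ n ∈ R`. -/
theorem cyc_data {Ω R M : Type} [Field Ω] [Field R] [Field M] [Algebra Ω R] [Algebra Ω M]
    [Algebra R M] [IsScalarTower Ω R M] [FiniteDimensional R M] [IsGalois R M] (x y : R)
    (hR : adjoin Ω {x, y} = ⊤) (w : M) (hw : adjoin R {w} = ⊤) {n : ℕ}
    (hn : Module.finrank R M = n) (hwn : w ^ n ∈ adjoin Ω {algebraMap R M x, algebraMap R M y}) :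
    0 < n ∧ adjoin Ω {algebraMap R M x, algebraMap R M y, w} = ⊤ ∧
      Module.finrank (adjoin Ω {algebraMap R M x, algebraMap R M y}) M = n ∧ (n : Ω) ≠ 0 ∧
      (1 < n → w ≠ 0) ∧ ∀ r : R, algebraMap R M r ∈ adjoin Ω {algebraMap R M x, algebraMap R M y} := by
  have hn0 : 0 < n := by
    rw [← hn]
    exact Module.finrank_pos
  have hmem : ∀ r : R, algebraMap R M r ∈ adjoin Ω {algebraMap R M x, algebraMap R M y} := by
    intro r
    have h1 : adjoin Ω {x, y} ≤ (adjoin Ω {algebraMap R M x, algebraMap R M y}).comap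
        (IsScalarTower.toAlgHom Ω R M) := by
      rw [adjoin_le_iff]
      rintro s (rfl | rfl)
      · exact subset_adjoin _ _ (by simp)
      · exact subset_adjoin _ _ (by simp)
    rw [hR] at h1
    exact h1 (mem_top (x := r))
  have htop : adjoin Ω {algebraMap R M x, algebraMap R M y, w} = ⊤ := by
    have hmem' : ∀ r : R, algebraMap R M r ∈
        adjoin Ω {algebraMap R M x, algebraMap R M y, w} := fun r =>
      adjoin.mono Ω {algebraMap R M x, algebraMap R M y}
        {algebraMap R M x, algebraMap R M y, w} (by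
          rintro s (rfl | rfl)
          · simp
          · simp) (hmem r)
    let A : IntermediateField R M :=
      { (adjoin Ω {algebraMap R M x, algebraMap R M y, w}).toSubfield with
        algebraMap_mem' := hmem' }
    have h1 : adjoin R {w} ≤ A := by
      rw [adjoin_le_iff]
      rintro _ rfl
      exact subset_adjoin Ω _ (by simp)
    rw [hw] at h1
    rw [eq_top_iff]
    intro s _
    exact h1 (mem_top (x := s))
  obtain ⟨c, hc⟩ : ∃ c : R, algebraMap R M c = w ^ n := by
    have h1 : adjoin Ω {algebraMap R M x, algebraMap R M y} ≤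
        (IsScalarTower.toAlgHom Ω R M).fieldRange := by
      rw [adjoin_le_iff]
      rintro s (rfl | rfl)
      · exact ⟨x, rfl⟩
      · exact ⟨y, rfl⟩
    obtain ⟨c, hc⟩ := h1 hwn
    exact ⟨c, hc⟩
  have hcast : (n : Ω) ≠ 0 := by
    intro h0
    have hint : IsIntegral R w := Algebra.IsIntegral.isIntegral w
    have h1 : (minpoly R w).natDegree = n := by
      rw [← IntermediateField.adjoin.finrank hint, hw, IntermediateField.finrank_top', hn]
    have h2 : minpoly R w ∣ Polynomial.X ^ n - Polynomial.C c := by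
      apply minpoly.dvd
      rw [map_sub, Polynomial.aeval_X_pow, Polynomial.aeval_C, hc, sub_self]
    have h3 : minpoly R w = Polynomial.X ^ n - Polynomial.C c := by
      refine (Polynomial.eq_of_monic_of_dvd_of_natDegree_le (minpoly.monic hint)
        (Polynomial.monic_X_pow_sub_C c hn0.ne') h2 ?_).symm
      rw [Polynomial.natDegree_X_pow_sub_C, h1]
    have h4 : (minpoly R w).Separable := (inferInstance : Algebra.IsSeparable R M).isSeparable' w
    rw [h3, Polynomial.separable_def] at h4
    have h5 : ((n : ℕ) : R) = 0 := by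
      have h6 := congrArg (algebraMap Ω R) h0
      rwa [map_natCast, map_zero] at h6
    rw [Polynomial.derivative_sub, Polynomial.derivative_X_pow, Polynomial.derivative_C, h5, map_zero,
      zero_mul, sub_zero, isCoprime_zero_right] at h4
    have h7 := Polynomial.natDegree_eq_zero_of_isUnit h4
    rw [Polynomial.natDegree_X_pow_sub_C] at h7
    exact hn0.ne' h7
  refine ⟨hn0, htop, ?_, hcast, fun h1 => ?_, hmem⟩
  · let B : IntermediateField Ω M := adjoin Ω {algebraMap R M x, algebraMap R M y}
    let e : R →+* B :=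
      { toFun := fun r => ⟨algebraMap R M r, hmem r⟩
        map_one' := Subtype.ext (map_one _)
        map_mul' := fun a b => Subtype.ext (map_mul _ a b)
        map_zero' := Subtype.ext (map_zero _)
        map_add' := fun a b => Subtype.ext (map_add _ a b) }
    have he : Function.Bijective e := by
      refine ⟨e.injective, fun b => ?_⟩
      have h1 : adjoin Ω {algebraMap R M x, algebraMap R M y} ≤
          (IsScalarTower.toAlgHom Ω R M).fieldRange := by
        rw [adjoin_le_iff]
        rintro s (rfl | rfl)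
        · exact ⟨x, rfl⟩
        · exact ⟨y, rfl⟩
      obtain ⟨r, hr⟩ := h1 b.2
      exact ⟨r, Subtype.ext hr⟩
    have h2 := Algebra.finrank_eq_of_equiv_equiv (RingEquiv.ofBijective e he) (RingEquiv.refl M)
      (by
        ext r
        rfl)
    rw [← h2, hn]
  · rintro rfl
    have h2 : adjoin R {(0 : M)} = ⊥ := by
      rw [adjoin_simple_eq_bot_iff]
      exact zero_mem _
    rw [h2] at hw
    have h3 : Module.finrank R (⊥ : IntermediateField R M) = 1 := IntermediateField.finrank_bot
    rw [hw, IntermediateField.finrank_top', hn] at h3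
    omega

/-- **The list with weights.** -/
theorem row_uni {Ω R M : Type} [Field Ω] [IsAlgClosed Ω] [Field R] [Field M] [Algebra Ω R]
    [Algebra Ω M] [Algebra R M] [IsScalarTower Ω R M] [FiniteDimensional R M] [IsGalois R M]
    (x y : R) (hR : adjoin Ω {x, y} = ⊤) (w : M) (hw : adjoin R {w} = ⊤) {n : ℕ}
    (hn : Module.finrank R M = n)
    (hrow : IsWeighted Ω n (algebraMap R M x) (algebraMap R M y) w) :
    w ^ n ∈ adjoin Ω {algebraMap R M x, algebraMap R M y} ∧
    (n ≤ 2 → Uniruled Ω M 2) ∧ (2 < n → ∃ α β : ℕ, (α.gcd β).Coprime n ∧ ¬ n ∣ α ∧ ¬ n ∣ β ∧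
      ¬ n ∣ α + β ∧ ∀ (N : Type) [Field N] [Algebra Ω N] (g : M →ₐ[Ω] N) (v s : N), v ≠ 0 → v ≠ 1 →
        v ^ α * (1 - v) ^ β = s ^ n * g w ^ n →
        Uniruled Ω (adjoin Ω {g (algebraMap R M x), g (algebraMap R M y), v, s} :
          IntermediateField Ω N) 3) := by
  obtain ⟨a, b, c, i, j, f, g, hpos, hc, hf, h⟩ := hrow
  obtain ⟨X, hX⟩ : ∃ X : M, X = algebraMap R M x := ⟨_, rfl⟩
  obtain ⟨Y, hY⟩ : ∃ Y : M, Y = algebraMap R M y := ⟨_, rfl⟩
  have hmX : X ∈ adjoin Ω {X, Y} := subset_adjoin _ _ (by simp)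
  have hmY : Y ∈ adjoin Ω {X, Y} := subset_adjoin _ _ (by simp)
  have hwn : w ^ n ∈ adjoin Ω {X, Y} := by
    rw [← hX, ← hY] at h
    rcases h with ⟨-, -, hg0, h⟩ | ⟨-, -, m, -, -, h⟩
    · have h1 : w ^ n = MvPolynomial.aeval ![X, Y] f / MvPolynomial.aeval ![X, Y] g ^ 2 := by
        rw [← h, mul_div_cancel_right₀ _ (pow_ne_zero _ hg0)]
      rw [h1]
      exact div_mem (mem_valr75 f X Y _ hmX hmY) (pow_mem (mem_valr75 g X Y _ hmX hmY) 2)
    · rw [h]
      exact mul_mem (mem_valr75 f X Y _ hmX hmY) (pow_mem (mem_valr75 g X Y _ hmX hmY) _)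
  rw [hX, hY] at hwn
  obtain ⟨hn0, htop, hfin, hcast, hw0, hmem⟩ := cyc_data x y hR w hw hn hwn
  rw [← hX, ← hY] at h hwn htop hfin ⊢
  refine ⟨hwn, fun hn2 => ?_, fun hn2 => ?_⟩
  · -- small degree
    have hc0 : c = 0 := hc.resolve_left (by omega)
    subst hc0
    rcases Nat.lt_or_ge 1 n with h1 | h1
    · have hn2' : n = 2 := by omega
      subst hn2'
      have h2 : (2 : Ω) ≠ 0 := by exact_mod_cast hcast
      obtain ⟨z, hz, hz'⟩ : ∃ z : M, z ^ 2 = MvPolynomial.aeval ![X, Y] f ∧
          adjoin Ω {X, Y, z} = ⊤ := by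
        rcases h with ⟨-, -, hg0, h⟩ | ⟨-, -, m, hm, -, h⟩
        · refine ⟨w * MvPolynomial.aeval ![X, Y] g, ?_, ?_⟩
          · rw [← h]
            ring
          · rw [eq_top_iff, ← htop, adjoin_le_iff]
            have mX : X ∈ adjoin Ω {X, Y, w * MvPolynomial.aeval ![X, Y] g} :=
              subset_adjoin _ _ (by simp)
            have mY : Y ∈ adjoin Ω {X, Y, w * MvPolynomial.aeval ![X, Y] g} :=
              subset_adjoin _ _ (by simp)
            have mz : w * MvPolynomial.aeval ![X, Y] g ∈
                adjoin Ω {X, Y, w * MvPolynomial.aeval ![X, Y] g} :=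
              subset_adjoin _ _ (by simp)
            rintro s (rfl | rfl | rfl)
            · exact mX
            · exact mY
            · have h3 : s = s * MvPolynomial.aeval ![X, Y] g / MvPolynomial.aeval ![X, Y] g := by
                rw [mul_div_cancel_right₀ _ hg0]
              exact (congrArg (· ∈ adjoin Ω {X, Y, s * MvPolynomial.aeval ![X, Y] g}) h3).mpr
                (div_mem mz (mem_valr75 g X Y _ mX mY))
        · have hm1 : m = 1 := by omega
          refine ⟨w, ?_, htop⟩
          rw [h, hm1, Nat.sub_self, pow_zero, mul_one]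
      have h3 : Uniruled Ω (adjoin Ω {X, Y, z} : IntermediateField Ω M) 2 := by
        refine uni_double_all f 0 (Or.inl h2) a b (by omega) (fun m hm => ?_) (fun m hm => ?_) X Y z
          (by rw [map_zero, zero_mul, zero_add, hz])
        · have h4 := hf m hm
          omega
        · simp at hm
      rw [hz'] at h3
      exact uniruled_of_hom (topEquiv (F := Ω) (E := M)).symm.toAlgHom h3
    · have hn1 : n = 1 := by omega
      refine Pool.Agent.Helper35.TD.uniruled_surface (n := 1) X Y w htop ?_
      rw [hn1, pow_one] at hwn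
      exact hwn
  · -- large degree
    have hw0' := hw0 (by omega)
    rcases h with ⟨hij, hg, hg0, h⟩ | ⟨hi, hg, m, hm, hij, h⟩
    · refine ⟨1, 1, by simp, ?_, ?_, ?_, fun N _ _ k v s hv0 hv1 hvs => ?_⟩
      · rw [Nat.dvd_one]
        omega
      · rw [Nat.dvd_one]
        omega
      · intro h1
        have h2 := Nat.le_of_dvd (by norm_num) h1
        omega
      · have hgk : MvPolynomial.aeval ![k X, k Y] g ≠ 0 := by
          rw [← map_aeval75]
          exact (map_ne_zero k).2 hg0
        have hs0 : s ≠ 0 := by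
          rintro rfl
          rw [pow_one, pow_one, zero_pow (by omega), zero_mul] at hvs
          exact mul_ne_zero hv0 (sub_ne_zero.2 hv1.symm) hvs
        refine uni_A hij hpos hg hf (k X) (k Y) v s hgk hs0 ?_
        rw [pow_one, pow_one] at hvs
        rw [hvs, ← map_aeval75, ← map_aeval75, ← h, map_mul, map_pow, map_pow]
        ring
    · have hm2 : 2 ≤ m := by omega
      have hg0 : MvPolynomial.aeval ![X, Y] g ≠ 0 := by
        intro h0
        rw [h0, zero_pow (by omega), mul_zero] at h
        exact pow_ne_zero _ hw0' h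
      have h2 : (2 : Ω) ≠ 0 := by
        intro h0
        apply hcast
        rw [hm, Nat.cast_mul, Nat.cast_ofNat, h0, zero_mul]
      refine ⟨1, m, by simp, ?_, ?_, ?_, fun N _ _ k v s hv0 hv1 hvs => ?_⟩
      · rw [Nat.dvd_one]
        omega
      · intro h1
        have h3 := Nat.le_of_dvd (by omega) h1
        omega
      · intro h1
        have h3 := Nat.le_of_dvd (by omega) h1
        omega
      · have hv1' : 1 - v ≠ 0 := sub_ne_zero.2 hv1.symm
        have hgk : MvPolynomial.aeval ![k X, k Y] g ≠ 0 := by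
          rw [← map_aeval75]
          exact (map_ne_zero k).2 hg0
        have hs0 : s ≠ 0 := by
          rintro rfl
          rw [pow_one, zero_pow (by omega), zero_mul] at hvs
          exact mul_ne_zero hv0 (pow_ne_zero _ hv1') hvs
        refine uni_B h2 hi (by omega) hij hpos hg hf (k X) (k Y) v s hgk hs0 hv1' ?_
        rw [pow_one] at hvs
        rw [hvs, ← map_aeval75, ← map_aeval75, ← map_pow k w, h, map_mul, map_pow, hm]

end Pool.Agent.Helper75.WC
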