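import Pool.Agent.Helper75.WC.CurveMove

/-! Project WC. Representations which are in the list. -/

set_option autoImplicit false

namespace Pool.Agent.Helper75.WC

open IntermediateField MvPolynomial

theorem aeval_map75 {Ω R M : Type} [Field Ω] [Field R] [Field M] [Algebra Ω R] [Algebra Ω M]
    [Algebra R M] [IsScalarTower Ω R M] (x y : R) (f : MvPolynomial (Fin 2) Ω) :
    aeval ![algebraMap R M x, algebraMap R M y] f = algebraMap R M (aeval ![x, y] f) :=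
  (Pool.Agent.Helper75.QC.map_aeval75 (IsScalarTower.toAlgHom Ω R M) x y f).symm

theorem degLE_of {Ω : Type} [Field Ω] {f : MvPolynomial (Fin 2) Ω} {d : ℕ}
    (hf : f.totalDegree ≤ d) {a c i k : ℕ} (h : a * d + c * i ≤ k) : DegLE a a c i k f := by
  intro m hm
  have h1 : m 0 + m 1 ≤ d := by
    have := (le_totalDegree hm).trans hf
    rwa [Finsupp.sum_fintype _ _ (fun _ => rfl), Fin.sum_univ_two] at this
  have h2 : a * m 0 + a * m 1 ≤ a * d := by
    rw [← mul_add]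
    exact Nat.mul_le_mul_left _ h1
  omega

variable {Ω R M : Type} [Field Ω] [IsAlgClosed Ω] [Field R] [Field M] [Algebra Ω R] [Algebra Ω M]
    [Algebra R M] [IsScalarTower Ω R M]

theorem Rep.lstA {n : ℕ} {D : ℕ → ℕ} (H : Rep Ω R M n D) (hn : 0 < n) {t a c i j : ℕ}
    (ht : t.Coprime n) (v φ : ℕ → ℕ) (h : ∀ e < n, D e = 0 ∨ (t * e + 2 * v e) % n = φ e % n)
    (ha : 0 < 2 * a + c) (hc : 2 < n ∨ c = 0) (hij : 2 * i = j + n ∨ j = 2 * i + n)
    (hG : a * (∑ e ∈ Finset.range n, v e * D e) + c * i ≤ 2 * a + c)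
    (hF : a * (∑ e ∈ Finset.range n, φ e * D e) + c * j ≤ 2 * (2 * a + c)) : Lst Ω R M n := by
  obtain ⟨w', h1, h2⟩ := H.twist hn ht (fun e => 2 * v e) φ h
  refine ⟨H.x, H.y, w', H.gen, h1, Or.inl ⟨a, a, c, i, j, prodP n H.P φ, prodP n H.P v, by omega,
    hc, degLE_of (prodP_deg H.deg φ) (by omega), Or.inl ⟨hij, degLE_of (prodP_deg H.deg v)
    (by omega), ?_, ?_⟩⟩⟩
  · rw [aeval_map75]
    exact fun h0 => prodP_ne H.ne v ((map_eq_zero (algebraMap R M)).1 h0)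
  · rw [aeval_map75, aeval_map75, ← h2, prodP_mul, map_pow, map_pow]

theorem Rep.lstB {n : ℕ} {D : ℕ → ℕ} (H : Rep Ω R M n D) (hn : 0 < n) {t a c i j m : ℕ}
    (ht : t.Coprime n) (v φ : ℕ → ℕ)
    (h : ∀ e < n, D e = 0 ∨ (t * e) % n = (φ e + (m - 1) * v e) % n)
    (ha : 0 < 2 * a + c) (hc : 2 < n ∨ c = 0) (hi : Odd i) (hm : n = 2 * m)
    (hij : j = i + m ∨ i = j + m)
    (hG : a * (∑ e ∈ Finset.range n, v e * D e) + c * i ≤ 2 * (2 * a + c))
    (hF : a * (∑ e ∈ Finset.range n, φ e * D e) + c * j ≤ 2 * (2 * a + c)) : Lst Ω R M n := by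
  obtain ⟨w', h1, h2⟩ := H.twist hn ht (fun _ => 0) (fun e => φ e + (m - 1) * v e)
    (by simpa using h)
  refine ⟨H.x, H.y, w', H.gen, h1, Or.inl ⟨a, a, c, i, j, prodP n H.P φ, prodP n H.P v, by omega,
    hc, degLE_of (prodP_deg H.deg φ) (by omega), Or.inr ⟨hi, degLE_of (prodP_deg H.deg v)
    (by omega), m, hm, hij, ?_⟩⟩⟩
  have h3 : prodP n H.P (fun _ => 0) = 1 := by
    unfold prodP
    simp
  rw [h3, map_one, map_one, mul_one, prodP_add, prodP_mul] at h2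
  rw [h2, aeval_map75, aeval_map75]
  simp only [map_mul, map_pow]

theorem Rep.lstT {n : ℕ} {D : ℕ → ℕ} (H : Rep Ω R M n D) (hn : 0 < n) {t a b c : ℕ}
    (ht : t.Coprime n) (u v k : ℕ → ℕ)
    (h : ∀ e < n, D e = 0 ∨ (t * e) % n = (a * u e + b * v e + c * k e) % n)
    (hd : (∑ e ∈ Finset.range n, u e * D e ≤ 3 ∧ ∑ e ∈ Finset.range n, v e * D e ≤ 2 ∧
        (∀ e, k e = 0) ∧ n ∣ 3 * a + 2 * b) ∨
      (∑ e ∈ Finset.range n, u e * D e ≤ 2 ∧ ∑ e ∈ Finset.range n, v e * D e ≤ 2 ∧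
        ∑ e ∈ Finset.range n, k e * D e ≤ 2 ∧ n ∣ a + b + c)) : Lst Ω R M n := by
  obtain ⟨w', h1, h2⟩ := H.twist hn ht (fun _ => 0) (fun e => a * u e + b * v e + c * k e)
    (by simpa using h)
  refine ⟨H.x, H.y, w', H.gen, h1, Or.inr ⟨a, b, c, prodP n H.P u, prodP n H.P v, prodP n H.P k,
    ?_, ?_⟩⟩
  · rcases hd with ⟨d1, d2, d3, d4⟩ | ⟨d1, d2, d3, d4⟩
    · refine Or.inl ⟨(prodP_deg H.deg u).trans d1, (prodP_deg H.deg v).trans d2, ?_, d4⟩
      unfold prodP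
      simp [d3]
    · exact Or.inr ⟨(prodP_deg H.deg u).trans d1, (prodP_deg H.deg v).trans d2,
        (prodP_deg H.deg k).trans d3, d4⟩
  · have h3 : prodP n H.P (fun _ => 0) = 1 := by
      unfold prodP
      simp
    rw [h3, map_one, map_one, mul_one, prodP_add (fun e => a * u e + b * v e) (fun e => c * k e),
      prodP_add (fun e => a * u e) (fun e => b * v e), prodP_mul, prodP_mul, prodP_mul] at h2
    rw [h2, aeval_map75, aeval_map75, aeval_map75]
    simp only [map_mul, map_pow]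

end Pool.Agent.Helper75.WC
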