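import Pool.Agent.Helper75.WC.Good
import Pool.Agent.Helper40.SD.Gpair

/-! Project WC: the surfaces `w ^ n * q(x, y) ^ 2 = f(x, y)` under the condition on the degrees. -/

set_option autoImplicit false

namespace Pool.Agent.Helper75.WC

open IntermediateField Pool.Agent.Helper75.QC Pool.Agent.Helper75.TC Pool.Agent.Helper35.TD
open Pool.Agent.Helper40.SD

/-- The weights of `x`, `y` and `s⁻¹` are `a`, `b`, `c`. -/
def Weights {Ω : Type} [Field Ω] (n : ℕ) (f q : MvPolynomial (Fin 2) Ω) (a b c k e : ℕ) : Prop :=
  0 < a + b + c ∧ 2 * k = n + e ∧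
  (∀ m ∈ f.support, a * m 0 + b * m 1 + e * c ≤ 2 * (a + b + c)) ∧
  (∀ m ∈ q.support, a * m 0 + b * m 1 + k * c ≤ a + b + c)

/-- the weights for a divisor of `n` -/
theorem Weights.uni {Ω : Type} [Field Ω] [IsAlgClosed Ω] {n : ℕ} {f q : MvPolynomial (Fin 2) Ω}
    {a b c k e : ℕ} (H : Weights n f q a b c k e) {n' : ℕ} (hle : n' ≤ n)
    (h : c = 0 ∨ Odd n ∨ Even n') {N : Type} [Field N] [Algebra Ω N] (x y v s : N)
    (hq : val q x y ≠ 0) (hs : s ≠ 0)
    (hv : v * (1 - v) * val q x y ^ 2 = s ^ n' * val f x y) :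
    Uniruled Ω (adjoin Ω {x, y, v, s} : IntermediateField Ω N) 3 := by
  obtain ⟨h0, hk, hf, hq'⟩ := H
  rcases h with h | h
  · subst h
    refine uni_gpair_all f q a b 0 n' n' n' (by omega) h0 (fun m hm => ?_) (fun m hm => ?_)
      x y v s hq hs hv
    · have := hf m hm
      simpa using this
    · have := hq' m hm
      simpa using this
  · rcases Nat.even_or_odd' n' with ⟨k', hk' | hk'⟩
    · refine uni_gpair_all f q a b c k' 0 n' (by omega) h0 (fun m hm => ?_) (fun m hm => ?_)
        x y v s hq hs hv
      · have := hf m hm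
        have h1 : 0 ≤ e * c := Nat.zero_le _
        omega
      · have := hq' m hm
        have h1 : k' * c ≤ k * c := Nat.mul_le_mul_right _ (by omega)
        omega
    · have hn : Odd n := by
        rcases h with h | h
        · exact h
        · exact absurd (hk' ▸ h) (by simp)
      obtain ⟨j, hj⟩ := hn
      refine uni_gpair_all f q a b c (k' + 1) 1 n' (by omega) h0 (fun m hm => ?_)
        (fun m hm => ?_) x y v s hq hs hv
      · have := hf m hm
        have h1 : 1 * c ≤ e * c := Nat.mul_le_mul_right _ (by omega)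
        omega
      · have := hq' m hm
        have h1 : (k' + 1) * c ≤ k * c := Nat.mul_le_mul_right _ (by omega)
        omega

variable {p : ℕ} [hpr : Fact p.Prime] {Ω L : Type} [Field Ω] [CharP Ω p] [IsAlgClosed Ω]
  [Field L] [CharZero L] [IsAlgClosed L]

/-- **The row.** -/
theorem good_weights (hΩ : ∀ c : Ω, ∃ k : ℕ, 0 < k ∧ c ^ p ^ k = c) (T : Theory p Ω L) {K : Type}
    [Field K] [Algebra Ω K] {n : ℕ} (hn : 0 < n) (f q : MvPolynomial (Fin 2) Ω) {a b c k e : ℕ}
    (H : Weights n f q a b c k e) (x y w : K) (hK : adjoin Ω {x, y, w} = ⊤)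
    (hdeg : Module.finrank (adjoin Ω {x, y}) K = n) (hq : val q x y ≠ 0)
    (hw : w ^ n * val q x y ^ 2 = val f x y)
    (hD : c = 0 ∨ Odd n ∨ (p ≠ 2 ∧ ∀ m : ℕ, n = 2 * m →
      Good T (adjoin Ω {x, y, w ^ m} : IntermediateField Ω K))) : Good T K := by
  refine good_gen hΩ T hn f q x y w hK hdeg hq hw ?_ ?_
  · intro m n' hnn hn0 N _ _ x y v s hq0 hs0 hv
    have hle : n' ≤ n := by
      rw [hnn]
      exact Nat.le_mul_of_pos_left _ (pow_pos hpr.out.pos m)
    refine H.uni hle ?_ x y v s hq0 hs0 hv
    rcases hD with h | h | ⟨h2, -⟩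
    · exact Or.inl h
    · exact Or.inr (Or.inl h)
    · right
      rcases Nat.even_or_odd n with h | h
      · right
        rw [hnn, Nat.even_mul] at h
        rcases h with h | h
        · exfalso
          have h3 : Even p := by
            by_contra hp
            rw [Nat.not_even_iff_odd] at hp
            exact (Nat.not_even_iff_odd.2 (hp.pow (n := m))) h
          exact h2 ((Nat.Prime.even_iff hpr.out).1 h3)
        · exact h
      · exact Or.inl h
  · intro m hm h2
    rcases hD with h | h | ⟨-, h⟩
    · subst h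
      obtain ⟨h0, hk, hf, hq'⟩ := H
      have hU : Uniruled Ω (adjoin Ω {x, y, w ^ m} : IntermediateField Ω K) 2 := by
        have h3 : Uniruled Ω (adjoin Ω {x, y, w ^ m * val q x y} : IntermediateField Ω K) 2 := by
          refine uni_double_all f 0 (Or.inl h2) a b (by simpa using h0) (fun i hi => ?_)
            (fun i hi => by simp at hi) x y _ ?_
          · have := hf i hi
            simpa using this
          · rw [map_zero, zero_mul, zero_add]
            show (w ^ m * val q x y) ^ 2 = val f x y
            rw [← hw, hm, mul_pow, ← pow_mul, mul_comm m 2]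
        refine uniruled_le (S := {x, y, w ^ m}) (T := {x, y, w ^ m * val q x y}) ?_ h3
        have mx : x ∈ adjoin Ω {x, y, w ^ m * val q x y} := subset_adjoin _ _ (by simp)
        have my : y ∈ adjoin Ω {x, y, w ^ m * val q x y} := subset_adjoin _ _ (by simp)
        rintro s (rfl | rfl | rfl)
        · exact mx
        · exact my
        · have h5 : w ^ m * val q x y / val q x y ∈ adjoin Ω {x, y, w ^ m * val q x y} :=
            div_mem (subset_adjoin _ _ (by simp)) (val_mem q _ mx my)
          rwa [mul_div_cancel_right₀ _ hq] at h5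
      intro e φ _ _
      exact semisimple_of_uniruled T hU φ
    · obtain ⟨j, hj⟩ := h
      omega
    · exact h m hm

end Pool.Agent.Helper75.WC
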