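import Pool.Agent.Helper75.TC.Frob
import Pool.Agent.Helper15.QM.Rows

/-! Project WC (`CyclicPlanes`, second version). The surfaces `w ^ n ∈ Ω(x, y)` for which the
threefold `v (1 - v) = s ^ n w ^ n` is uniruled: Frobenius is semisimple if it is for the double
plane `z ^ 2 = w ^ n`. -/

set_option autoImplicit false

namespace Pool.Agent.Helper75.WC

open IntermediateField Pool.Agent.Helper75.QC Pool.Agent.Helper75.TC

/-- an invariant subspace of the image of a semisimple space -/
theorem restrict_of_range {L V W : Type} [Field L] [AddCommGroup V] [Module L V] [AddCommGroup W]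
    [Module L W] [FiniteDimensional L V] [FiniteDimensional L W] (Φ : Module.End L V)
    (Ψ : Module.End L W) (g : W →ₗ[L] V) (hc : ∀ w, g (Ψ w) = Φ (g w)) (hss : Ψ.IsSemisimple)
    (U : Submodule L V) (hU : ∀ t ∈ U, Φ t ∈ U) (hle : ∀ t ∈ U, t ∈ LinearMap.range g) :
    Module.End.IsSemisimple (Φ.restrict hU) := by
  have h1 : ∀ (P : Polynomial L) (w : W),
      g (Polynomial.aeval Ψ P w) = Polynomial.aeval Φ P (g w) := by
    intro P w
    induction P using Polynomial.induction_on' with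
    | add P Q hP hQ =>
      rw [map_add, map_add, LinearMap.add_apply, LinearMap.add_apply, map_add, hP, hQ]
    | monomial m c =>
      have h2 : ∀ m : ℕ, g ((Ψ ^ m) w) = (Φ ^ m) (g w) := by
        intro m
        induction m with
        | zero => rfl
        | succ m ih => rw [pow_succ', pow_succ', Module.End.mul_apply, Module.End.mul_apply, hc, ih]
      rw [Polynomial.aeval_monomial, Polynomial.aeval_monomial]
      simp only [Module.End.mul_apply, Module.algebraMap_end_apply, map_smul, h2]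
  have h3 : ∀ (P : Polynomial L) (v : U),
      ((Polynomial.aeval (Φ.restrict hU) P v : U) : V) = Polynomial.aeval Φ P (v : V) := by
    intro P v
    induction P using Polynomial.induction_on' with
    | add P Q hP hQ => simp only [map_add, LinearMap.add_apply, Submodule.coe_add, hP, hQ]
    | monomial m c =>
      have h2 : ∀ m : ℕ, (((Φ.restrict hU) ^ m) v : V) = (Φ ^ m) (v : V) := by
        intro m
        induction m with
        | zero => rfl
        | succ m ih => rw [pow_succ', pow_succ', Module.End.mul_apply, Module.End.mul_apply,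
            LinearMap.restrict_coe_apply, ih]
      rw [Polynomial.aeval_monomial, Polynomial.aeval_monomial]
      simp only [Module.End.mul_apply, Module.algebraMap_end_apply, Submodule.coe_smul, h2]
  refine Module.End.isSemisimple_of_squarefree_aeval_eq_zero (p := minpoly L Ψ)
    hss.minpoly_squarefree ?_
  ext v
  obtain ⟨w, hw⟩ := hle v.1 v.2
  rw [h3, ← hw, ← h1, minpoly.aeval]
  simp

theorem fg_sub {Ω K : Type} [Field Ω] [Field K] [Algebra Ω K] {S : Set K} (hS : S.Finite) :
    (⊤ : IntermediateField Ω (adjoin Ω S)).FG := by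
  have h1 : adjoin Ω ((fun a : adjoin Ω S => (a : K)) ⁻¹' S) = ⊤ := by
    apply lift_injective (adjoin Ω S)
    rw [lift_top, lift_adjoin]
    apply le_antisymm
    · rw [adjoin_le_iff]
      rintro _ ⟨a, _, rfl⟩
      exact a.2
    · rw [adjoin_le_iff]
      intro a ha
      apply subset_adjoin
      exact ⟨⟨a, subset_adjoin _ _ ha⟩, ha, rfl⟩
  rw [← h1]
  exact fg_adjoin_of_finite (hS.preimage (Subtype.val_injective.injOn))

private theorem alg_of_poww75 {Ω K : Type} [Field Ω] [Field K] [Algebra Ω K] (R : IntermediateField Ω K)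
    (S : Set K) (hS : adjoin Ω S = ⊤) (m : ℕ) (hm : 0 < m) (h : ∀ s ∈ S, s ^ m ∈ R) (k : K) :
    IsAlgebraic R k := by
  have h1 : adjoin Ω S ≤ (algebraicClosure R K).restrictScalars Ω := by
    rw [adjoin_le_iff]
    intro s hs
    have h2 : IsAlgebraic R s := by
      refine IsAlgebraic.of_pow hm ?_
      exact isAlgebraic_algebraMap (⟨s ^ m, h s hs⟩ : R)
    exact (mem_algebraicClosure_iff).2 h2
  have h3 : k ∈ (algebraicClosure R K).restrictScalars Ω := by
    apply h1
    rw [hS]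
    exact mem_top
  exact (mem_algebraicClosure_iff).1 h3

private theorem end_poww75 {Ω K : Type} [Field Ω] [Field K] [Algebra Ω K] (φ : K →ₐ[Ω] K) (q : ℕ)
    (x : K) (hx : φ x = x ^ q) (k : ℕ) : (φ ^ k) x = x ^ q ^ k := by
  induction k with
  | zero => simp
  | succ k ih =>
    rw [pow_succ, AlgHom.mul_apply, hx, map_pow, ih, ← pow_mul, pow_succ]

private theorem end_powb75 {Ω K : Type} [Field Ω] [Field K] [Algebra Ω K] (σ : K →ₐ[Ω] K) (c : Ω)
    (x : K) (hx : σ x = algebraMap Ω K c * x) (k : ℕ) :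
    (σ ^ k) x = algebraMap Ω K (c ^ k) * x := by
  induction k with
  | zero => simp
  | succ k ih =>
    rw [pow_succ, AlgHom.mul_apply, hx, map_mul, ih, AlgHom.commutes, pow_succ, map_mul]
    ring

private theorem map_poww75 {Ω L : Type} [Field Ω] [Field L] (T : BaseTheory Ω L) (i : ℕ)
    {K : Type} [Field K] [Algebra Ω K] (φ : K →ₐ[Ω] K) (k : ℕ) :
    T.map i (φ ^ k) = (T.map i φ) ^ k := by
  induction k with
  | zero =>
    rw [pow_zero, pow_zero]
    exact T.map_id i K
  | succ k ih =>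
    rw [pow_succ, pow_succ, ← ih]
    exact T.map_comp i φ (φ ^ k)

private theorem semisimple_of_zerow75 {L V : Type} [Field L] [AddCommGroup V] [Module L V]
    (Φ : Module.End L V) (h : ∀ v : V, v = 0) : Φ.IsSemisimple := by
  have h1 : Φ = 0 := by
    ext v
    rw [h v, map_zero, map_zero]
  rw [h1]
  exact Module.End.isSemisimple_zero

/-- **The criterion.** The cyclic cover `w ^ n ∈ Ω(x, y)` and the curve `u ^ n = v (1 - v)`: if the
threefold `v (1 - v) = s ^ n w ^ n` is uniruled, Frobenius is semisimple if it is for the double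
plane `z ^ 2 = w ^ n`. -/
theorem tame_double {p : ℕ} [Fact p.Prime] {Ω L : Type} [Field Ω] [CharP Ω p] [IsAlgClosed Ω]
    [Field L] [CharZero L] [IsAlgClosed L] (T : Theory p Ω L) {n e : ℕ} (he : 0 < e) (hn : 0 < n)
    (hn' : (n : Ω) ≠ 0) {K : Type} [Field K] [Algebra Ω K] (x y w : K)
    (hK : adjoin Ω {x, y, w} = ⊤) (hw0 : w ≠ 0) (hw : w ^ n ∈ adjoin Ω {x, y})
    (hdeg : Module.finrank (adjoin Ω {x, y}) K = n)
    (huni : ∀ (N : Type) [Field N] [Algebra Ω N] (g : K →ₐ[Ω] N) (v s : N),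
      Transcendental g.fieldRange v → v ^ 1 * (1 - v) ^ 1 = s ^ n * g w ^ n →
      Uniruled Ω (adjoin Ω {g x, g y, v, s} : IntermediateField Ω N) 3)
    (hD : ∀ m : ℕ, n = 2 * m → Good T (adjoin Ω {x, y, w ^ m} : IntermediateField Ω K))
    (φ : K →ₐ[Ω] K) (hφ : φ x = x ^ p ^ e ∧ φ y = y ^ p ^ e ∧ φ w = w ^ p ^ e) :
    Module.End.IsSemisimple (T.map 2 φ) := by
  classical
  have hfin : (⊤ : IntermediateField Ω K).FG := by
    rw [← hK]
    exact fg_adjoin_of_finite (Set.toFinite _)
  have : NeZero (n : Ω) := ⟨hn'⟩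
  obtain ⟨ζ, hζ⟩ : ∃ ζ : Ω, IsPrimitiveRoot ζ n :=
    HasEnoughRootsOfUnity.exists_primitiveRoot Ω n
  obtain ⟨σ, hσ⟩ := kummer_sigma hn hn' hζ.pow_eq_one x y w hK hw hdeg
  have hσn : σ ^ n = 1 := by
    refine hom_ext {x, y, w} hK _ _ ?_
    rintro s (rfl | rfl | rfl)
    · have := end_powb75 σ 1 s (by rw [hσ.1, map_one, one_mul]) n
      rw [this]
      simp
    · have := end_powb75 σ 1 s (by rw [hσ.2.1, map_one, one_mul]) n
      rw [this]
      simp
    · rw [end_powb75 σ ζ s hσ.2.2 n, hζ.pow_eq_one]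
      simp
  have : FiniteDimensional L (T.H 2 K) := T.fin 2 K hfin
  set k := n.totient with hk
  have hk0 : 0 < k := Nat.totient_pos.2 hn
  have hcop : Nat.Coprime p n := by
    rw [Nat.Prime.coprime_iff_not_dvd Fact.out]
    intro h
    exact hn' ((CharP.cast_eq_zero_iff Ω p n).2 h)
  have hpk : p ^ (e * k) ≡ 1 [MOD n] := by
    have h1 : p ^ k ≡ 1 [MOD n] := Nat.ModEq.pow_totient hcop
    have h2 := h1.pow e
    rwa [one_pow, ← pow_mul, mul_comm] at h2
  have hζp : ζ ^ p ^ (e * k) = ζ := by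
    have h1 : n ∣ p ^ (e * k) - 1 :=
      (Nat.modEq_iff_dvd' (Nat.one_le_iff_ne_zero.2 (pow_ne_zero _ (Fact.out : p.Prime).ne_zero))).1
        hpk.symm
    obtain ⟨r, hr⟩ := h1
    have h2 : p ^ (e * k) = n * r + 1 := by
      have := Nat.one_le_iff_ne_zero.2 (pow_ne_zero (e * k) (Fact.out : p.Prime).ne_zero)
      omega
    rw [h2, pow_succ, pow_mul, hζ.pow_eq_one, one_pow, one_mul]
  have hpe : 0 < p ^ (e * k) := pow_pos (Fact.out : p.Prime).pos _
  set φk : K →ₐ[Ω] K := φ ^ k with hφk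
  have hφx : φk x = x ^ p ^ (e * k) := by
    rw [hφk, end_poww75 φ _ x hφ.1 k, pow_mul]
  have hφy : φk y = y ^ p ^ (e * k) := by
    rw [hφk, end_poww75 φ _ y hφ.2.1 k, pow_mul]
  have hφw : φk w = w ^ p ^ (e * k) := by
    rw [hφk, end_poww75 φ _ w hφ.2.2 k, pow_mul]
  have hcomm : σ.comp φk = φk.comp σ := by
    refine hom_ext {x, y, w} hK _ _ ?_
    rintro s (rfl | rfl | rfl)
    · rw [AlgHom.comp_apply, AlgHom.comp_apply, hφx, map_pow, hσ.1, hφx]
    · rw [AlgHom.comp_apply, AlgHom.comp_apply, hφy, map_pow, hσ.2.1, hφy]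
    · rw [AlgHom.comp_apply, AlgHom.comp_apply, hφw, map_pow, hσ.2.2, map_mul, hφw,
        AlgHom.commutes, mul_pow, ← map_pow, hζp]
  set A : Module.End L (T.H 2 K) := T.map 2 σ with hA
  set Φ : Module.End L (T.H 2 K) := T.map 2 φk with hΦ
  have hAn : A ^ n = 1 := by
    rw [hA, ← map_poww75 T.toBaseTheory, hσn]
    exact T.map_id 2 K
  have hAΦ : Commute A Φ := by
    show A * Φ = Φ * A
    have h1 := T.map_comp 2 φk σ
    have h2 := T.map_comp 2 σ φk
    rw [hcomm, h2] at h1
    exact h1.symm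
  have hinj : Function.Injective (T.map 2 φ) := by
    refine T.inj 2 φ fun a => alg_of_poww75 φ.fieldRange {x, y, w} hK (p ^ e)
      (pow_pos (Fact.out : p.Prime).pos _) ?_ a
    rintro s (rfl | rfl | rfl)
    · exact ⟨s, hφ.1⟩
    · exact ⟨s, hφ.2.1⟩
    · exact ⟨s, hφ.2.2⟩
  refine semisimple_of_pow (T.map 2 φ) hinj hk0 ?_
  rw [← map_poww75 T.toBaseTheory]
  have hnL : (n : L) ≠ 0 := by exact_mod_cast hn.ne'
  refine semisimple_of_eigen A Φ hAΦ hnL hAn fun ξ hP => ?_
  have hzero : (∀ t ∈ A.eigenspace ξ, t = 0) → Module.End.IsSemisimple (Φ.restrict hP) := by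
    intro h
    refine semisimple_of_zerow75 _ fun v => ?_
    exact Subtype.ext (h v.1 v.2)
  have hpow : ∀ t ∈ A.eigenspace ξ, (A ^ n) t = ξ ^ n • t := by
    intro t ht
    have h1 : A t = ξ • t := Module.End.mem_eigenspace_iff.1 ht
    have h2 : ∀ j : ℕ, (A ^ j) t = ξ ^ j • t := by
      intro j
      induction j with
      | zero => simp
      | succ j ih =>
        rw [pow_succ, Module.End.mul_apply, h1, map_smul, ih, smul_smul, pow_succ, mul_comm]
    exact h2 n
  by_cases hξn : ξ ^ n = 1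
  swap
  · apply hzero
    intro t ht
    have h1 := hpow t ht
    rw [hAn, Module.End.one_apply] at h1
    by_contra h0
    apply hξn
    have h2 : (ξ ^ n - 1) • t = 0 := by
      rw [sub_smul, ← h1, one_smul, sub_self]
    exact sub_eq_zero.1 ((smul_eq_zero.1 h2).resolve_right h0)
  by_cases hξ2 : ξ ^ 1 = 1 ∨ ξ ^ 1 = 1 ∨ ξ ^ (1 + 1) = 1
  · have hξ2' : ξ ^ 2 = 1 := by
      rcases hξ2 with h | h | h
      · rw [pow_one] at h
        rw [h, one_pow]
      · rw [pow_one] at h
        rw [h, one_pow]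
      · exact h
    have hσ' : (∀ k ∈ adjoin Ω {x, y}, σ k = k) ∧ σ w = algebraMap Ω K ζ * w := by
      refine ⟨fun k hk => ?_, hσ.2.2⟩
      have h1 : adjoin Ω {x, y} ≤ (AlgHom.equalizer σ (AlgHom.id Ω K)).toIntermediateField
          (fun a ha => by
            have h2 : σ a = a := ha
            show σ a⁻¹ = a⁻¹
            rw [map_inv₀, h2]) := by
        rw [adjoin_le_iff]
        rintro s (rfl | rfl)
        · exact hσ.1
        · exact hσ.2.1
      exact h1 hk
    by_cases hm : ∃ m : ℕ, n = 2 * m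
    · obtain ⟨m, hm⟩ := hm
      obtain ⟨ψ, hψ, hψ'⟩ := restrict_frob (e := e) (k := k) φ {x, y, w ^ m} (by
        rintro a (rfl | rfl | rfl)
        · exact hφx
        · exact hφy
        · show φk (w ^ m) = (w ^ m) ^ p ^ (e * k)
          rw [map_pow, hφw, ← pow_mul, ← pow_mul, mul_comm])
      have h2 := hD m hm _ ψ (Nat.mul_pos he hk0) hψ
      have : FiniteDimensional L
          (T.H 2 (adjoin Ω {x, y, w ^ m} : IntermediateField Ω K)) :=
        T.fin 2 _ (fg_sub (Set.toFinite _))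
      refine restrict_of_range Φ (T.map 2 ψ)
        (T.map 2 (adjoin Ω {x, y, w ^ m} : IntermediateField Ω K).val) (fun v => ?_) h2 _ hP
        (fun t ht => ?_)
      · have h6 : (adjoin Ω {x, y, w ^ m} : IntermediateField Ω K).val.comp ψ =
            φk.comp (adjoin Ω {x, y, w ^ m} : IntermediateField Ω K).val :=
          AlgHom.ext fun a => hψ' a
        have h7 := congrArg (fun g => T.map 2 g v) h6
        simp only [T.map_comp, LinearMap.comp_apply] at h7
        exact h7
      · rcases Helper15.QM.desc_two T.toBaseTheory hn hn' hζ x y w hK hw0 hw σ hσ' ξ hξn hξ2' t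
          (Module.End.mem_eigenspace_iff.1 ht) with h | ⟨m', hm', s, hs⟩
        · rw [h]
          exact zero_mem _
        · have hmm : m' = m := by omega
          subst hmm
          exact ⟨s, hs⟩
    · apply hzero
      intro t ht
      rcases Helper15.QM.desc_two T.toBaseTheory hn hn' hζ x y w hK hw0 hw σ hσ' ξ hξn hξ2' t
          (Module.End.mem_eigenspace_iff.1 ht) with h | ⟨m', hm', -⟩
      · exact h
      · exact absurd ⟨m', hm'⟩ hm
  rw [not_or, not_or] at hξ2
  have hξ0 : ξ ≠ 0 := by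
    rintro rfl
    rw [zero_pow hn.ne'] at hξn
    exact zero_ne_one hξn
  obtain ⟨C, N, iC, jC, iN, jN, v, u, a, b, hv, hu, hC, hbv, hN, hsig, hpsi, -⟩ :=
    Pool.Agent.Helper35.TD.exists_curve_ab (Ω := Ω) hn (show ((1 : ℕ).gcd 1).Coprime n by simp) K
  obtain ⟨σ', hσ'⟩ := hsig ζ hζ.pow_eq_one
  obtain ⟨ψ, hψ⟩ := hpsi p Fact.out inferInstance (e * k)
  have hfinC : (⊤ : IntermediateField Ω C).FG := by
    rw [← hC]
    exact fg_adjoin_of_finite (Set.toFinite _)
  have : FiniteDimensional L (T.H 1 C) := T.fin 1 C hfinC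
  obtain ⟨z0, hz0, hz0'⟩ := T.curve C n 1 1 ζ v u σ' hn' hζ hv hu hC hσ'.1 hσ'.2 ξ⁻¹
    (by rw [inv_pow, hξn, inv_one]) (by
      intro h
      rw [inv_pow, inv_eq_one] at h
      exact hξ2.1 h) (by
      intro h
      rw [inv_pow, inv_eq_one] at h
      exact hξ2.2.1 h) (by
      intro h
      rw [inv_pow, inv_eq_one] at h
      exact hξ2.2.2 h)
  have hcommC : σ'.comp ψ = ψ.comp σ' := by
    refine hom_ext {v, u} hC _ _ ?_
    rintro s (rfl | rfl)
    · rw [AlgHom.comp_apply, AlgHom.comp_apply, hψ.1, map_pow, hσ'.1, hψ.1]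
    · rw [AlgHom.comp_apply, AlgHom.comp_apply, hψ.2, map_pow, hσ'.2, map_mul, hψ.2,
        AlgHom.commutes, mul_pow, ← map_pow, hζp]
  have hcC : Commute (T.map 1 σ' : Module.End L (T.H 1 C)) (T.map 1 ψ) := by
    show (T.map 1 σ' : Module.End L (T.H 1 C)) * T.map 1 ψ = T.map 1 ψ * T.map 1 σ'
    have h1 := T.map_comp 1 ψ σ'
    have h2 := T.map_comp 1 σ' ψ
    rw [hcommC, h2] at h1
    exact h1.symm
  obtain ⟨z, l, hz, hσz, hψz⟩ := common_eigen (T.map 1 σ' : Module.End L (T.H 1 C)) (T.map 1 ψ) hcC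
    ξ⁻¹ z0 hz0 hz0'
  have hinjC : Function.Injective (T.map 1 ψ) := by
    refine T.inj 1 ψ fun a => alg_of_poww75 ψ.fieldRange {v, u} hC (p ^ (e * k)) hpe ?_ a
    rintro s (rfl | rfl)
    · exact ⟨s, hψ.1⟩
    · exact ⟨s, hψ.2⟩
  have hl : l ≠ 0 := by
    rintro rfl
    rw [zero_smul] at hψz
    exact hz (hinjC (by rw [hψz, map_zero]))
  have huni' : ∀ z : T.H 3 (adjoin Ω {a x, a y, b v, b u / a w} : IntermediateField Ω N), z = 0 := by
    apply T.uniruled
    refine huni N a (b v) (b u / a w) hbv ?_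
    have h2 : b u ^ n = b v ^ 1 * (1 - b v) ^ 1 := by
      rw [← map_pow, hu, map_mul, map_pow, map_pow, map_sub, map_one]
    have h3 : a w ≠ 0 := fun h => hw0 (a.injective (h.trans (map_zero a).symm))
    rw [div_pow, h2, div_mul_cancel₀ _ (pow_ne_zero _ h3)]
  have hPP : ∀ t ∈ (A.eigenspace ξ).map ((TensorProduct.mk L (T.H 2 K) (T.H 1 C)).flip z),
      TensorProduct.map Φ (T.map 1 ψ) t ∈
        (A.eigenspace ξ).map ((TensorProduct.mk L (T.H 2 K) (T.H 1 C)).flip z) := by
    rintro _ ⟨s, hs, rfl⟩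
    refine ⟨l • Φ s, Submodule.smul_mem _ _ (hP s hs), ?_⟩
    simp only [LinearMap.flip_apply, TensorProduct.mk_apply, TensorProduct.map_tmul]
    rw [hψz, TensorProduct.tmul_smul, TensorProduct.smul_tmul']
  refine semisimple_of_tensor Φ (T.map 1 ψ) z hz l hl hψz (A.eigenspace ξ) hP hPP ?_
  refine T.coniveau (Fact.out : p.Prime).ne_zero a b x y v (e * k) φk ψ hfin hfinC ?_ ?_ hbv ?_ ?_ _ ?_ hPP
  · intro s
    have : FiniteDimensional (adjoin Ω {x, y}) K :=
      Module.finite_of_finrank_pos (by rw [hdeg]; exact hn)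
    exact Algebra.IsAlgebraic.isAlgebraic s
  · intro s
    rw [← mem_AF]
    have h1 : adjoin Ω {v, u} ≤ AF Ω {v} := by
      rw [adjoin_le_iff]
      have hvm : v ∈ AF Ω {v} := subset_AF _ (by simp)
      rintro s (rfl | rfl)
      · exact hvm
      · apply AF_root hn
        rw [hu]
        exact mul_mem (pow_mem hvm _) (pow_mem (sub_mem (one_mem _) hvm) _)
    apply h1
    rw [hC]
    exact mem_top
  · unfold IsFrob
    rw [eq_top_iff, ← hK, adjoin_le_iff]
    rintro s (rfl | rfl | rfl)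
    · exact subset_adjoin _ _ hφx
    · exact subset_adjoin _ _ hφy
    · exact subset_adjoin _ _ hφw
  · unfold IsFrob
    rw [eq_top_iff, ← hC, adjoin_le_iff]
    rintro s (rfl | rfl)
    · exact subset_adjoin _ _ hψ.1
    · exact subset_adjoin _ _ hψ.2
  · rintro _ ⟨s, hs, rfl⟩
    simp only [LinearMap.flip_apply, TensorProduct.mk_apply, TensorProduct.lift.tmul,
      LinearMap.compl₁₂_apply]
    exact cross_zero T.toBaseTheory hn hn' hζ a b x y w v u hK hC hN hw0 hw σ hσ σ' hσ' huni' ξ hξ0 s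
      (Module.End.mem_eigenspace_iff.1 hs) z hσz


end Pool.Agent.Helper75.WC
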