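import Pool.Agent.Helper75.WC.CurveM

/-! Project WC. The exponent eight. -/

set_option autoImplicit false

namespace Pool.Agent.Helper75.WC

open IntermediateField MvPolynomial

variable {Ω R M : Type} [Field Ω] [IsAlgClosed Ω] [Field R] [Field M] [Algebra Ω R] [Algebra Ω M]
    [Algebra R M] [IsScalarTower Ω R M]

/-- the exponents have no common divisor with the degree -/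
theorem Rep.no_common {n : ℕ} {D : ℕ → ℕ} (H : Rep Ω R M n D) (hn : 0 < n)
    (hfin : Module.finrank R M = n) {g : ℕ} (hg : 1 < g) (hgn : g ∣ n)
    (h0 : ∀ e < n, D e = 0 ∨ g ∣ e) : False := by
  classical
  have hg0 : 0 < g := by omega
  obtain ⟨m, hm⟩ := hgn
  have hm0 : 0 < m := Nat.pos_of_ne_zero fun h => by
    rw [h, mul_zero] at hm
    omega
  -- `u = q ^ g`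
  have h1 : ∀ e, ∃ q : R, e ∈ Finset.range n → aeval ![H.x, H.y] (H.P e) ^ e = q ^ g := by
    intro e
    by_cases he : e ∈ Finset.range n
    · rcases h0 e (Finset.mem_range.1 he) with h | ⟨l, hl⟩
      · obtain ⟨c, hc⟩ := aeval_const H.x H.y (P := H.P e) ((H.deg e).trans h.le)
        obtain ⟨γ, hγ⟩ := IsAlgClosed.exists_pow_nat_eq (c ^ e) hg0
        exact ⟨algebraMap Ω R γ, fun _ => by rw [hc, ← map_pow, ← map_pow, hγ]⟩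
      · exact ⟨aeval ![H.x, H.y] (H.P e) ^ l, fun _ => by
          rw [← pow_mul, mul_comm l g, ← hl]⟩
    · exact ⟨0, fun h => absurd h he⟩
  choose q0 hq0 using h1
  obtain ⟨q, hq⟩ : ∃ q : R, q = ∏ e ∈ Finset.range n, q0 e := ⟨_, rfl⟩
  have hu : ∏ e ∈ Finset.range n, aeval ![H.x, H.y] (H.P e) ^ e = q ^ g := by
    rw [hq, ← Finset.prod_pow]
    exact Finset.prod_congr rfl fun e he => hq0 e he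
  have hq0 : q ≠ 0 := by
    intro h
    rw [h, zero_pow hg0.ne'] at hu
    exact Finset.prod_ne_zero_iff.2 (fun e _ => pow_ne_zero e (H.ne e)) hu
  have hqM : algebraMap R M q ≠ 0 := by simpa using hq0
  -- `w ^ m / q` is a root of unity
  have h3 : (H.w ^ m / algebraMap R M q) ^ g = 1 := by
    rw [div_pow, ← pow_mul, mul_comm m g, ← hm, H.eq, hu, map_pow, div_self (pow_ne_zero _ hqM)]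
  have h4 : ∃ ζ : Ω, H.w ^ m / algebraMap R M q = algebraMap Ω M ζ := by
    have h5 : IsIntegral Ω (H.w ^ m / algebraMap R M q) := by
      refine ⟨Polynomial.X ^ g - Polynomial.C 1, Polynomial.monic_X_pow_sub_C _ hg0.ne', ?_⟩
      simp [h3]
    have h6 : Algebra.IsIntegral Ω Ω⟮H.w ^ m / algebraMap R M q⟯ := by
      have := IntermediateField.isAlgebraic_adjoin_simple h5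
      exact Algebra.IsAlgebraic.isIntegral
    obtain ⟨ζ, hζ⟩ := (IsAlgClosed.algebraMap_bijective_of_isIntegral
      (k := Ω) (K := Ω⟮H.w ^ m / algebraMap R M q⟯)).2
        ⟨_, IntermediateField.mem_adjoin_simple_self Ω _⟩
    exact ⟨ζ, (congrArg Subtype.val hζ).symm⟩
  obtain ⟨ζ, hζ⟩ := h4
  have h7 : H.w ^ m = algebraMap R M (q * algebraMap Ω R ζ) := by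
    rw [map_mul, ← IsScalarTower.algebraMap_apply, ← hζ, mul_div_cancel₀ _ hqM]
  have h8 : Polynomial.aeval H.w (Polynomial.X ^ m - Polynomial.C (q * algebraMap Ω R ζ)) = 0 := by
    rw [map_sub, map_pow, Polynomial.aeval_X, Polynomial.aeval_C, h7, sub_self]
  have h9 : IsIntegral R H.w :=
    ⟨_, Polynomial.monic_X_pow_sub_C _ hm0.ne', by rwa [← Polynomial.aeval_def]⟩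
  have h10 : n ≤ m := by
    have h11 := IntermediateField.adjoin.finrank h9
    rw [H.top, IntermediateField.finrank_top', hfin] at h11
    rw [h11, ← Polynomial.natDegree_X_pow_sub_C (n := m) (r := q * algebraMap Ω R ζ)]
    exact Polynomial.natDegree_le_of_dvd (minpoly.dvd R H.w h8)
      (Polynomial.monic_X_pow_sub_C _ hm0.ne').ne_zero
  have h14 : 2 * m ≤ g * m := Nat.mul_le_mul_right _ hg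
  omega

/-- the certificates with the equations of the list -/
def certs8 : List Cert := [
  ⟨[0, 0, 0, 0, 0, 0, 0, 0], 0, 0, 1, [1, 0, 0, 8], [], [], []⟩,
  ⟨[0, 1, 0, 0, 0, 0, 0, 1], 0, 0, 1, [1, 0, 0, 8], [0, 0, 0, 0, 0, 0, 0, 1], [0, 1, 0, 0, 0, 0, 0, 1], []⟩,
  ⟨[0, 0, 1, 0, 0, 0, 1, 0], 0, 0, 1, [1, 0, 0, 8], [0, 0, 0, 0, 0, 0, 1], [0, 0, 2], []⟩,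
  ⟨[0, 0, 0, 1, 0, 1, 0, 0], 0, 0, 1, [1, 0, 0, 8], [0, 0, 0, 0, 0, 2], [0, 0, 0, 3, 0, 1], []⟩,
  ⟨[0, 0, 0, 0, 2, 0, 0, 0], 0, 1, 1, [1, 0, 1, 5], [0, 0, 0, 0, 1], [0, 0, 0, 0, 1], []⟩,
  ⟨[0, 2, 0, 0, 0, 0, 1, 0], 0, 0, 1, [1, 0, 0, 8], [0, 0, 0, 0, 0, 0, 1], [0, 1], []⟩,
  ⟨[0, 1, 1, 0, 0, 1, 0, 0], 0, 0, 1, [1, 0, 0, 8], [0, 0, 0, 0, 0, 2], [0, 1, 2, 0, 0, 1], []⟩,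
  ⟨[0, 1, 0, 1, 1, 0, 0, 0], 0, 0, 1, [1, 0, 0, 8], [0, 0, 0, 0, 2], [0, 1, 0, 3], []⟩,
  ⟨[0, 0, 2, 0, 1, 0, 0, 0], 0, 0, 1, [1, 0, 0, 8], [0, 0, 0, 0, 2], [0, 0, 2], []⟩,
  ⟨[0, 0, 1, 2, 0, 0, 0, 0], 0, 0, 3, [1, 0, 0, 8], [0, 0, 1], [0, 0, 0, 1], []⟩,
  ⟨[0, 0, 1, 0, 0, 0, 0, 2], 0, 0, 1, [1, 0, 0, 8], [0, 0, 0, 0, 0, 0, 0, 1], [0, 0, 2, 0, 0, 0, 0, 1], []⟩,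
  ⟨[0, 0, 0, 1, 0, 0, 1, 1], 0, 0, 1, [1, 0, 0, 8], [0, 0, 0, 0, 0, 0, 1, 1], [0, 0, 0, 3, 0, 0, 0, 1], []⟩,
  ⟨[0, 0, 0, 0, 1, 1, 0, 1], 0, 0, 5, [1, 0, 0, 8], [0, 0, 0, 0, 2], [0, 0, 0, 0, 0, 1, 0, 3], []⟩,
  ⟨[0, 0, 0, 0, 1, 0, 2, 0], 0, 0, 1, [1, 0, 0, 8], [0, 0, 0, 0, 0, 0, 1], [0, 0, 0, 0, 4], []⟩,
  ⟨[0, 0, 0, 0, 0, 2, 1, 0], 0, 0, 3, [1, 0, 0, 8], [0, 0, 0, 0, 0, 1], [0, 0, 0, 0, 0, 1, 2], []⟩,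
  ⟨[0, 3, 0, 0, 0, 1, 0, 0], 0, 0, 1, [1, 0, 0, 8], [0, 0, 0, 0, 0, 2], [0, 1, 0, 0, 0, 1], []⟩,
  ⟨[0, 2, 1, 0, 1, 0, 0, 0], 0, 0, 1, [1, 0, 0, 8], [0, 0, 0, 0, 2], [0, 1, 2], []⟩,
  ⟨[0, 2, 0, 2, 0, 0, 0, 0], 0, 1, 1, [1, 0, 1, 5], [0, 0, 0, 1], [0, 1], []⟩,
  ⟨[0, 2, 0, 0, 0, 0, 0, 2], 0, 0, 1, [1, 0, 0, 8], [0, 0, 0, 0, 0, 0, 0, 1], [0, 1, 0, 0, 0, 0, 0, 1], []⟩,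
  ⟨[0, 1, 2, 1, 0, 0, 0, 0], 0, 0, 3, [1, 0, 0, 8], [0, 0, 1], [0, 3, 0, 1], []⟩,
  ⟨[0, 1, 1, 0, 0, 0, 1, 1], 0, 0, 1, [1, 0, 0, 8], [0, 0, 0, 0, 0, 0, 1, 1], [0, 1, 2, 0, 0, 0, 0, 1], []⟩,
  ⟨[0, 1, 0, 1, 0, 1, 0, 1], 0, 1, 1, [1, 0, 1, 5], [0, 0, 0, 1, 0, 1, 0, 2], [0, 1, 0, 0, 0, 2, 0, 1], []⟩,
  ⟨[0, 1, 0, 1, 0, 0, 2, 0], 0, 0, 1, [1, 0, 0, 8], [0, 0, 0, 0, 0, 0, 1], [0, 1, 0, 3], []⟩,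
  ⟨[0, 1, 0, 0, 2, 0, 0, 1], 0, 1, 1, [1, 0, 1, 5], [0, 0, 0, 0, 1, 0, 0, 2], [0, 1, 0, 0, 1, 0, 0, 1], []⟩,
  ⟨[0, 1, 0, 0, 1, 1, 1, 0], 0, 1, 1, [1, 0, 1, 5], [0, 0, 0, 0, 1, 1, 2], [0, 1, 0, 0, 1, 2], []⟩,
  ⟨[0, 1, 0, 0, 0, 3, 0, 0], 0, 0, 5, [1, 0, 0, 8], [0, 2], [0, 1, 0, 0, 0, 1], []⟩,
  ⟨[0, 0, 2, 0, 0, 1, 0, 1], 0, 0, 7, [1, 0, 0, 8], [0, 0, 1], [0, 0, 0, 0, 0, 3, 0, 1], []⟩,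
  ⟨[0, 0, 2, 0, 0, 0, 2, 0], 0, 0, 1, [1, 0, 0, 8], [0, 0, 0, 0, 0, 0, 1], [0, 0, 2], []⟩,
  ⟨[0, 0, 1, 1, 1, 0, 0, 1], 0, 1, 1, [1, 0, 1, 5], [0, 0, 0, 1, 1, 0, 0, 2], [0, 0, 2, 0, 1, 0, 0, 1], []⟩,
  ⟨[0, 0, 1, 1, 0, 1, 1, 0], 0, 0, 3, [1, 0, 0, 8], [0, 0, 1, 0, 0, 1], [0, 0, 0, 1, 0, 1, 2], []⟩,
  ⟨[0, 0, 1, 0, 2, 0, 1, 0], 0, 1, 1, [1, 0, 1, 5], [0, 0, 0, 0, 1, 0, 2], [0, 0, 2, 0, 1], []⟩,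
  ⟨[0, 0, 1, 0, 1, 2, 0, 0], 0, 0, 5, [1, 0, 0, 8], [0, 0, 0, 0, 2], [0, 0, 2, 0, 0, 1], []⟩,
  ⟨[0, 0, 0, 3, 0, 0, 0, 1], 0, 0, 3, [1, 0, 0, 8], [0, 0, 0, 0, 0, 0, 0, 2], [0, 0, 0, 1, 0, 0, 0, 1], []⟩,
  ⟨[0, 0, 0, 2, 1, 0, 1, 0], 0, 0, 3, [1, 0, 0, 8], [0, 0, 0, 0, 2], [0, 0, 0, 1, 0, 0, 2], []⟩,
  ⟨[0, 0, 0, 2, 0, 2, 0, 0], 0, 0, 3, [1, 0, 0, 8], [0, 0, 0, 0, 0, 1], [0, 0, 0, 1, 0, 1], []⟩,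
  ⟨[0, 0, 0, 1, 2, 1, 0, 0], 0, 1, 1, [1, 0, 1, 5], [0, 0, 0, 1, 1, 1], [0, 0, 0, 0, 1, 2], []⟩,
  ⟨[0, 0, 0, 1, 0, 0, 0, 3], 0, 0, 7, [1, 0, 0, 8], [0, 0, 0, 2], [0, 0, 0, 1, 0, 0, 0, 1], []⟩,
  ⟨[0, 0, 0, 0, 4, 0, 0, 0], 0, 1, 1, [1, 0, 1, 5], [0, 0, 0, 0, 1], [0, 0, 0, 0, 1], []⟩,
  ⟨[0, 0, 0, 0, 1, 0, 1, 2], 0, 0, 7, [1, 0, 0, 8], [0, 0, 0, 0, 2], [0, 0, 0, 0, 0, 0, 2, 1], []⟩,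
  ⟨[0, 0, 0, 0, 0, 2, 0, 2], 0, 1, 5, [1, 0, 1, 5], [0, 0, 0, 0, 0, 0, 0, 1], [0, 0, 0, 0, 0, 1], []⟩,
  ⟨[0, 0, 0, 0, 0, 1, 2, 1], 0, 0, 5, [1, 0, 0, 8], [0, 0, 0, 0, 0, 0, 1], [0, 0, 0, 0, 0, 1, 0, 3], []⟩,
  ⟨[0, 4, 0, 0, 1, 0, 0, 0], 0, 0, 1, [1, 0, 0, 8], [0, 0, 0, 0, 2], [0, 1], []⟩,
  ⟨[0, 3, 1, 1, 0, 0, 0, 0], 0, 1, 1, [1, 1, 5, 1], [0, 0, 0, 1], [0, 1, 2], []⟩,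
  ⟨[0, 3, 0, 0, 0, 0, 1, 1], 0, 0, 1, [1, 0, 0, 8], [0, 0, 0, 0, 0, 0, 1, 1], [0, 1, 0, 0, 0, 0, 0, 1], []⟩,
  ⟨[0, 2, 3, 0, 0, 0, 0, 0], 0, 2, 1, [2, 1, 0], [0, 0, 1], [0, 1], []⟩,
  ⟨[0, 2, 1, 0, 0, 1, 0, 1], 0, 2, 1, [5, 2, 1], [0, 0, 0, 0, 0, 1, 0, 1], [0, 0, 1, 0, 0, 0, 0, 1], [0, 1]⟩,
  ⟨[0, 2, 1, 0, 0, 0, 2, 0], 0, 0, 1, [1, 0, 0, 8], [0, 0, 0, 0, 0, 0, 1], [0, 1, 2], []⟩,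
  ⟨[0, 2, 0, 1, 1, 0, 0, 1], 0, 1, 1, [1, 0, 1, 5], [0, 0, 0, 1, 1, 0, 0, 2], [0, 1, 0, 0, 1, 0, 0, 1], []⟩,
  ⟨[0, 2, 0, 1, 0, 1, 1, 0], 0, 1, 1, [1, 0, 1, 5], [0, 0, 0, 1, 0, 1, 2], [0, 1, 0, 0, 0, 2], []⟩,
  ⟨[0, 2, 0, 0, 2, 0, 1, 0], 0, 1, 1, [1, 0, 1, 5], [0, 0, 0, 0, 1, 0, 2], [0, 1, 0, 0, 1], []⟩,
  ⟨[0, 2, 0, 0, 1, 2, 0, 0], 0, 2, 1, [5, 2, 1], [0, 0, 0, 0, 0, 1], [0, 0, 0, 0, 2], [0, 1]⟩,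
  ⟨[0, 1, 2, 0, 0, 1, 1, 0], 0, 2, 1, [5, 2, 1], [0, 0, 0, 0, 0, 1, 1], [0, 0, 1], [0, 1, 0, 0, 0, 0, 1]⟩,
  ⟨[0, 1, 1, 2, 0, 0, 0, 1], 0, 1, 1, [1, 0, 1, 5], [0, 0, 0, 1, 0, 0, 0, 2], [0, 1, 2, 0, 0, 0, 0, 1], []⟩,
  ⟨[0, 1, 1, 1, 1, 0, 1, 0], 0, 1, 1, [1, 0, 1, 5], [0, 0, 0, 1, 1, 0, 2], [0, 1, 2, 0, 1], []⟩,
  ⟨[0, 1, 1, 1, 0, 2, 0, 0], 0, 2, 1, [5, 2, 1], [0, 0, 0, 0, 0, 1], [0, 0, 1, 1], [0, 1, 0, 1]⟩,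
  ⟨[0, 1, 1, 0, 0, 0, 0, 3], 0, 0, 7, [1, 0, 0, 8], [0, 1, 1], [0, 1, 0, 0, 0, 0, 0, 1], []⟩,
  ⟨[0, 1, 0, 3, 0, 0, 1, 0], 0, 1, 1, [1, 0, 1, 5], [0, 0, 0, 1, 0, 0, 1], [0, 1, 0, 0, 0, 0, 3], []⟩,
  ⟨[0, 1, 0, 2, 1, 1, 0, 0], 0, 1, 1, [1, 0, 1, 5], [0, 0, 0, 1, 1, 1], [0, 1, 0, 0, 1, 2], []⟩,
  ⟨[0, 1, 0, 1, 3, 0, 0, 0], 0, 1, 1, [1, 0, 1, 5], [0, 0, 0, 1, 1], [0, 1, 0, 0, 1], []⟩,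
  ⟨[0, 1, 0, 1, 0, 0, 1, 2], 0, 2, 1, [7, 6, 3], [0, 0, 0, 0, 0, 0, 0, 1], [0, 1, 0, 0, 0, 0, 1], [0, 1, 0, 1]⟩,
  ⟨[0, 1, 0, 0, 1, 1, 0, 2], 0, 1, 5, [1, 0, 1, 5], [0, 1, 0, 0, 1, 0, 0, 1], [0, 2, 0, 0, 1, 1], []⟩,
  ⟨[0, 1, 0, 0, 0, 2, 1, 1], 0, 1, 5, [1, 0, 1, 5], [0, 1, 0, 0, 0, 0, 2, 1], [0, 2, 0, 0, 0, 1], []⟩,
  ⟨[0, 0, 3, 0, 0, 2, 0, 0], 0, 2, 1, [2, 5, 0], [0, 0, 1], [0, 0, 0, 0, 0, 1], []⟩,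
  ⟨[0, 0, 2, 2, 0, 0, 1, 0], 0, 0, 3, [1, 0, 0, 8], [0, 0, 1], [0, 0, 0, 1, 0, 0, 2], []⟩,
  ⟨[0, 0, 2, 0, 3, 0, 0, 0], 0, 2, 1, [4, 2, 0], [0, 0, 0, 0, 1], [0, 0, 1], []⟩,
  ⟨[0, 0, 2, 0, 0, 0, 1, 2], 0, 0, 7, [1, 0, 0, 8], [0, 0, 1], [0, 0, 0, 0, 0, 0, 2, 1], []⟩,
  ⟨[0, 0, 1, 3, 0, 1, 0, 0], 0, 0, 3, [1, 0, 0, 8], [0, 0, 1, 0, 0, 1], [0, 0, 0, 1, 0, 1], []⟩,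
  ⟨[0, 0, 1, 2, 2, 0, 0, 0], 0, 1, 1, [1, 0, 1, 5], [0, 0, 0, 1, 1], [0, 0, 2, 0, 1], []⟩,
  ⟨[0, 0, 1, 1, 0, 1, 0, 2], 0, 1, 5, [1, 0, 1, 5], [0, 0, 0, 2, 0, 0, 0, 1], [0, 0, 2, 1, 0, 1], []⟩,
  ⟨[0, 0, 1, 1, 0, 0, 2, 1], 0, 2, 1, [6, 7, 3], [0, 0, 0, 0, 0, 0, 1], [0, 0, 1, 0, 0, 0, 0, 1], [0, 0, 1, 1]⟩,
  ⟨[0, 0, 1, 0, 2, 0, 0, 2], 0, 1, 5, [1, 0, 1, 5], [0, 0, 0, 0, 1, 0, 0, 1], [0, 0, 2, 0, 1], []⟩,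
  ⟨[0, 0, 1, 0, 1, 1, 1, 1], 0, 1, 5, [1, 0, 1, 5], [0, 0, 0, 0, 1, 0, 2, 1], [0, 0, 2, 0, 1, 1], []⟩,
  ⟨[0, 0, 1, 0, 0, 3, 0, 1], 0, 1, 5, [1, 1, 5, 1], [0, 0, 0, 0, 0, 0, 0, 1], [0, 0, 2, 0, 0, 1], []⟩,
  ⟨[0, 0, 1, 0, 0, 2, 2, 0], 0, 0, 5, [1, 0, 0, 8], [0, 0, 0, 0, 0, 0, 1], [0, 0, 2, 0, 0, 1], []⟩,
  ⟨[0, 0, 0, 4, 1, 0, 0, 0], 0, 0, 3, [1, 0, 0, 8], [0, 0, 0, 0, 2], [0, 0, 0, 1], []⟩,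
  ⟨[0, 0, 0, 2, 1, 0, 0, 2], 0, 2, 1, [7, 6, 3], [0, 0, 0, 0, 0, 0, 0, 1], [0, 0, 0, 0, 2], [0, 0, 0, 1]⟩,
  ⟨[0, 0, 0, 2, 0, 1, 1, 1], 0, 2, 1, [7, 6, 3], [0, 0, 0, 0, 0, 1, 0, 1], [0, 0, 0, 0, 0, 1, 1], [0, 0, 0, 1]⟩,
  ⟨[0, 0, 0, 2, 0, 0, 3, 0], 0, 2, 1, [6, 3, 0], [0, 0, 0, 0, 0, 0, 1], [0, 0, 0, 1], []⟩,
  ⟨[0, 0, 0, 1, 1, 2, 0, 1], 0, 1, 5, [1, 0, 1, 5], [0, 0, 0, 2, 1, 0, 0, 1], [0, 0, 0, 1, 1, 1], []⟩,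
  ⟨[0, 0, 0, 1, 0, 3, 1, 0], 0, 0, 5, [1, 0, 0, 8], [0, 0, 0, 1, 0, 0, 1], [0, 0, 0, 1, 0, 1], []⟩,
  ⟨[0, 0, 0, 0, 3, 1, 0, 1], 0, 1, 5, [1, 0, 1, 5], [0, 0, 0, 0, 1, 0, 0, 1], [0, 0, 0, 0, 1, 1], []⟩,
  ⟨[0, 0, 0, 0, 3, 0, 2, 0], 0, 2, 1, [4, 6, 0], [0, 0, 0, 0, 1], [0, 0, 0, 0, 0, 0, 1], []⟩,
  ⟨[0, 0, 0, 0, 2, 2, 1, 0], 0, 1, 5, [1, 0, 1, 5], [0, 0, 0, 0, 1, 0, 2], [0, 0, 0, 0, 1, 1], []⟩,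
  ⟨[0, 0, 0, 0, 1, 4, 0, 0], 0, 0, 5, [1, 0, 0, 8], [0, 0, 0, 0, 2], [0, 0, 0, 0, 0, 1], []⟩,
  ⟨[0, 0, 0, 0, 1, 0, 0, 4], 0, 0, 7, [1, 0, 0, 8], [0, 0, 0, 0, 2], [0, 0, 0, 0, 0, 0, 0, 1], []⟩,
  ⟨[0, 0, 0, 0, 0, 1, 1, 3], 0, 1, 5, [1, 0, 1, 5], [0, 0, 0, 0, 0, 0, 1, 1], [0, 0, 0, 0, 0, 1, 3], []⟩,
  ⟨[0, 0, 0, 0, 0, 0, 3, 2], 0, 2, 1, [6, 7, 0], [0, 0, 0, 0, 0, 0, 1], [0, 0, 0, 0, 0, 0, 0, 1], []⟩]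

/-- A certificate for the three types for which the square root of the equation of a line is
adjoined to `R`: the line `e0` is moved to infinity, the line `e1` is the line `x = 0`, the other
components are `k1` and `k2`. -/
structure Cert8 where
  L : List ℕ
  e0 : ℕ
  kind : ℕ
  t : ℕ
  e1 : ℕ
  k1 : ℕ
  k2 : ℕ

def Cert8.D (c : Cert8) : List ℕ := c.L.set c.e0 0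

def Cert8.ok (c : Cert8) : Prop :=
  c.t.Coprime 8 ∧ c.e0 < 8 ∧ ent c.L c.e0 = 1 ∧
    c.e1 < 8 ∧ c.k1 < 8 ∧ c.k2 < 8 ∧ c.e1 ≠ c.k1 ∧ c.e1 ≠ c.k2 ∧
    (∀ e < 8, e = c.e1 ∨ e = c.k1 ∨ e = c.k2 ∨ ent c.D e = 0) ∧ ent c.D c.e1 ≤ 1 ∧
    (c.kind = 0 ∧ (c.t * c.e1) % 8 = 5 ∧ (c.t * c.k1) % 8 = 6 ∧ ent c.D c.k1 ≤ 3 ∧ c.k2 = c.k1 ∨
      c.kind = 1 ∧ (c.t * c.e1) % 8 = 5 ∧ (c.t * c.k1) % 8 = 2 ∧ (c.t * c.k2) % 8 = 4 ∧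
        ent c.D c.k1 ≤ 1 ∧ ent c.D c.k2 ≤ 2 ∨
      c.kind = 2 ∧ (c.t * c.e1) % 8 = 7 ∧ (c.t * c.k1) % 8 = 4 ∧ (c.t * c.k2) % 8 = 2 ∧
        ent c.D c.k1 ≤ 1 ∧ ent c.D c.k2 ≤ 2)

instance (c : Cert8) : Decidable c.ok := by unfold Cert8.ok; infer_instance

def certs8' : List Cert8 := [
  ⟨[0, 1, 2, 0, 1, 0, 0, 1], 1, 2, 1, 7, 4, 2⟩,
  ⟨[0, 1, 1, 0, 2, 1, 0, 0], 1, 1, 1, 5, 2, 4⟩,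
  ⟨[0, 1, 0, 0, 1, 0, 2, 1], 7, 2, 7, 1, 4, 6⟩,
  ⟨[0, 1, 0, 0, 0, 1, 3, 0], 1, 0, 1, 5, 6, 6⟩,
  ⟨[0, 0, 3, 1, 0, 0, 0, 1], 3, 0, 3, 7, 2, 2⟩,
  ⟨[0, 0, 2, 1, 1, 1, 0, 0], 5, 2, 5, 3, 4, 2⟩,
  ⟨[0, 0, 0, 1, 2, 0, 1, 1], 3, 1, 3, 7, 6, 4⟩,
  ⟨[0, 0, 0, 1, 1, 1, 2, 0], 3, 2, 3, 5, 4, 6⟩]

/-- all types for `n = 8` -/
theorem covers8 : (∀ c ∈ certs8, c.ok 8) ∧ (∀ c ∈ certs8', c.ok) ∧ ∀ L ∈ vecs 7 5,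
    (∑ e ∈ Finset.range 8, e * ent (0 :: L) e) % 8 = 0 →
      (∀ e < 8, ent (0 :: L) e = 0 ∨ 2 ∣ e) ∨ (∃ c ∈ certs8, c.L = 0 :: L) ∨
        ∃ c ∈ certs8', c.L = 0 :: L := by
  decide +kernel

end Pool.Agent.Helper75.WC
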