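import Pool.Agent.Helper75.WC.CurveAxis

/-! Project WC. Certificates for the types of the curves of degree at most five. -/

set_option autoImplicit false

namespace Pool.Agent.Helper75.WC

open IntermediateField MvPolynomial

/-- the entry of a list -/
def ent (L : List ℕ) (e : ℕ) : ℕ := L.getD e 0

/-- A certificate: `L` is the type (`ent L e` is the degree of the components with the exponent
`e`), `e0` is a line which is moved to infinity (or zero), `kind` is the equation. -/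
structure Cert where
  L : List ℕ
  e0 : ℕ
  kind : ℕ
  t : ℕ
  q : List ℕ
  u : List ℕ
  v : List ℕ
  k : List ℕ

/-- the degrees after the line `e0` is moved to infinity -/
def Cert.D (c : Cert) : List ℕ := c.L.set c.e0 0

def Cert.okA (n : ℕ) (c : Cert) : Prop :=
  (∀ e < n, ent c.D e = 0 ∨ (c.t * e + 2 * ent c.u e) % n = ent c.v e % n) ∧
    0 < 2 * ent c.q 0 + ent c.q 1 ∧ (2 < n ∨ ent c.q 1 = 0) ∧
    (2 * ent c.q 2 = ent c.q 3 + n ∨ ent c.q 3 = 2 * ent c.q 2 + n) ∧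
    ent c.q 0 * (∑ e ∈ Finset.range n, ent c.u e * ent c.D e) + ent c.q 1 * ent c.q 2 ≤
      2 * ent c.q 0 + ent c.q 1 ∧
    ent c.q 0 * (∑ e ∈ Finset.range n, ent c.v e * ent c.D e) + ent c.q 1 * ent c.q 3 ≤
      2 * (2 * ent c.q 0 + ent c.q 1)

def Cert.okB (n : ℕ) (c : Cert) : Prop :=
  (∀ e < n, ent c.D e = 0 ∨ (c.t * e) % n = (ent c.v e + (n / 2 - 1) * ent c.u e) % n) ∧
    0 < 2 * ent c.q 0 + ent c.q 1 ∧ (2 < n ∨ ent c.q 1 = 0) ∧ ent c.q 2 % 2 = 1 ∧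
    n = 2 * (n / 2) ∧ (ent c.q 3 = ent c.q 2 + n / 2 ∨ ent c.q 2 = ent c.q 3 + n / 2) ∧
    ent c.q 0 * (∑ e ∈ Finset.range n, ent c.u e * ent c.D e) + ent c.q 1 * ent c.q 2 ≤
      2 * (2 * ent c.q 0 + ent c.q 1) ∧
    ent c.q 0 * (∑ e ∈ Finset.range n, ent c.v e * ent c.D e) + ent c.q 1 * ent c.q 3 ≤
      2 * (2 * ent c.q 0 + ent c.q 1)

def Cert.okT (n : ℕ) (c : Cert) : Prop :=
  (∀ e < n, ent c.D e = 0 ∨ (c.t * e) % n =
      (ent c.q 0 * ent c.u e + ent c.q 1 * ent c.v e + ent c.q 2 * ent c.k e) % n) ∧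
    ((∑ e ∈ Finset.range n, ent c.u e * ent c.D e ≤ 3 ∧
        ∑ e ∈ Finset.range n, ent c.v e * ent c.D e ≤ 2 ∧ c.k = [] ∧
        n ∣ 3 * ent c.q 0 + 2 * ent c.q 1) ∨
      (∑ e ∈ Finset.range n, ent c.u e * ent c.D e ≤ 2 ∧
        ∑ e ∈ Finset.range n, ent c.v e * ent c.D e ≤ 2 ∧
        ∑ e ∈ Finset.range n, ent c.k e * ent c.D e ≤ 2 ∧
        n ∣ ent c.q 0 + ent c.q 1 + ent c.q 2))

def Cert.okP (n : ℕ) (c : Cert) : Prop :=
  (∀ e < n, ent c.D e = 0 ∨ (c.t * e + 2 * ent c.u e) % n = ent c.v e % n) ∧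
    ent c.D (ent c.q 0) ≤ 1 ∧
    ∑ e ∈ Finset.range n, ent c.u e * ent (c.D.set (ent c.q 0) 0) e ≤ 1 ∧
    ∑ e ∈ Finset.range n, ent c.v e * ent (c.D.set (ent c.q 0) 0) e ≤ 2

instance (n : ℕ) (c : Cert) : Decidable (c.okA n) := by unfold Cert.okA; infer_instance
instance (n : ℕ) (c : Cert) : Decidable (c.okB n) := by unfold Cert.okB; infer_instance
instance (n : ℕ) (c : Cert) : Decidable (c.okT n) := by unfold Cert.okT; infer_instance
instance (n : ℕ) (c : Cert) : Decidable (c.okP n) := by unfold Cert.okP; infer_instance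

def Cert.ok (n : ℕ) (c : Cert) : Prop :=
  c.t.Coprime n ∧ c.e0 < n ∧ (c.e0 = 0 ∨ ent c.L c.e0 = 1) ∧ ent c.L 0 = 0 ∧
    (c.kind = 0 ∧ c.okA n ∨ c.kind = 1 ∧ c.okB n ∨ c.kind = 2 ∧ c.okT n ∨ c.kind = 3 ∧ c.okP n)

instance (n : ℕ) (c : Cert) : Decidable (c.ok n) := by unfold Cert.ok; infer_instance

/-- all lists of length `k` with sum at most `s` -/
def vecs : ℕ → ℕ → List (List ℕ)
  | 0, _ => [[]]
  | k + 1, s => (List.range (s + 1)).flatMap fun d => (vecs k (s - d)).map (List.cons d)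

theorem mem_vecs : ∀ (k s : ℕ) (L : List ℕ), L.length = k → L.sum ≤ s → L ∈ vecs k s
  | 0, s, L, h, _ => by
    rw [List.length_eq_zero_iff] at h
    rw [h]
    simp [vecs]
  | k + 1, s, L, h, hs => by
    obtain ⟨d, L', rfl⟩ := List.exists_cons_of_length_eq_add_one h
    rw [List.sum_cons] at hs
    rw [List.length_cons] at h
    simp only [vecs, List.mem_flatMap, List.mem_map, List.mem_range]
    exact ⟨d, by omega, L', mem_vecs k (s - d) L' (by omega) (by omega), rfl⟩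

/-- the certificates cover all types -/
def Covers (n : ℕ) (cs : List Cert) : Prop :=
  (∀ c ∈ cs, c.ok n) ∧ ∀ L ∈ vecs (n - 1) 5,
    (∑ e ∈ Finset.range n, e * ent (0 :: L) e) % n = 0 → ∃ c ∈ cs, c.L = 0 :: L

instance (n : ℕ) (cs : List Cert) : Decidable (Covers n cs) := by unfold Covers; infer_instance

theorem ent_set (L : List ℕ) (e : ℕ) : ent (L.set e 0) = Function.update (ent L) e 0 := by
  funext i
  unfold ent
  rw [List.getD_eq_getElem?_getD, List.getElem?_set]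
  by_cases h : e = i
  · subst h
    rw [Function.update_self]
    by_cases h2 : e < L.length
    · simp [h2]
    · simp [h2]
  · rw [Function.update_of_ne (Ne.symm h)]
    simp [h]

variable {Ω R M : Type} [Field Ω] [IsAlgClosed Ω] [Field R] [Field M] [Algebra Ω R] [Algebra Ω M]
    [Algebra R M] [IsScalarTower Ω R M]

theorem Cert.sound {n : ℕ} (hn : 0 < n) {c : Cert} (h : c.ok n) (H : Rep Ω R M n (ent c.L))
    (hsum : n ∣ ∑ e ∈ Finset.range n, e * ent c.L e) : Lst Ω R M n := by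
  obtain ⟨ht, he, h0, hL0, hk⟩ := h
  obtain ⟨H'⟩ : Nonempty (Rep Ω R M n (ent c.D)) := by
    unfold Cert.D
    rw [ent_set]
    rcases h0 with h0 | h0
    · have h1 : Function.update (ent c.L) c.e0 0 = ent c.L := by
        rw [h0]
        nth_rewrite 2 [← hL0]
        exact Function.update_eq_self _ _
      rw [h1]
      exact ⟨H⟩
    · exact H.move (Finset.mem_range.2 he) h0 hsum
  rcases hk with ⟨-, h1, h2, h3, h4, h5, h6⟩ | ⟨-, h1, h2, h3, h4, h5, h6, h7, h8⟩ | ⟨-, h1, h2⟩ |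
    ⟨-, h1, h2, h3, h4⟩
  · exact H'.lstA hn ht (ent c.u) (ent c.v) h1 h2 h3 h4 h5 h6
  · exact H'.lstB hn ht (ent c.u) (ent c.v) h1 h2 h3 (Nat.odd_iff.2 h4) h5 h6 h7 h8
  · refine H'.lstT hn ht (ent c.u) (ent c.v) (ent c.k) h1 ?_
    rcases h2 with ⟨a1, a2, a3, a4⟩ | h2
    · refine Or.inl ⟨a1, a2, fun e => ?_, a4⟩
      rw [a3]
      simp [ent]
    · exact Or.inr h2
  · rw [ent_set] at h3 h4
    exact H'.lstP hn ht (ent c.u) (ent c.v) h1 h2 h3 h4

theorem Covers.lst {n : ℕ} (hn : 0 < n) {cs : List Cert} (h : Covers n cs) {L : List ℕ}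
    (hL : L.length = n - 1) (hs : L.sum ≤ 5) (H : Rep Ω R M n (ent (0 :: L)))
    (hsum : n ∣ ∑ e ∈ Finset.range n, e * ent (0 :: L) e) : Lst Ω R M n := by
  obtain ⟨c, hc, hcL⟩ := h.2 L (mem_vecs _ _ _ hL hs) (Nat.mod_eq_zero_of_dvd hsum)
  rw [← hcL] at H hsum
  exact Cert.sound hn (h.1 c hc) H hsum

end Pool.Agent.Helper75.WC
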