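import Pool.Agent.Helper75.WC.CurveM

/-! Project WC. The branch curves of degree at most four, or of degree five with at most one line,
without a condition on the number of the components: the only new type are four lines. -/

set_option autoImplicit false

namespace Pool.Agent.Helper75.WC

open IntermediateField MvPolynomial

variable {Ω R M : Type} [Field Ω] [IsAlgClosed Ω] [Field R] [Field M] [Algebra Ω R] [Algebra Ω M]
    [Algebra R M] [IsScalarTower Ω R M]

/-- three lines, and the line at infinity -/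
theorem Rep.lin {n : ℕ} {D : ℕ → ℕ} (H : Rep Ω R M n D) (hn : 0 < n) {k1 k2 k3 : ℕ}
    (hk1 : k1 < n) (hk2 : k2 < n) (hk3 : k3 < n) (h12 : k1 ≠ k2) (h13 : k1 ≠ k3) (h23 : k2 ≠ k3)
    (h0 : ∀ e < n, e ≠ k1 → e ≠ k2 → e ≠ k3 → D e = 0) (h1 : D k1 ≤ 1) (h2 : D k2 ≤ 1)
    (h3 : D k3 ≤ 1) : Lin Ω R M n := by
  classical
  obtain ⟨w', hw', hw''⟩ := H.twist hn (t := 1) (Nat.coprime_one_left n) (fun _ => 0)
    (fun e => if e = k1 ∨ e = k2 ∨ e = k3 then e else 0) (by
      intro e he
      by_cases h : e = k1 ∨ e = k2 ∨ e = k3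
      · right
        rw [if_pos h, one_mul, add_zero]
      · left
        push Not at h
        exact h0 e he h.1 h.2.1 h.2.2)
  have e0 : prodP n H.P (fun _ => 0) = 1 := by
    unfold prodP
    simp
  have e1 : prodP n H.P (fun e => if e = k1 ∨ e = k2 ∨ e = k3 then e else 0) =
      H.P k1 ^ k1 * H.P k2 ^ k2 * H.P k3 ^ k3 := by
    unfold prodP
    have h4 : ({k1, k2, k3} : Finset ℕ) ⊆ Finset.range n := by
      intro e he
      rw [Finset.mem_insert, Finset.mem_insert, Finset.mem_singleton] at he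
      rw [Finset.mem_range]
      rcases he with rfl | rfl | rfl <;> assumption
    rw [← Finset.prod_subset h4 (fun e _ he => by
      rw [Finset.mem_insert, Finset.mem_insert, Finset.mem_singleton] at he
      dsimp only
      rw [if_neg he, pow_zero])]
    rw [Finset.prod_insert (by simp [h12, h13]), Finset.prod_pair h23]
    simp [mul_assoc]
  rw [e0, e1, map_one, map_one, mul_one] at hw''
  refine ⟨H.x, H.y, w', k1, k2, k3, H.P k1, H.P k2, H.P k3, H.gen, hw', (H.deg k1).trans h1,
    (H.deg k2).trans h2, (H.deg k3).trans h3, ?_, ?_, ?_, ?_⟩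
  · rw [aeval_map75]
    exact fun h => H.ne k1 ((map_eq_zero (algebraMap R M)).1 h)
  · rw [aeval_map75]
    exact fun h => H.ne k2 ((map_eq_zero (algebraMap R M)).1 h)
  · rw [aeval_map75]
    exact fun h => H.ne k3 ((map_eq_zero (algebraMap R M)).1 h)
  · rw [hw'', aeval_map75, aeval_map75, aeval_map75]
    simp only [map_mul, map_pow]

/-- **The types without a condition on `n`**, with four lines. -/
theorem Rep.freeLin {n : ℕ} {D : ℕ → ℕ} (H : Rep Ω R M n D) (hn : 0 < n)
    (hfin : Module.finrank R M = n) (hsum : n ∣ ∑ e ∈ Finset.range n, e * D e)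
    (h5 : ∑ e ∈ Finset.range n, D e ≤ 5)
    (hc : ∑ e ∈ Finset.range n, D e ≤ 4 ∨
      ((Finset.range n).filter fun e => D e = 1).card ≤ 1) : Lst Ω R M n ∨ Lin Ω R M n := by
  classical
  rcases hc with hc | hc
  swap
  · exact Or.inl (H.free hn hfin hsum h5 (Or.inr hc))
  by_cases hK3 : ((Finset.range n).filter fun e => D e ≠ 0).card ≤ 3
  · exact Or.inl (H.free hn hfin hsum h5 (Or.inl ⟨hc, hK3⟩))
  right
  obtain ⟨K, hK⟩ : ∃ K, K = (Finset.range n).filter fun e => D e ≠ 0 := ⟨_, rfl⟩
  rw [← hK] at hK3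
  have hKn : ∀ e, e < n → e ∉ K → D e = 0 := by
    intro e he hne
    by_contra h
    exact hne (by rw [hK]; exact Finset.mem_filter.2 ⟨Finset.mem_range.2 he, h⟩)
  have hKpos : ∀ e ∈ K, e < n ∧ 0 < D e := by
    intro e he
    rw [hK, Finset.mem_filter, Finset.mem_range] at he
    exact ⟨he.1, Nat.pos_of_ne_zero he.2⟩
  have hKs : ∑ e ∈ Finset.range n, D e = ∑ e ∈ K, D e := by
    rw [hK, Finset.sum_filter_ne_zero]
  rw [hKs] at hc
  have h1 : ∑ e ∈ K, 1 ≤ ∑ e ∈ K, D e := Finset.sum_le_sum fun e he => (hKpos e he).2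
  rw [← Finset.card_eq_sum_ones] at h1
  have h4 : K.card = 4 := by omega
  have hone : ∀ e ∈ K, D e = 1 := by
    intro e he
    have h2 : ∑ a ∈ K.erase e, 1 ≤ ∑ a ∈ K.erase e, D a :=
      Finset.sum_le_sum fun a ha => (hKpos a (Finset.mem_of_mem_erase ha)).2
    rw [← Finset.card_eq_sum_ones, Finset.card_erase_of_mem he] at h2
    have h3 := Finset.add_sum_erase K D he
    have h5 := (hKpos e he).2
    omega
  obtain ⟨k4, K', hk4, hK', hcard⟩ := Finset.card_eq_succ.1 h4
  obtain ⟨k1, k2, k3, h12, h13, h23, rfl⟩ := Finset.card_eq_three.1 hcard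
  have m4 : k4 ∈ K := by
    rw [← hK']
    exact Finset.mem_insert_self _ _
  have m1 : k1 ∈ K := by
    rw [← hK']
    simp
  have m2 : k2 ∈ K := by
    rw [← hK']
    simp
  have m3 : k3 ∈ K := by
    rw [← hK']
    simp
  rw [Finset.mem_insert, Finset.mem_insert, Finset.mem_singleton] at hk4
  push Not at hk4
  obtain ⟨H'⟩ := H.move (Finset.mem_range.2 (hKpos k4 m4).1) (hone k4 m4) hsum
  refine H'.lin hn (hKpos k1 m1).1 (hKpos k2 m2).1 (hKpos k3 m3).1 h12 h13 h23
    (fun e he h1 h2 h3 => ?_) ?_ ?_ ?_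
  · by_cases h6 : e = k4
    · rw [h6, Function.update_self]
    · rw [Function.update_of_ne h6]
      refine hKn e he ?_
      rw [← hK', Finset.mem_insert, Finset.mem_insert, Finset.mem_insert, Finset.mem_singleton]
      tauto
  · rw [Function.update_of_ne (Ne.symm hk4.1)]
    exact (hone k1 m1).le
  · rw [Function.update_of_ne (Ne.symm hk4.2.1)]
    exact (hone k2 m2).le
  · rw [Function.update_of_ne (Ne.symm hk4.2.2)]
    exact (hone k3 m3).le

end Pool.Agent.Helper75.WC
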