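import Pool.Agent.Helper75.WC.CurveEight
import Pool.Agent.Helper75.WC.CurveLin
import Pool.Agent.Helper15.WC.Step8

/-! Project WC. The cyclic covers of the plane branched along a curve of degree at most five. -/

set_option autoImplicit false

namespace Pool.Agent.Helper75.WC

open IntermediateField MvPolynomial

variable {Ω R M : Type} [Field Ω] [IsAlgClosed Ω] [Field R] [Field M] [Algebra Ω R] [Algebra Ω M]
    [Algebra R M] [IsScalarTower Ω R M]

theorem Cert8.sound [FiniteDimensional R M] {c : Cert8} (h : c.ok)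
    (H : Rep Ω R M 8 (ent c.L)) (hfin : Module.finrank R M = 8)
    (hsum : 8 ∣ ∑ e ∈ Finset.range 8, e * ent c.L e) : LstM Ω R M := by
  obtain ⟨ht, he, h0, he1, hk1, hk2, h1, h2, hD, hd, hk⟩ := h
  obtain ⟨H'⟩ : Nonempty (Rep Ω R M 8 (ent c.D)) := by
    unfold Cert8.D
    rw [ent_set]
    exact H.move (Finset.mem_range.2 he) h0 hsum
  rcases hk with ⟨-, a1, a2, a3, a4⟩ | ⟨-, a1, a2, a3, a4, a5⟩ | ⟨-, a1, a2, a3, a4, a5⟩
  · refine H'.step8_i hfin ht he1 hk1 a1 a2 (fun e he h3 h4 => ?_) hd a3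
    rcases hD e he with h | h | h | h
    · exact absurd h h3
    · exact absurd h h4
    · exact absurd (h.trans a4) h4
    · exact h
  · refine H'.step8_ii hfin ht he1 hk1 hk2 a1 a2 a3 (fun e he h3 h4 h5 => ?_) hd a4 a5
    rcases hD e he with h | h | h | h
    · exact absurd h h3
    · exact absurd h h4
    · exact absurd h h5
    · exact h
  · refine H'.step8_iii hfin ht he1 hk1 hk2 a1 a2 a3 (fun e he h3 h4 h5 => ?_) hd a4 a5
    rcases hD e he with h | h | h | h
    · exact absurd h h3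
    · exact absurd h h4
    · exact absurd h h5
    · exact h

/-- the exponent eight -/
theorem lstM_eight [FiniteDimensional R M] [IsGalois R M] (hfin : Module.finrank R M = 8)
    {x y : R} {w : M} (hR : adjoin Ω {x, y} = ⊤)
    (hw : adjoin R {w} = ⊤) {r : ℕ} (d e : Fin r → ℕ) (f : Fin r → MvPolynomial (Fin 2) Ω)
    (hd : ∀ i, (f i).totalDegree ≤ d i) (hne : ∀ i, aeval ![x, y] (f i) ≠ 0)
    (hsum : ∑ i, d i ≤ 5) (hdvd : 8 ∣ ∑ i, d i * e i)
    (heq : w ^ 8 = algebraMap R M (∏ i, aeval ![x, y] (f i) ^ e i)) : LstM Ω R M := by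
  obtain ⟨H⟩ := rep_of_curve (by norm_num) hR hw d e f hd hne heq
  have h1 := typ_length (n := 8) d e
  have h2 := (typ_sum (n := 8) d e).trans hsum
  have h3 := typ_dvd (by norm_num) d e hdvd
  rcases covers8.2.2 _ (mem_vecs _ _ _ h1 h2) (Nat.mod_eq_zero_of_dvd h3) with
    h | ⟨c, hc, hcL⟩ | ⟨c, hc, hcL⟩
  · exact (H.no_common (by norm_num) hfin (g := 2) (by norm_num) (by norm_num) h).elim
  · rw [← hcL] at H h3
    have h4 := Cert.sound (by norm_num) (covers8.1 c hc) H h3
    rw [← hfin] at h4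
    exact h4.toM
  · rw [← hcL] at H h3
    exact Cert8.sound (covers8.2.1 c hc) H hfin h3

/-- **Curves of degree at most five**, `x`, `y`, `w` are elements of `M`. -/
theorem lstM_of_curve [FiniteDimensional R M] [IsGalois R M]
    (x y w : M) (hR : ∀ r : R, algebraMap R M r ∈ adjoin Ω {x, y}) (hM : adjoin Ω {x, y, w} = ⊤)
    (h : IsCrv Ω 8 (Module.finrank (adjoin Ω {x, y}) M) x y w) : LstM Ω R M := by
  obtain ⟨r, d, e, f, hd, h5, hdvd, hc, heq⟩ := h
  by_cases h8 : Module.finrank (adjoin Ω {x, y}) M = 8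
  · obtain ⟨h1, h2, x', y', hx, hy, hB, hw⟩ := toB x y w hR hM
    have e1 : algebraMap (adjoin Ω {x, y} : IntermediateField Ω M) M x' = x := hx
    have e2 : algebraMap (adjoin Ω {x, y} : IntermediateField Ω M) M y' = y := hy
    refine LstM.of_le (B := (adjoin Ω {x, y} : IntermediateField Ω M)) (fun r => ⟨⟨_, hR r⟩, rfl⟩)
      ?_
    rcases curve_ne rfl hB hw d e f hd (by rw [e1, e2]; exact heq) with h | ⟨f', hd', hne, heq'⟩
    · exact h.toM
    · rw [h8] at hdvd heq'
      exact lstM_eight h8 hB hw d e f' hd' hne h5 hdvd heq'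
  · exact lstM_of_curve7 x y w hR hM ⟨r, d, e, f, hd, h5, hdvd, by omega, heq⟩

end Pool.Agent.Helper75.WC
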