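import Pool.Agent.Helper40.SD.Gpair
import Pool.Agent.Helper35.TD.Target2
import Pool.Agent.Helper75.WC.Abel

/-! Project WC. The cyclic covers `M / R` of the plane, `R = Ω(x, y)`, `M = R(w)`, which are twists
of double covers of the line: the threefolds are uniruled. -/

set_option autoImplicit false

namespace Pool.Agent.Helper75.WC

open IntermediateField Pool.Agent.Helper75.QC Pool.Agent.Helper40.SD

section degrees

variable {Ω : Type} [Field Ω]

/-- The weighted degree of `z ^ i * f(x, y)` is at most `k`; the weights of `x`, `y`, `z` are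
`a`, `b`, `c`. -/
def DegLE (a b c i k : ℕ) (f : MvPolynomial (Fin 2) Ω) : Prop :=
  ∀ m ∈ f.support, a * m 0 + b * m 1 + c * i ≤ k

theorem DegLE.wd {a b c i D : ℕ} {g : MvPolynomial (Fin 2) Ω} (hg : DegLE a b c i D g) :
    WD (fun o : Option (Fin 2) => o.elim c ![a, b]) D
      (MvPolynomial.rename some g * MvPolynomial.X none ^ i) := by
  set w : Option (Fin 2) → ℕ := fun o => o.elim c ![a, b] with hw
  have hwX : WD w c (MvPolynomial.X none : MvPolynomial (Option (Fin 2)) Ω) := WD.X none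
  by_cases hj : i * c ≤ D
  · have h3 : WD w (D - i * c) (MvPolynomial.rename some g) := by
      refine WD.rename (fun m hm => ?_)
      rw [Fin.sum_univ_two]
      have h4 := hg m hm
      change m 0 * a + m 1 * b ≤ _
      rw [mul_comm (m 0), mul_comm (m 1)]
      rw [mul_comm c i] at h4
      omega
    exact (h3.mul (hwX.pow i)).mono (by omega)
  · have h3 : g.support = ∅ := by
      rw [Finset.eq_empty_iff_forall_notMem]
      intro m hm
      have := hg m hm
      rw [mul_comm c i] at this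
      omega
    rw [MvPolynomial.support_eq_empty.1 h3, map_zero, zero_mul]
    intro s hs
    simp at hs

end degrees

theorem mem_valr75 {Ω N : Type} [Field Ω] [Field N] [Algebra Ω N]
    (f : MvPolynomial (Fin 2) Ω) (x y : N) (F : IntermediateField Ω N)
    (hx : x ∈ F) (hy : y ∈ F) : MvPolynomial.aeval ![x, y] f ∈ F := by
  have h := map_aeval75 F.val (⟨x, hx⟩ : F) ⟨y, hy⟩ f
  change ((MvPolynomial.aeval ![(⟨x, hx⟩ : F), ⟨y, hy⟩] f : F) : N) = _ at h
  rw [show MvPolynomial.aeval ![x, y] f = ((MvPolynomial.aeval ![(⟨x, hx⟩ : F), ⟨y, hy⟩] f : F) : N)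
    from h.symm]
  exact Subtype.property _

/-- the sum of the weights -/
private theorem sum_wr75 (a b c : ℕ) :
    ∑ i, (fun o : Option (Fin 2) => o.elim c ![a, b]) i = a + b + c := by
  rw [Fintype.sum_option, Fin.sum_univ_two]
  change c + (a + b) = _
  ring

/-- **The double covers `r ^ 2 = A r + B` of the space with the coordinates `x`, `y`, `p`.** -/
theorem uni_cover {Ω N : Type} [Field Ω] [IsAlgClosed Ω] [Field N] [Algebra Ω N] {a b c : ℕ}
    (hpos : 0 < a + b + c) (A B : MvPolynomial (Option (Fin 2)) Ω) (h2 : (2 : Ω) ≠ 0 ∨ A ≠ 0)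
    (hA : WD (fun o : Option (Fin 2) => o.elim c ![a, b]) (a + b + c) A)
    (hB : WD (fun o : Option (Fin 2) => o.elim c ![a, b]) (2 * (a + b + c)) B)
    (x y p r : N)
    (hr : r ^ 2 = MvPolynomial.aeval (fun o : Option (Fin 2) => o.elim p ![x, y]) A * r +
      MvPolynomial.aeval (fun o : Option (Fin 2) => o.elim p ![x, y]) B) (S : Set N)
    (hS : ∀ a ∈ S, a ∈ adjoin Ω {x, y, p, r}) :
    Uniruled Ω (adjoin Ω S : IntermediateField Ω N) 3 := by
  refine uni_in_quad (k := 2) (fun o : Option (Fin 2) => o.elim c ![a, b])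
    (by rw [sum_wr75]; exact hpos) A B h2 (by rw [sum_wr75]; exact hA)
    (by rw [sum_wr75]; exact hB) (fun o : Option (Fin 2) => o.elim p ![x, y]) r hr S fun s hs => ?_
  have h1 : adjoin Ω {x, y, p, r} ≤
      adjoin Ω (Set.range (fun o : Option (Fin 2) => o.elim p ![x, y]) ∪ {r}) := by
    rw [adjoin_le_iff]
    rintro z (rfl | rfl | rfl | rfl)
    · exact subset_adjoin _ _ (Or.inl ⟨some 0, rfl⟩)
    · exact subset_adjoin _ _ (Or.inl ⟨some 1, rfl⟩)
    · exact subset_adjoin _ _ (Or.inl ⟨none, rfl⟩)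
    · exact subset_adjoin _ _ (Or.inr rfl)
  exact h1 (hS s hs)

private theorem ev_r75 {Ω N : Type} [Field Ω] [Field N] [Algebra Ω N] (x y p : N) (i : ℕ)
    (g : MvPolynomial (Fin 2) Ω) :
    MvPolynomial.aeval (fun o : Option (Fin 2) => o.elim p ![x, y])
      (MvPolynomial.rename some g * MvPolynomial.X none ^ i) =
      MvPolynomial.aeval ![x, y] g * p ^ i := by
  rw [map_mul, map_pow, MvPolynomial.aeval_X, MvPolynomial.aeval_rename]
  rfl

/-- **The threefolds `v (1 - v) q ^ 2 = s ^ n f`.** -/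
theorem uni_A {Ω N : Type} [Field Ω] [IsAlgClosed Ω] [Field N] [Algebra Ω N]
    {f q : MvPolynomial (Fin 2) Ω} {a b c i j n : ℕ} (hij : 2 * i = j + n ∨ j = 2 * i + n)
    (hpos : 0 < a + b + c) (hq : DegLE a b c i (a + b + c) q)
    (hf : DegLE a b c j (2 * (a + b + c)) f) (x y v s : N)
    (hq0 : MvPolynomial.aeval ![x, y] q ≠ 0) (hs0 : s ≠ 0)
    (hv : v * (1 - v) * MvPolynomial.aeval ![x, y] q ^ 2 =
      s ^ n * MvPolynomial.aeval ![x, y] f) :
    Uniruled Ω (adjoin Ω {x, y, v, s} : IntermediateField Ω N) 3 := by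
  have hqp : q ≠ 0 := by
    rintro rfl
    exact hq0 (map_zero _)
  have hA0 : (MvPolynomial.rename some q * MvPolynomial.X none ^ i :
      MvPolynomial (Option (Fin 2)) Ω) ≠ 0 := by
    refine mul_ne_zero ?_ (pow_ne_zero _ (MvPolynomial.X_ne_zero _))
    intro h
    exact hqp (MvPolynomial.rename_injective _ (Option.some_injective _) (h.trans (map_zero _).symm))
  -- the coordinate
  obtain ⟨p, hp0, hpf, hps⟩ : ∃ p : N, p ≠ 0 ∧ p ^ j * MvPolynomial.aeval ![x, y] f =
      v * (1 - v) * MvPolynomial.aeval ![x, y] q ^ 2 * (p ^ i) ^ 2 ∧ s ∈ adjoin Ω {p} := by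
    rcases hij with h | h
    · have hsp : s * s⁻¹ = 1 := mul_inv_cancel₀ hs0
      refine ⟨s⁻¹, inv_ne_zero hs0, ?_, ?_⟩
      · rw [hv, ← pow_mul, mul_comm i 2, h, pow_add]
        calc s⁻¹ ^ j * MvPolynomial.aeval ![x, y] f =
            (s * s⁻¹) ^ n * (s⁻¹ ^ j * MvPolynomial.aeval ![x, y] f) := by
              rw [hsp, one_pow, one_mul]
          _ = _ := by ring
      · have h1 : s = (s⁻¹)⁻¹ := (inv_inv s).symm
        have h2 : (s⁻¹)⁻¹ ∈ adjoin Ω {s⁻¹} := inv_mem (subset_adjoin _ _ rfl)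
        rwa [← h1] at h2
    · refine ⟨s, hs0, ?_, subset_adjoin _ _ rfl⟩
      rw [hv, h, pow_add]
      ring
  obtain ⟨r, hr⟩ : ∃ r : N, r = v * MvPolynomial.aeval ![x, y] q * p ^ i := ⟨_, rfl⟩
  refine uni_cover hpos (MvPolynomial.rename some q * MvPolynomial.X none ^ i)
    (-(MvPolynomial.rename some f * MvPolynomial.X none ^ j)) (Or.inr hA0) hq.wd hf.wd.neg x y p
    r ?_ _ ?_
  · rw [map_neg, ev_r75, ev_r75, hr]
    linear_combination hpf
  · have mx : x ∈ adjoin Ω {x, y, p, r} := subset_adjoin _ _ (by simp)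
    have my : y ∈ adjoin Ω {x, y, p, r} := subset_adjoin _ _ (by simp)
    have mp : p ∈ adjoin Ω {x, y, p, r} := subset_adjoin _ _ (by simp)
    have mr : r ∈ adjoin Ω {x, y, p, r} := subset_adjoin _ _ (by simp)
    rintro z (rfl | rfl | rfl | rfl)
    · exact mx
    · exact my
    · have h5 : z = r / (MvPolynomial.aeval ![x, y] q * p ^ i) := by
        rw [hr]
        field_simp
      rw [h5]
      exact div_mem mr (mul_mem (mem_valr75 q x y _ mx my) (pow_mem mp i))
    · have h5 : adjoin Ω {p} ≤ adjoin Ω {x, y, p, r} := by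
        rw [adjoin_le_iff]
        rintro _ rfl
        exact mp
      exact h5 hps

/-- **The threefolds `v (1 - v) ^ m = s ^ (2 m) f g ^ (m - 1)`.** -/
theorem uni_B {Ω N : Type} [Field Ω] [IsAlgClosed Ω] [Field N] [Algebra Ω N]
    {f g : MvPolynomial (Fin 2) Ω} {a b c i j m : ℕ} (h2 : (2 : Ω) ≠ 0) (hi : Odd i)
    (hm : 0 < m) (hij : j = i + m ∨ i = j + m)
    (hpos : 0 < a + b + c) (hg : DegLE a b c i (2 * (a + b + c)) g)
    (hf : DegLE a b c j (2 * (a + b + c)) f) (x y v s : N)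
    (hg0 : MvPolynomial.aeval ![x, y] g ≠ 0)
    (hs0 : s ≠ 0) (hv1 : 1 - v ≠ 0)
    (hv : v * (1 - v) ^ m = s ^ (2 * m) *
      (MvPolynomial.aeval ![x, y] f * MvPolynomial.aeval ![x, y] g ^ (m - 1))) :
    Uniruled Ω (adjoin Ω {x, y, v, s} : IntermediateField Ω N) 3 := by
  obtain ⟨F, hF⟩ : ∃ F, F = MvPolynomial.aeval ![x, y] f := ⟨_, rfl⟩
  obtain ⟨G, hG⟩ : ∃ G, G = MvPolynomial.aeval ![x, y] g := ⟨_, rfl⟩
  rw [← hG] at hg0
  rw [← hF, ← hG] at hv
  obtain ⟨i', hi'⟩ := hi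
  -- `t = s² g / (1 - v)`
  obtain ⟨t, ht⟩ : ∃ t : N, t = s ^ 2 * G / (1 - v) := ⟨_, rfl⟩
  have ht0 : t ≠ 0 := by
    rw [ht]
    exact div_ne_zero (mul_ne_zero (pow_ne_zero _ hs0) hg0) hv1
  have htm : t ^ m * F = v * G := by
    rw [ht, div_pow, div_mul_eq_mul_div, div_eq_iff (pow_ne_zero _ hv1), mul_pow, ← pow_mul]
    obtain ⟨m', rfl⟩ : ∃ m', m = m' + 1 := ⟨m - 1, by omega⟩
    rw [Nat.add_sub_cancel] at hv
    linear_combination -G * hv
  have ht1 : s ^ 2 * G = t * (1 - v) := by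
    rw [ht, div_mul_cancel₀ _ hv1]
  -- the coordinate `z` and the root `Y`
  obtain ⟨z, Y, hz0, hY, hY0, h3, h4⟩ : ∃ z Y : N, z ≠ 0 ∧ Y ^ 2 = z ^ i * G * (1 - v) ∧ Y ≠ 0 ∧
      z ^ j * F = z ^ i * G * v ∧ ∃ l : ℕ, Y = s * G * z ^ l := by
    rcases hij with h | h
    · refine ⟨t, s * G * t ^ i', ht0, ?_, mul_ne_zero (mul_ne_zero hs0 hg0) (pow_ne_zero _ ht0), ?_,
        i', rfl⟩
      · rw [hi']
        calc (s * G * t ^ i') ^ 2 = (s ^ 2 * G) * G * t ^ (2 * i') := by ring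
          _ = _ := by rw [ht1]; ring
      · rw [h, pow_add]
        linear_combination t ^ i * htm
    · have htt : t * t⁻¹ = 1 := mul_inv_cancel₀ ht0
      refine ⟨t⁻¹, s * G * t⁻¹ ^ (i' + 1), inv_ne_zero ht0, ?_,
        mul_ne_zero (mul_ne_zero hs0 hg0) (pow_ne_zero _ (inv_ne_zero ht0)), ?_, i' + 1, rfl⟩
      · rw [hi']
        calc (s * G * t⁻¹ ^ (i' + 1)) ^ 2 = (s ^ 2 * G) * G * t⁻¹ ^ (2 * i' + 2) := by ring
          _ = (t * t⁻¹) * (t⁻¹ ^ (2 * i' + 1) * G * (1 - v)) := by rw [ht1]; ring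
          _ = _ := by rw [htt, one_mul]
      · rw [h, pow_add]
        calc t⁻¹ ^ j * F = (t * t⁻¹) ^ m * (t⁻¹ ^ j * F) := by rw [htt, one_pow, one_mul]
          _ = t⁻¹ ^ j * t⁻¹ ^ m * (t ^ m * F) := by ring
          _ = _ := by rw [htm]; ring
  obtain ⟨l, hl⟩ := h4
  refine uni_cover hpos 0 (MvPolynomial.rename some g * MvPolynomial.X none ^ i -
    MvPolynomial.rename some f * MvPolynomial.X none ^ j) (Or.inl h2) ?_ ?_ x y z Y ?_ _ ?_
  · intro m hm
    simp at hm
  · rw [sub_eq_add_neg]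
    exact hg.wd.add hf.wd.neg
  · rw [map_zero, zero_mul, zero_add, map_sub, ev_r75, ev_r75, ← hF, ← hG, hY]
    linear_combination h3
  · have mx : x ∈ adjoin Ω {x, y, z, Y} := subset_adjoin _ _ (by simp)
    have my : y ∈ adjoin Ω {x, y, z, Y} := subset_adjoin _ _ (by simp)
    have mz : z ∈ adjoin Ω {x, y, z, Y} := subset_adjoin _ _ (by simp)
    have mY : Y ∈ adjoin Ω {x, y, z, Y} := subset_adjoin _ _ (by simp)
    have mG : G ∈ adjoin Ω {x, y, z, Y} := by
      rw [hG]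
      exact mem_valr75 g x y _ mx my
    rintro u (rfl | rfl | rfl | rfl)
    · exact mx
    · exact my
    · have h5 : u = 1 - Y ^ 2 / (z ^ i * G) := by
        rw [hY, mul_div_cancel_left₀ _ (mul_ne_zero (pow_ne_zero _ hz0) hg0)]
        ring
      rw [h5]
      exact sub_mem (one_mem _) (div_mem (pow_mem mY 2) (mul_mem (pow_mem mz i) mG))
    · have h5 : u = Y / (G * z ^ l) := by
        rw [hl]
        field_simp
      rw [h5]
      exact div_mem mY (mul_mem mG (pow_mem mz l))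

end Pool.Agent.Helper75.WC
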