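import Pool.Agent.Helper75.WC.Abel
import Pool.Agent.Helper75.WC.Tame

/-! Project WC. Frobenius is semisimple for a finite abelian extension `K / R` if it is for all
intermediate fields `M` with a cyclic Galois group `Gal(M / R)`. -/

set_option autoImplicit false

namespace Pool.Agent.Helper75.WC

open IntermediateField Pool.Agent.Helper75.QC Pool.Agent.Helper75.TC

/-- an intermediate field of a finite extension of a finitely generated field -/
theorem exists_gen {Ω K : Type} [Field Ω] [Field K] [Algebra Ω K] (R : IntermediateField Ω K)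
    (hR : (⊤ : IntermediateField Ω R).FG) [FiniteDimensional R K] (M : IntermediateField R K) :
    ∃ Q : Set K, Q.Finite ∧ adjoin Ω Q = M.restrictScalars Ω := by
  classical
  obtain ⟨S, hS⟩ := hR
  obtain ⟨B, hB⟩ := (inferInstance : Module.Finite R M).fg_top
  refine ⟨(fun a : R => (a : K)) '' (S : Set R) ∪ (fun b : M => (b : K)) '' (B : Set M),
    (S.finite_toSet.image _).union (B.finite_toSet.image _), ?_⟩
  apply le_antisymm
  · rw [adjoin_le_iff]
    rintro _ (⟨a, _, rfl⟩ | ⟨b, _, rfl⟩)
    · exact M.algebraMap_mem a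
    · exact b.2
  · have hRle : ∀ a : R, (a : K) ∈ adjoin Ω ((fun a : R => (a : K)) '' (S : Set R) ∪
        (fun b : M => (b : K)) '' (B : Set M)) := by
      intro a
      have h1 : (⊤ : IntermediateField Ω R) ≤ (adjoin Ω ((fun a : R => (a : K)) '' (S : Set R) ∪
          (fun b : M => (b : K)) '' (B : Set M))).comap R.val := by
        rw [← hS, adjoin_le_iff]
        intro s hs
        exact subset_adjoin Ω _ (Or.inl ⟨s, hs, rfl⟩)
      exact h1 (mem_top (x := a))
    intro x hx
    have h2 : ∀ m : M, (m : K) ∈ adjoin Ω ((fun a : R => (a : K)) '' (S : Set R) ∪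
        (fun b : M => (b : K)) '' (B : Set M)) := by
      intro m
      have hm : m ∈ Submodule.span R (B : Set M) := by
        rw [hB]
        exact Submodule.mem_top
      induction hm using Submodule.span_induction with
      | mem b hb => exact subset_adjoin Ω _ (Or.inr ⟨b, hb, rfl⟩)
      | zero => exact zero_mem _
      | add a b _ _ ha hb => exact add_mem ha hb
      | smul c a _ ha =>
        have h3 : ((c • a : M) : K) = (c : K) * (a : K) := rfl
        rw [h3]
        exact mul_mem (hRle c) ha
    exact h2 ⟨x, hx⟩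

variable {p : ℕ} [hpr : Fact p.Prime] {Ω L : Type} [Field Ω] [CharP Ω p] [IsAlgClosed Ω]
  [Field L] [CharZero L] [IsAlgClosed L]

/-- **Abelian extensions.** -/
theorem good_abelian (hΩ : ∀ c : Ω, ∃ k : ℕ, 0 < k ∧ c ^ p ^ k = c) (T : Theory p Ω L) {K : Type}
    [Field K] [Algebra Ω K] (R : IntermediateField Ω K) (hR : (⊤ : IntermediateField Ω R).FG)
    [FiniteDimensional R K] [IsGalois R K] (hab : ∀ g h : K ≃ₐ[R] K, g * h = h * g)
    (h : ∀ M : IntermediateField R K, IsCyclic (M ≃ₐ[R] M) → Good T M) : Good T K := by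
  classical
  have hfin : Finite (IntermediateField R K) :=
    Finite.of_equiv _ (IsGalois.intermediateFieldEquivSubgroup (F := R) (E := K)).symm.toEquiv
  choose Q hQ1 hQ2 using exists_gen (Ω := Ω) (K := K) R hR
  have hK : (⊤ : IntermediateField Ω K).FG := by
    have h1 : adjoin Ω (Q ⊤) = ⊤ := by
      rw [hQ2]
      rfl
    rw [← h1]
    exact fg_adjoin_of_finite (hQ1 _)
  -- the field generated by `Q M` is `M`
  let e : ∀ M : IntermediateField R K, (adjoin Ω (Q M) : IntermediateField Ω K) →ₐ[Ω] M :=
    fun M =>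
      { toFun := fun x => ⟨x.1, (hQ2 M).le x.2⟩
        map_one' := rfl
        map_mul' := fun _ _ => rfl
        map_zero' := rfl
        map_add' := fun _ _ => rfl
        commutes' := fun _ => rfl }
  let e' : ∀ M : IntermediateField R K, M →ₐ[Ω] (adjoin Ω (Q M) : IntermediateField Ω K) :=
    fun M =>
      { toFun := fun x => ⟨x.1, (hQ2 M).ge x.2⟩
        map_one' := rfl
        map_mul' := fun _ _ => rfl
        map_zero' := rfl
        map_add' := fun _ _ => rfl
        commutes' := fun _ => rfl }
  refine Good.of_span hΩ T hK (ι := {M : IntermediateField R K // IsCyclic (M ≃ₐ[R] M)})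
    (fun M => Q M.1) (fun M => hQ1 M.1) (fun M a => ?_) ?_ (fun M => ?_)
  · -- algebraic
    have h1 : IsAlgebraic R a := Algebra.IsAlgebraic.isAlgebraic a
    have h2 : ∀ c : R, (c : K) ∈ adjoin Ω (Q M.1) := by
      intro c
      rw [hQ2]
      exact M.1.algebraMap_mem c
    obtain ⟨P, hP, hP'⟩ := h1
    let f : R →+* (adjoin Ω (Q M.1) : IntermediateField Ω K) :=
      { toFun := fun c => ⟨c, h2 c⟩
        map_one' := rfl
        map_mul' := fun _ _ => rfl
        map_zero' := rfl
        map_add' := fun _ _ => rfl }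
    refine ⟨P.map f, (Polynomial.map_ne_zero_iff f.injective).2 hP, ?_⟩
    rw [Polynomial.aeval_def, Polynomial.eval₂_map]
    exact hP'
  · rw [eq_top_iff, ← span_cyclic T.toBaseTheory R hab 2]
    refine iSup_mono fun M => ?_
    rintro _ ⟨s, rfl⟩
    refine ⟨T.map 2 (e' M.1) s, ?_⟩
    have h1 : (adjoin Ω (Q M.1)).val.comp (e' M.1) = incl R M.1 := rfl
    have h2 := T.map_comp 2 (e' M.1) (adjoin Ω (Q M.1)).val
    rw [h1] at h2
    rw [h2]
    rfl
  · have hfg : (⊤ : IntermediateField Ω (adjoin Ω (Q M.1))).FG := fg_sub (hQ1 M.1)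
    have hfg' : (⊤ : IntermediateField Ω M.1).FG := by
      obtain ⟨S, hS⟩ := hfg
      have h1 : adjoin Ω ((e M.1) '' (S : Set _)) = ⊤ := by
        rw [← adjoin_map, hS, eq_top_iff]
        intro x _
        exact ⟨e' M.1 x, mem_top, rfl⟩
      rw [← h1]
      exact fg_adjoin_of_finite (S.finite_toSet.image _)
    refine Good.of_hom hΩ T hfg hfg' (e M.1) (fun a => ?_) (h M.1 M.2)
    exact isAlgebraic_algebraMap (⟨a, e' M.1 a, rfl⟩ : (e M.1).fieldRange)

end Pool.Agent.Helper75.WC
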