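import Pool.Agent.Helper75.WC.Tame

/-! Project WC. One eigenvalue: the cyclic cover `w ^ n ∈ Ω(x, y)` and the curve
`u ^ n = v ^ α * (1 - v) ^ β`. -/

set_option autoImplicit false

namespace Pool.Agent.Helper75.WC

open IntermediateField Pool.Agent.Helper75.QC Pool.Agent.Helper75.TC

private theorem alg_of_powp75 {Ω K : Type} [Field Ω] [Field K] [Algebra Ω K] (R : IntermediateField Ω K)
    (S : Set K) (hS : adjoin Ω S = ⊤) (m : ℕ) (hm : 0 < m) (h : ∀ s ∈ S, s ^ m ∈ R) (k : K) :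
    IsAlgebraic R k := by
  have h1 : adjoin Ω S ≤ (algebraicClosure R K).restrictScalars Ω := by
    rw [adjoin_le_iff]
    intro s hs
    have h2 : IsAlgebraic R s := by
      refine IsAlgebraic.of_pow hm ?_
      exact isAlgebraic_algebraMap (⟨s ^ m, h s hs⟩ : R)
    exact (mem_algebraicClosure_iff).2 h2
  have h3 : k ∈ (algebraicClosure R K).restrictScalars Ω := by
    apply h1
    rw [hS]
    exact mem_top
  exact (mem_algebraicClosure_iff).1 h3

/-- **One eigenvalue.** If the threefold `v ^ α * (1 - v) ^ β = s ^ n * w ^ n` is uniruled,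
Frobenius is semisimple on the eigenclasses of `σ w = ζ w` for `ξ`, if `ξ ^ α`, `ξ ^ β` and
`ξ ^ (α + β)` are not one. -/
theorem tame_eigen {p : ℕ} [Fact p.Prime] {Ω L : Type} [Field Ω] [CharP Ω p] [IsAlgClosed Ω]
    [Field L] [CharZero L] [IsAlgClosed L] (T : Theory p Ω L) {n α β e : ℕ} (hn : 0 < n)
    (hn' : (n : Ω) ≠ 0) (hαβ : (α.gcd β).Coprime n) {K : Type} [Field K] [Algebra Ω K] (x y w : K)
    (hK : adjoin Ω {x, y, w} = ⊤) (hw0 : w ≠ 0) (hw : w ^ n ∈ adjoin Ω {x, y})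
    (hdeg : Module.finrank (adjoin Ω {x, y}) K = n)
    (huni : ∀ (N : Type) [Field N] [Algebra Ω N] (g : K →ₐ[Ω] N) (v s : N),
      Transcendental g.fieldRange v → v ^ α * (1 - v) ^ β = s ^ n * g w ^ n →
      Uniruled Ω (adjoin Ω {g x, g y, v, s} : IntermediateField Ω N) 3)
    {ζ : Ω} (hζ : IsPrimitiveRoot ζ n) (hζp : ζ ^ p ^ e = ζ) (σ : K →ₐ[Ω] K)
    (hσ : σ x = x ∧ σ y = y ∧ σ w = algebraMap Ω K ζ * w)
    (φ : K →ₐ[Ω] K) (hφ : φ x = x ^ p ^ e ∧ φ y = y ^ p ^ e ∧ φ w = w ^ p ^ e)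
    {ξ : L} (hξn : ξ ^ n = 1) (hξα : ξ ^ α ≠ 1) (hξβ : ξ ^ β ≠ 1) (hξαβ : ξ ^ (α + β) ≠ 1)
    (U : Submodule L (T.H 2 K)) (hU : ∀ t ∈ U, T.map 2 σ t = ξ • t)
    (hP : ∀ t ∈ U, T.map 2 φ t ∈ U) :
    Module.End.IsSemisimple ((T.map 2 φ : Module.End L (T.H 2 K)).restrict hP) := by
  classical
  have hfin : (⊤ : IntermediateField Ω K).FG := by
    rw [← hK]
    exact fg_adjoin_of_finite (Set.toFinite _)
  have : FiniteDimensional L (T.H 2 K) := T.fin 2 K hfin
  have hpe : 0 < p ^ e := pow_pos (Fact.out : p.Prime).pos _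
  have hξ0 : ξ ≠ 0 := by
    rintro rfl
    rw [zero_pow hn.ne'] at hξn
    exact zero_ne_one hξn
  obtain ⟨C, N, iC, jC, iN, jN, v, u, a, b, hv, hu, hC, hbv, hN, hsig, hpsi, -⟩ :=
    Pool.Agent.Helper35.TD.exists_curve_ab (Ω := Ω) hn hαβ K
  obtain ⟨σ', hσ'⟩ := hsig ζ hζ.pow_eq_one
  obtain ⟨ψ, hψ⟩ := hpsi p Fact.out inferInstance e
  have hfinC : (⊤ : IntermediateField Ω C).FG := by
    rw [← hC]
    exact fg_adjoin_of_finite (Set.toFinite _)
  have : FiniteDimensional L (T.H 1 C) := T.fin 1 C hfinC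
  obtain ⟨z0, hz0, hz0'⟩ := T.curve C n α β ζ v u σ' hn' hζ hv hu hC hσ'.1 hσ'.2 ξ⁻¹
    (by rw [inv_pow, hξn, inv_one]) (by
      intro h
      rw [inv_pow, inv_eq_one] at h
      exact hξα h) (by
      intro h
      rw [inv_pow, inv_eq_one] at h
      exact hξβ h) (by
      intro h
      rw [inv_pow, inv_eq_one] at h
      exact hξαβ h)
  have hcommC : σ'.comp ψ = ψ.comp σ' := by
    refine hom_ext {v, u} hC _ _ ?_
    rintro s (rfl | rfl)
    · rw [AlgHom.comp_apply, AlgHom.comp_apply, hψ.1, map_pow, hσ'.1, hψ.1]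
    · rw [AlgHom.comp_apply, AlgHom.comp_apply, hψ.2, map_pow, hσ'.2, map_mul, hψ.2,
        AlgHom.commutes, mul_pow, ← map_pow, hζp]
  have hcC : Commute (T.map 1 σ' : Module.End L (T.H 1 C)) (T.map 1 ψ) := by
    show (T.map 1 σ' : Module.End L (T.H 1 C)) * T.map 1 ψ = T.map 1 ψ * T.map 1 σ'
    have h1 := T.map_comp 1 ψ σ'
    have h2 := T.map_comp 1 σ' ψ
    rw [hcommC, h2] at h1
    exact h1.symm
  obtain ⟨z, l, hz, hσz, hψz⟩ := common_eigen (T.map 1 σ' : Module.End L (T.H 1 C)) (T.map 1 ψ) hcC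
    ξ⁻¹ z0 hz0 hz0'
  have hinjC : Function.Injective (T.map 1 ψ) := by
    refine T.inj 1 ψ fun a => alg_of_powp75 ψ.fieldRange {v, u} hC (p ^ e) hpe ?_ a
    rintro s (rfl | rfl)
    · exact ⟨s, hψ.1⟩
    · exact ⟨s, hψ.2⟩
  have hl : l ≠ 0 := by
    rintro rfl
    rw [zero_smul] at hψz
    exact hz (hinjC (by rw [hψz, map_zero]))
  have huni' : ∀ z : T.H 3 (adjoin Ω {a x, a y, b v, b u / a w} : IntermediateField Ω N), z = 0 := by
    apply T.uniruled
    refine huni N a (b v) (b u / a w) hbv ?_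
    have h2 : b u ^ n = b v ^ α * (1 - b v) ^ β := by
      rw [← map_pow, hu, map_mul, map_pow, map_pow, map_sub, map_one]
    have h3 : a w ≠ 0 := fun h => hw0 (a.injective (h.trans (map_zero a).symm))
    rw [div_pow, h2, div_mul_cancel₀ _ (pow_ne_zero _ h3)]
  have hPP : ∀ t ∈ U.map ((TensorProduct.mk L (T.H 2 K) (T.H 1 C)).flip z),
      TensorProduct.map (T.map 2 φ) (T.map 1 ψ) t ∈
        U.map ((TensorProduct.mk L (T.H 2 K) (T.H 1 C)).flip z) := by
    rintro _ ⟨s, hs, rfl⟩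
    refine ⟨l • T.map 2 φ s, Submodule.smul_mem _ _ (hP s hs), ?_⟩
    simp only [LinearMap.flip_apply, TensorProduct.mk_apply, TensorProduct.map_tmul]
    rw [hψz, TensorProduct.tmul_smul, TensorProduct.smul_tmul']
  refine semisimple_of_tensor (T.map 2 φ) (T.map 1 ψ) z hz l hl hψz U hP hPP ?_
  refine T.coniveau (Fact.out : p.Prime).ne_zero a b x y v e φ ψ hfin hfinC ?_ ?_ hbv ?_ ?_ _ ?_ hPP
  · intro s
    have : FiniteDimensional (adjoin Ω {x, y}) K :=
      Module.finite_of_finrank_pos (by rw [hdeg]; exact hn)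
    exact Algebra.IsAlgebraic.isAlgebraic s
  · intro s
    rw [← mem_AF]
    have h1 : adjoin Ω {v, u} ≤ AF Ω {v} := by
      rw [adjoin_le_iff]
      have hvm : v ∈ AF Ω {v} := subset_AF _ (by simp)
      rintro s (rfl | rfl)
      · exact hvm
      · apply AF_root hn
        rw [hu]
        exact mul_mem (pow_mem hvm _) (pow_mem (sub_mem (one_mem _) hvm) _)
    apply h1
    rw [hC]
    exact mem_top
  · unfold IsFrob
    rw [eq_top_iff, ← hK, adjoin_le_iff]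
    rintro s (rfl | rfl | rfl)
    · exact subset_adjoin _ _ hφ.1
    · exact subset_adjoin _ _ hφ.2.1
    · exact subset_adjoin _ _ hφ.2.2
  · unfold IsFrob
    rw [eq_top_iff, ← hC, adjoin_le_iff]
    rintro s (rfl | rfl)
    · exact subset_adjoin _ _ hψ.1
    · exact subset_adjoin _ _ hψ.2
  · rintro _ ⟨s, hs, rfl⟩
    simp only [LinearMap.flip_apply, TensorProduct.mk_apply, TensorProduct.lift.tmul,
      LinearMap.compl₁₂_apply]
    exact cross_zero T.toBaseTheory hn hn' hζ a b x y w v u hK hC hN hw0 hw σ hσ σ' hσ' huni' ξ hξ0 s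
      (hU s hs) z hσz

end Pool.Agent.Helper75.WC
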