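import Pool.Agent.Helper75.WC.Prim
import Pool.Agent.Helper75.WC.TameP
import Pool.Agent.Helper75.WC.GoodAb
import Pool.Agent.Helper75.TC.Final2

/-! Project WC. Frobenius is semisimple for a finite abelian extension `K / R` if it is on the
eigenclasses for the faithful characters, for all intermediate fields `M` with a cyclic Galois group
`Gal(M / R)`. -/

set_option autoImplicit false

namespace Pool.Agent.Helper75.WC

open IntermediateField Pool.Agent.Helper75.QC Pool.Agent.Helper75.TC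

variable {p : ℕ} [hpr : Fact p.Prime] {Ω L : Type} [Field Ω] [Field L]

/-- Frobenius is semisimple on the eigenclasses for the faithful characters. -/
def PrimGood (T : Theory p Ω L) (R M : Type) [Field R] [Field M] [Algebra Ω R] [Algebra Ω M]
    [Algebra R M] [IsScalarTower Ω R M] : Prop :=
  ∃ S : Set M, S.Finite ∧ ∀ (e : ℕ) (φ : M →ₐ[Ω] M), 0 < e → (∀ a ∈ S, φ a = a ^ p ^ e) →
    ∀ χ : (M ≃ₐ[R] M) →* Lˣ, ∀ U : Submodule L (T.H 2 M), (∀ s ∈ U, IsPrim T.toBaseTheory 2 χ s) →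
      ∀ hU : ∀ s ∈ U, T.map 2 φ s ∈ U,
        Module.End.IsSemisimple ((T.map 2 φ : Module.End L (T.H 2 M)).restrict hU)

variable [CharP Ω p] [IsAlgClosed Ω] [CharZero L] [IsAlgClosed L]

theorem Good.prim {T : Theory p Ω L} {R M : Type} [Field R] [Field M] [Algebra Ω R]
    [Algebra Ω M] [Algebra R M] [IsScalarTower Ω R M] (hM : (⊤ : IntermediateField Ω M).FG)
    (h : Good T M) : PrimGood T R M := by
  obtain ⟨S, hS⟩ := hM
  have hfin : FiniteDimensional L (T.H 2 M) := T.fin 2 M ⟨S, hS⟩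
  refine ⟨S, S.finite_toSet, fun e φ he hφ χ U hU hP => ?_⟩
  exact (h e φ he (isFrob_of_gen φ S hS hφ)).restrict _

/-- **Abelian extensions.** -/
theorem good_abelian_prim (hΩ : ∀ c : Ω, ∃ k : ℕ, 0 < k ∧ c ^ p ^ k = c) (T : Theory p Ω L)
    {K : Type} [Field K] [Algebra Ω K] (R : IntermediateField Ω K)
    (hR : (⊤ : IntermediateField Ω R).FG) [FiniteDimensional R K] [IsGalois R K]
    (hab : ∀ g h : K ≃ₐ[R] K, g * h = h * g)
    (h : ∀ M : IntermediateField R K, IsCyclic (M ≃ₐ[R] M) → PrimGood T R M) : Good T K := by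
  classical
  have hfin : Finite (IntermediateField R K) :=
    Finite.of_equiv _ (IsGalois.intermediateFieldEquivSubgroup (F := R) (E := K)).symm.toEquiv
  choose Q hQ1 hQ2 using exists_gen (Ω := Ω) (K := K) R hR
  have hQt : adjoin Ω (Q ⊤) = ⊤ := by
    rw [hQ2]
    rfl
  have hK : (⊤ : IntermediateField Ω K).FG := by
    rw [← hQt]
    exact fg_adjoin_of_finite (hQ1 _)
  have hMfg : ∀ M : IntermediateField R K, (⊤ : IntermediateField Ω M).FG := by
    intro M
    obtain ⟨S, hS⟩ := fg_sub (Ω := Ω) (hQ1 M)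
    let e : (adjoin Ω (Q M) : IntermediateField Ω K) →ₐ[Ω] M :=
      { toFun := fun x => ⟨x.1, (hQ2 M).le x.2⟩
        map_one' := rfl
        map_mul' := fun _ _ => rfl
        map_zero' := rfl
        map_add' := fun _ _ => rfl
        commutes' := fun _ => rfl }
    have h1 : adjoin Ω (e '' (S : Set _)) = ⊤ := by
      rw [← adjoin_map, hS, eq_top_iff]
      intro x _
      exact ⟨⟨x.1, (hQ2 M).ge x.2⟩, mem_top, rfl⟩
    rw [← h1]
    exact fg_adjoin_of_finite (S.finite_toSet.image _)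
  have h' : ∀ M : {M : IntermediateField R K // IsCyclic (M ≃ₐ[R] M)}, PrimGood T R M.1 :=
    fun M => h M.1 M.2
  choose S hS1 hS2 using h'
  -- a finite set, stable under the Galois group
  obtain ⟨P, hP⟩ : ∃ P : Set K, P = (⋃ M, Q M) ∪
      ⋃ M : {M : IntermediateField R K // IsCyclic (M ≃ₐ[R] M)}, (fun a : M.1 => (a : K)) '' S M :=
    ⟨_, rfl⟩
  have hPf : P.Finite := by
    rw [hP]
    exact (Set.finite_iUnion hQ1).union (Set.finite_iUnion fun M => (hS1 M).image _)
  obtain ⟨P', hP'⟩ : ∃ P' : Set K, P' = ⋃ g : K ≃ₐ[R] K, g '' P := ⟨_, rfl⟩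
  have hPf' : P'.Finite := by
    rw [hP']
    exact Set.finite_iUnion fun g => hPf.image _
  have hmem : ∀ (g : K ≃ₐ[R] K), ∀ a ∈ P, g a ∈ P' := by
    intro g a ha
    rw [hP']
    exact Set.mem_iUnion.2 ⟨g, a, ha, rfl⟩
  have hmem1 : ∀ a ∈ P, a ∈ P' := fun a ha => hmem 1 a ha
  have hQP : ∀ M, ∀ a ∈ Q M, a ∈ P := by
    intro M a ha
    rw [hP]
    exact Or.inl (Set.mem_iUnion.2 ⟨M, ha⟩)
  refine Good.of_pow T hK fun e φ he hφ => ?_
  obtain ⟨k, hk, hk'⟩ := frob_set hΩ φ hφ P' hPf'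
  have hk1 := hk' k dvd_rfl
  obtain ⟨Φ, hΦ⟩ : ∃ Φ : K →ₐ[Ω] K, Φ = φ ^ k := ⟨_, rfl⟩
  rw [← hΦ] at hk1
  refine ⟨k, hk, ?_⟩
  rw [← hΦ]
  -- it commutes with the Galois group
  have hcomm : ∀ (g : K ≃ₐ[R] K) (a : K), Φ (g a) = g (Φ a) := by
    intro g a
    have h1 : Φ.comp ((g : K →ₐ[R] K).restrictScalars Ω) =
        ((g : K →ₐ[R] K).restrictScalars Ω).comp Φ := by
      refine hom_ext (Q ⊤) hQt _ _ fun b hb => ?_
      show Φ (g b) = g (Φ b)
      rw [hk1 _ (hmem g b (hQP _ b hb)), hk1 b (hmem1 b (hQP _ b hb)), map_pow]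
    exact DFunLike.congr_fun h1 a
  -- its restriction to the intermediate fields
  have hmap : ∀ (M : IntermediateField R K) (a : M), Φ a ∈ M := by
    intro M a
    have h1 : adjoin Ω (Q M) ≤ (adjoin Ω (Q M)).comap Φ := by
      rw [adjoin_le_iff]
      intro b hb
      show Φ b ∈ adjoin Ω (Q M)
      rw [hk1 b (hmem1 b (hQP M b hb))]
      exact pow_mem (subset_adjoin _ _ hb) _
    rw [hQ2] at h1
    exact h1 (show (a : K) ∈ M.restrictScalars Ω from a.2)
  let ψ : ∀ M : IntermediateField R K, M →ₐ[Ω] M := fun M =>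
    { toFun := fun a => ⟨Φ a, hmap M a⟩
      map_one' := Subtype.ext (map_one _)
      map_mul' := fun a b => Subtype.ext (map_mul Φ (a : K) b)
      map_zero' := Subtype.ext (map_zero _)
      map_add' := fun a b => Subtype.ext (map_add Φ (a : K) b)
      commutes' := fun c => Subtype.ext (Φ.commutes c) }
  have hψ : ∀ (M : IntermediateField R K) (s : T.H 2 M),
      T.map 2 (incl R M) (T.map 2 (ψ M) s) = T.map 2 Φ (T.map 2 (incl R M) s) := by
    intro M s
    have h1 : (incl R M).comp (ψ M) = Φ.comp (incl R M) := AlgHom.ext fun a => rfl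
    have h2 := congrArg (fun g => T.map 2 g s) h1
    simp only [T.map_comp, LinearMap.comp_apply] at h2
    exact h2
  have hfinK : FiniteDimensional L (T.H 2 K) := T.fin 2 K hK
  -- the eigenspaces
  let E : ((K ≃ₐ[R] K) →* Lˣ) → Submodule L (T.H 2 K) := fun χ =>
    ⨅ g, (galRep T.toBaseTheory R 2 g).eigenspace (χ g : L)
  have hE : ∀ χ (t : T.H 2 K), t ∈ E χ ↔ ∀ g, galRep T.toBaseTheory R 2 g t = (χ g : L) • t := by
    intro χ t
    rw [Submodule.mem_iInf]
    exact forall_congr' fun g => Module.End.mem_eigenspace_iff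
  have hEΦ : ∀ χ, ∀ t ∈ E χ, T.map 2 Φ t ∈ E χ := by
    intro χ t ht
    rw [hE] at ht ⊢
    intro g
    have h1 : ((g : K →ₐ[R] K).restrictScalars Ω).comp Φ =
        Φ.comp ((g : K →ₐ[R] K).restrictScalars Ω) := AlgHom.ext fun a => (hcomm g a).symm
    have h2 := congrArg (fun k => T.map 2 k t) h1
    simp only [T.map_comp, LinearMap.comp_apply] at h2
    show T.map 2 ((g : K →ₐ[R] K).restrictScalars Ω) (T.map 2 Φ t) = _
    rw [h2]
    have h3 : T.map 2 ((g : K →ₐ[R] K).restrictScalars Ω) t = (χ g : L) • t := ht g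
    rw [h3, map_smul]
  have hss : ∀ χ, Module.End.IsSemisimple
      ((T.map 2 Φ : Module.End L (T.H 2 K)).restrict (hEΦ χ)) := by
    intro χ
    obtain ⟨M, hcyc, hG, χ', hχ', hext⟩ := eigen_prim T.toBaseTheory R hab 2 χ
    have hfinM : FiniteDimensional L (T.H 2 M) := T.fin 2 M (hMfg M)
    let U : Submodule L (T.H 2 M) :=
      ⨅ g : M ≃ₐ[R] M, Module.End.eigenspace (T.map 2 (autHom Ω g)) (χ' g : L)
    have hU : ∀ s ∈ U, IsPrim T.toBaseTheory 2 χ' s := by
      intro s hs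
      refine ⟨hχ', fun g => ?_⟩
      rw [Submodule.mem_iInf] at hs
      exact Module.End.mem_eigenspace_iff.1 (hs g)
    have hU' : ∀ s, IsPrim T.toBaseTheory 2 χ' s → s ∈ U := by
      intro s hs
      rw [Submodule.mem_iInf]
      exact fun g => Module.End.mem_eigenspace_iff.2 (hs.2 g)
    have hUP : ∀ s ∈ U, T.map 2 (ψ M) s ∈ U := by
      intro s hs
      apply hU'
      refine ⟨hχ', fun g' => ?_⟩
      obtain ⟨g, hg⟩ := (exists_restrict hab M).2.2 g'
      have h1 : (autHom Ω g').comp (ψ M) = (ψ M).comp (autHom Ω g') := by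
        refine AlgHom.ext fun a => Subtype.ext ?_
        show ((g' (ψ M a) : M) : K) = Φ ((g' a : M) : K)
        rw [hg, hg, hcomm]
        rfl
      have h2 := congrArg (fun k => T.map 2 k s) h1
      simp only [T.map_comp, LinearMap.comp_apply] at h2
      rw [h2, (hU s hs).2 g', map_smul]
    have h1 := hS2 ⟨M, hcyc⟩ (e * k) (ψ M) (Nat.mul_pos he hk) (fun a ha => Subtype.ext (by
      show Φ (a : K) = _
      rw [hk1 _ (hmem1 _ (by
        rw [hP]
        exact Or.inr (Set.mem_iUnion.2 ⟨⟨M, hcyc⟩, a, ha, rfl⟩)))]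
      rfl)) χ' U hU hUP
    have hfinU : FiniteDimensional L U := inferInstance
    refine restrict_of_range (T.map 2 Φ) _ ((T.map 2 (incl R M)).comp U.subtype) (fun w => ?_) h1 _
      (hEΦ χ) fun t ht => ?_
    · exact hψ M w
    · obtain ⟨s, hs, hs'⟩ := hext t ((hE χ t).1 ht)
      exact ⟨⟨s, hU' s hs⟩, hs'⟩
  refine semisimple_of_iSup (T.map 2 Φ) (fun χ => E χ)
    (fun χ => (T.map 2 Φ : Module.End L (T.H 2 K)).restrict (hEΦ χ)) (fun χ => (E χ).subtype)
    (fun χ => Subtype.val_injective) (fun χ v => rfl) hss ?_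
  rw [eq_top_iff]
  intro t _
  have h1 := mem_iSup_eigen hab (galRep T.toBaseTheory R 2) t
  simpa only [Submodule.range_subtype] using h1

end Pool.Agent.Helper75.WC
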