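import Pool.Agent.Helper75.WC.CurveSound

/-! Project WC. A line is made the line `x = 0`. -/

set_option autoImplicit false

namespace Pool.Agent.Helper75.WC

open IntermediateField MvPolynomial

/-- `f(x, y)` as a polynomial in new affine coordinates. -/
theorem moved_aff {Ω R : Type} [Field Ω] [Field R] [Algebra Ω R] {x y x' y' : R}
    {A B : MvPolynomial (Fin 2) Ω} (hA : A.totalDegree ≤ 1) (hB : B.totalDegree ≤ 1)
    (hx : aeval ![x', y'] A = x) (hy : aeval ![x', y'] B = y)
    (f : MvPolynomial (Fin 2) Ω) {d : ℕ} (hf : f.totalDegree ≤ d) :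
    ∃ f' : MvPolynomial (Fin 2) Ω, f'.totalDegree ≤ d ∧
      aeval ![x', y'] f' = aeval ![x, y] f := by
  classical
  refine ⟨∑ m ∈ f.support, C (f.coeff m) * (A ^ m 0 * B ^ m 1), ?_, ?_⟩
  · refine totalDegree_finsetSum_le fun m hm => ?_
    have h1 : m 0 + m 1 ≤ d := by
      have := (le_totalDegree hm).trans hf
      rwa [Finsupp.sum_fintype _ _ (fun _ => rfl), Fin.sum_univ_two] at this
    calc (C (f.coeff m) * (A ^ m 0 * B ^ m 1)).totalDegree
        ≤ 0 + (m 0 * 1 + m 1 * 1) := by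
          refine (totalDegree_mul _ _).trans (add_le_add (by rw [totalDegree_C]) ?_)
          refine (totalDegree_mul _ _).trans (add_le_add ?_ ?_)
          · exact (totalDegree_pow _ _).trans (Nat.mul_le_mul_left _ hA)
          · exact (totalDegree_pow _ _).trans (Nat.mul_le_mul_left _ hB)
      _ ≤ d := by omega
  · have h2 : aeval ![x, y] f = ∑ m ∈ f.support, algebraMap Ω R (f.coeff m) *
        (x ^ m 0 * y ^ m 1) := by
      rw [aeval_def, eval₂_eq']
      refine Finset.sum_congr rfl fun m _ => ?_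
      rw [Fin.prod_univ_two]
      rfl
    rw [h2, map_sum]
    refine Finset.sum_congr rfl fun m hm => ?_
    rw [map_mul, map_mul, map_pow, map_pow, hx, hy, aeval_C]

/-- A linear form in two variables. -/
theorem line_form {Ω : Type} [Field Ω] {l : MvPolynomial (Fin 2) Ω} (hl : l.totalDegree ≤ 1) :
    ∃ α β γ : Ω, l = C α * X 0 + C β * X 1 + C γ := by
  classical
  refine ⟨l.coeff (Finsupp.single 0 1), l.coeff (Finsupp.single 1 1), l.coeff 0, ?_⟩
  have n1 : (Finsupp.single (0 : Fin 2) 1 : Fin 2 →₀ ℕ) ≠ Finsupp.single 1 1 := by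
    intro h
    have := DFunLike.congr_fun h 0
    simp at this
  have n2 : (Finsupp.single (0 : Fin 2) 1 : Fin 2 →₀ ℕ) ≠ 0 := by simp
  have n3 : (Finsupp.single (1 : Fin 2) 1 : Fin 2 →₀ ℕ) ≠ 0 := by simp
  ext m
  rw [coeff_add, coeff_add, coeff_C_mul, coeff_C_mul, coeff_X, coeff_X, coeff_C]
  by_cases e1 : Finsupp.single 0 1 = m
  · subst e1
    simp [n1.symm, n2.symm]
  by_cases e2 : Finsupp.single 1 1 = m
  · subst e2
    simp [n1, n3.symm]
  by_cases e3 : 0 = m
  · subst e3
    simp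
  have h2 : l.coeff m = 0 := by
    by_contra h
    have hm : m ∈ l.support := mem_support_iff.2 h
    have h1 : m 0 + m 1 ≤ 1 := by
      have := (le_totalDegree hm).trans hl
      rwa [Finsupp.sum_fintype _ _ (fun _ => rfl), Fin.sum_univ_two] at this
    have h4 : m 0 = 0 ∧ m 1 = 0 ∨ m 0 = 1 ∧ m 1 = 0 ∨ m 0 = 0 ∧ m 1 = 1 := by omega
    rcases h4 with ⟨h5, h6⟩ | ⟨h5, h6⟩ | ⟨h5, h6⟩
    · apply e3
      ext i
      fin_cases i
      · simpa using h5.symm
      · simpa using h6.symm
    · apply e1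
      ext i
      fin_cases i
      · simpa using h5.symm
      · simpa using h6.symm
    · apply e2
      ext i
      fin_cases i
      · simpa using h5.symm
      · simpa using h6.symm
  rw [h2]
  simp [e1, e2, e3]

/-- New coordinates in which a line is the line `x' = 0`. -/
theorem new_axis {Ω R : Type} [Field Ω] [Field R] [Algebra Ω R] {x y : R}
    (hR : adjoin Ω {x, y} = ⊤) {l : MvPolynomial (Fin 2) Ω} (hl : l.totalDegree ≤ 1)
    (hl' : ¬ l.totalDegree ≤ 0) :
    ∃ (x' y' : R) (A B : MvPolynomial (Fin 2) Ω), adjoin Ω {x', y'} = ⊤ ∧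
      aeval ![x, y] l = x' ∧ A.totalDegree ≤ 1 ∧ B.totalDegree ≤ 1 ∧
      aeval ![x', y'] A = x ∧ aeval ![x', y'] B = y := by
  classical
  obtain ⟨α, β, γ, rfl⟩ := line_form hl
  obtain ⟨L, hL⟩ : ∃ L : R, L = algebraMap Ω R α * x + algebraMap Ω R β * y + algebraMap Ω R γ :=
    ⟨_, rfl⟩
  have hα : aeval ![x, y] (C α * X 0 + C β * X 1 + C γ : MvPolynomial (Fin 2) Ω) = L := by
    rw [hL]
    simp
  have hdeg : ∀ (c a b d : Ω), (C c * (C a + C b * X 0 + C d * X 1) :
      MvPolynomial (Fin 2) Ω).totalDegree ≤ 1 := by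
    intro c a b d
    refine (totalDegree_mul _ _).trans ?_
    rw [totalDegree_C, zero_add]
    refine (totalDegree_add _ _).trans (max_le ((totalDegree_add _ _).trans (max_le ?_ ?_)) ?_)
    · rw [totalDegree_C]
      omega
    · refine (totalDegree_mul _ _).trans ?_
      rw [totalDegree_C, zero_add]
      exact (totalDegree_X 0).le
    · refine (totalDegree_mul _ _).trans ?_
      rw [totalDegree_C, zero_add]
      exact (totalDegree_X 1).le
  by_cases hβ : β = 0
  · subst hβ
    have hα0 : α ≠ 0 := by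
      rintro rfl
      apply hl'
      simp
    have hαR : algebraMap Ω R α ≠ 0 := by simpa using hα0
    have h4 : x = (L - algebraMap Ω R γ) / algebraMap Ω R α := by
      rw [hL, map_zero]
      field_simp
      ring
    refine ⟨L, y, C α⁻¹ * (C (-γ) + C 1 * X 0 + C 0 * X 1), X 1, ?_, hα, hdeg _ _ _ _, ?_, ?_, ?_⟩
    · rw [eq_top_iff, ← hR, adjoin_le_iff]
      set F := adjoin Ω {L, y} with hF
      have h1 : L ∈ F := subset_adjoin _ _ (by simp)
      have h2 : y ∈ F := subset_adjoin _ _ (by simp)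
      intro z hz
      rcases hz with hz | hz
      · rw [SetLike.mem_coe, hz, h4]
        exact div_mem (sub_mem h1 (F.algebraMap_mem _)) (F.algebraMap_mem _)
      · rw [Set.mem_singleton_iff] at hz
        rwa [hz]
    · exact (totalDegree_X 1).le
    · simp only [map_mul, map_add, aeval_C, aeval_X, map_neg, map_one, map_inv₀, map_zero]
      change _ * (-algebraMap Ω R γ + 1 * L + 0 * y) = _
      rw [h4]
      field_simp
      ring
    · rw [aeval_X]
      rfl
  · have hβR : algebraMap Ω R β ≠ 0 := by simpa using hβ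
    have h4 : y = (L - algebraMap Ω R α * x - algebraMap Ω R γ) / algebraMap Ω R β := by
      rw [hL]
      field_simp
      ring
    refine ⟨L, x, X 1, C β⁻¹ * (C (-γ) + C 1 * X 0 + C (-α) * X 1), ?_, hα, ?_, hdeg _ _ _ _, ?_,
      ?_⟩
    · rw [eq_top_iff, ← hR, adjoin_le_iff]
      set F := adjoin Ω {L, x} with hF
      have h1 : L ∈ F := subset_adjoin _ _ (by simp)
      have h2 : x ∈ F := subset_adjoin _ _ (by simp)
      intro z hz
      rcases hz with hz | hz
      · rwa [hz]
      · rw [Set.mem_singleton_iff] at hz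
        rw [SetLike.mem_coe, hz, h4]
        exact div_mem (sub_mem (sub_mem h1 (mul_mem (F.algebraMap_mem _) h2)) (F.algebraMap_mem _))
          (F.algebraMap_mem _)
    · exact (totalDegree_X 1).le
    · rw [aeval_X]
      rfl
    · simp only [map_mul, map_add, aeval_C, aeval_X, map_neg, map_one, map_inv₀]
      change _ * (-algebraMap Ω R γ + 1 * L + -algebraMap Ω R α * x) = _
      rw [eq_comm, h4]
      field_simp
      ring

/-- **The component `e1`, a line, is made the line `x = 0`.** -/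
theorem Rep.axis {Ω R M : Type} [Field Ω] [Field R] [Field M] [Algebra Ω R]
    [Algebra Ω M] [Algebra R M] {n : ℕ} {D : ℕ → ℕ} (H : Rep Ω R M n D) {e1 : ℕ}
    (hD : D e1 ≤ 1) :
    ∃ H' : Rep Ω R M n D, H'.P e1 = X 0 ∨ (H'.P e1).totalDegree ≤ 0 := by
  classical
  by_cases h1 : (H.P e1).totalDegree ≤ 0
  · exact ⟨H, Or.inr h1⟩
  obtain ⟨x', y', A, B, hgen, hl, hA, hB, hx, hy⟩ :=
    new_axis H.gen ((H.deg e1).trans hD) h1
  choose Q hQ1 hQ2 using fun e => moved_aff hA hB hx hy (H.P e) (H.deg e)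
  have h2 : ∀ e, aeval ![x', y'] (Function.update Q e1 (X 0) e) = aeval ![H.x, H.y] (H.P e) := by
    intro e
    by_cases h2 : e = e1
    · subst h2
      rw [Function.update_self, aeval_X, hl]
      rfl
    · rw [Function.update_of_ne h2, hQ2]
  refine ⟨⟨x', y', H.w, Function.update Q e1 (X 0), hgen, H.top, fun e => ?_, fun e => ?_, ?_⟩,
    Or.inl (Function.update_self _ _ _)⟩
  · by_cases h3 : e = e1
    · subst h3
      rw [Function.update_self, totalDegree_X]
      by_contra h4
      apply h1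
      have := H.deg e
      omega
    · rw [Function.update_of_ne h3]
      exact hQ1 e
  · rw [h2]
    exact H.ne e
  · simp only [h2]
    exact H.eq

variable {Ω R M : Type} [Field Ω] [IsAlgClosed Ω] [Field R] [Field M] [Algebra Ω R] [Algebra Ω M]
    [Algebra R M] [IsScalarTower Ω R M]

theorem degLE_y {Ω : Type} [Field Ω] {n : ℕ} {P : ℕ → MvPolynomial (Fin 2) Ω} {D : ℕ → ℕ}
    (hP : ∀ e, (P e).totalDegree ≤ D e) {e1 : ℕ} (h1 : P e1 = X 0 ∨ (P e1).totalDegree ≤ 0)
    (a : ℕ → ℕ) {k i : ℕ}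
    (h : ∑ e ∈ Finset.range n, a e * Function.update D e1 0 e ≤ k) :
    DegLE 0 1 0 i k (prodP n P a) := by
  classical
  intro m hm
  have h2 : (prodP n P a).degreeOf 1 ≤ ∑ e ∈ Finset.range n, a e * Function.update D e1 0 e := by
    unfold prodP
    refine (degreeOf_prod_le 1 _ _).trans (Finset.sum_le_sum fun e _ => ?_)
    refine (degreeOf_pow_le 1 _ _).trans (Nat.mul_le_mul_left _ ?_)
    by_cases h3 : e = e1
    · subst h3
      rw [Function.update_self]
      rcases h1 with h1 | h1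
      · rw [h1, degreeOf_X_of_ne (by decide)]
      · exact (degreeOf_le_totalDegree _ _).trans h1
    · rw [Function.update_of_ne h3]
      exact (degreeOf_le_totalDegree _ _).trans (hP e)
  have h3 : m 1 ≤ (prodP n P a).degreeOf 1 := monomial_le_degreeOf 1 hm
  omega

theorem Rep.lstP {n : ℕ} {D : ℕ → ℕ} (H : Rep Ω R M n D) (hn : 0 < n) {t e1 : ℕ}
    (ht : t.Coprime n) (v φ : ℕ → ℕ) (h : ∀ e < n, D e = 0 ∨ (t * e + 2 * v e) % n = φ e % n)
    (he : D e1 ≤ 1)
    (hG : ∑ e ∈ Finset.range n, v e * Function.update D e1 0 e ≤ 1)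
    (hF : ∑ e ∈ Finset.range n, φ e * Function.update D e1 0 e ≤ 2) : Lst Ω R M n := by
  obtain ⟨H', h1⟩ := H.axis he
  obtain ⟨w', h2, h3⟩ := H'.twist hn ht (fun e => 2 * v e) φ h
  refine ⟨H'.x, H'.y, w', H'.gen, h2, Or.inl ⟨0, 1, 0, n, n, prodP n H'.P φ, prodP n H'.P v,
    by omega, Or.inr rfl, degLE_y H'.deg h1 φ hF, Or.inl ⟨Or.inl (by omega),
    degLE_y H'.deg h1 v hG, ?_, ?_⟩⟩⟩
  · rw [aeval_map75]
    exact fun h0 => prodP_ne H'.ne v ((map_eq_zero (algebraMap R M)).1 h0)
  · rw [aeval_map75, aeval_map75, ← h3, prodP_mul, map_pow, map_pow]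

end Pool.Agent.Helper75.WC
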