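import Pool.Agent.Helper75.WC.RowData

/-! Project WC. Cyclic covers of the plane branched along a curve of small degree: twists of the
generator `w` and the change of the line at infinity. -/

set_option autoImplicit false

namespace Pool.Agent.Helper75.WC

open IntermediateField Pool.Agent.Helper75.QC

/-- The equation `w ^ n = f ^ a g ^ b h ^ c` for a cubic and a conic, or for three conics. -/
def IsTab (Ω : Type) {M : Type} [Field Ω] [Field M] [Algebra Ω M] (n : ℕ) (x y w : M) : Prop :=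
  ∃ (a b c : ℕ) (f g h : MvPolynomial (Fin 2) Ω),
    (f.totalDegree ≤ 3 ∧ g.totalDegree ≤ 2 ∧ h = 1 ∧ n ∣ 3 * a + 2 * b ∨
      f.totalDegree ≤ 2 ∧ g.totalDegree ≤ 2 ∧ h.totalDegree ≤ 2 ∧ n ∣ a + b + c) ∧
    w ^ n = MvPolynomial.aeval ![x, y] f ^ a * MvPolynomial.aeval ![x, y] g ^ b *
      MvPolynomial.aeval ![x, y] h ^ c

/-- `M = R(w)` is given by one of the equations. -/
def Lst (Ω R M : Type) [Field Ω] [Field R] [Field M] [Algebra Ω R] [Algebra Ω M]
    [Algebra R M] (n : ℕ) : Prop :=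
  ∃ (x y : R) (w : M), adjoin Ω {x, y} = ⊤ ∧ adjoin R {w} = ⊤ ∧
    (IsWeighted Ω n (algebraMap R M x) (algebraMap R M y) w ∨
      IsTab Ω n (algebraMap R M x) (algebraMap R M y) w)

/-- `w ^ n = ∏ P e (x, y) ^ e`, `e < n`, `deg (P e) ≤ D e`. -/
structure Rep (Ω R M : Type) [Field Ω] [Field R] [Field M] [Algebra Ω R] [Algebra Ω M]
    [Algebra R M] (n : ℕ) (D : ℕ → ℕ) where
  x : R
  y : R
  w : M
  P : ℕ → MvPolynomial (Fin 2) Ω
  gen : adjoin Ω {x, y} = ⊤
  top : adjoin R {w} = ⊤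
  deg : ∀ e, (P e).totalDegree ≤ D e
  ne : ∀ e, MvPolynomial.aeval ![x, y] (P e) ≠ 0
  eq : w ^ n = algebraMap R M (∏ e ∈ Finset.range n, MvPolynomial.aeval ![x, y] (P e) ^ e)

section

variable {Ω R M : Type} [Field Ω] [Field R] [Field M] [Algebra Ω R] [Algebra Ω M]
    [Algebra R M]

/-- Twist of the generator. -/
theorem twist {w : M} {n t : ℕ} (hn : 0 < n) (hw : adjoin R {w} = ⊤) (ht : t.Coprime n)
    {u : R} (hu : u ≠ 0) (hwu : w ^ n = algebraMap R M u) {a b z : R} (hz : z ≠ 0)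
    (h : u ^ t * a = b * z ^ n) :
    ∃ w' : M, adjoin R {w'} = ⊤ ∧ w' ^ n * algebraMap R M a = algebraMap R M b := by
  have hzM : algebraMap R M z ≠ 0 := by simpa using hz
  have huM : algebraMap R M u ≠ 0 := by simpa using hu
  have hw0 : w ≠ 0 := by
    rintro rfl
    rw [zero_pow hn.ne'] at hwu
    exact huM hwu.symm
  refine ⟨w ^ t / algebraMap R M z, ?_, ?_⟩
  · rw [eq_top_iff, ← hw, adjoin_le_iff]
    rintro _ rfl
    set F := adjoin R {_ ^ t / algebraMap R M z} with hF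
    rename_i w
    have h1 : w ^ t / algebraMap R M z ∈ F := subset_adjoin _ _ rfl
    have h2 : w ^ t ∈ F := by
      have h3 := mul_mem h1 (F.algebraMap_mem z)
      rwa [div_mul_cancel₀ _ hzM] at h3
    have h4 : w ^ n ∈ F := by
      rw [hwu]
      exact F.algebraMap_mem u
    -- `1 = t s - n k` or so
    have h5 : (w : M) = (w ^ t) ^ (Int.gcdA t n) * (w ^ n) ^ (Int.gcdB t n) := by
      have h6 : (1 : ℤ) = t * Int.gcdA t n + n * Int.gcdB t n := by
        have := Int.gcd_eq_gcd_ab (t : ℤ) n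
        rw [Int.gcd_natCast_natCast, ht] at this
        exact_mod_cast this
      rw [← zpow_natCast w t, ← zpow_natCast w n, ← zpow_mul, ← zpow_mul, ← zpow_add₀ hw0, ← h6,
        zpow_one]
    rw [SetLike.mem_coe, h5]
    exact mul_mem (zpow_mem h2 _) (zpow_mem h4 _)
  · rw [div_pow, ← pow_mul, mul_comm t n, pow_mul, hwu, ← map_pow, ← map_pow, div_mul_eq_mul_div,
      ← map_mul, h, map_mul, mul_div_assoc, div_self, mul_one]
    rw [map_pow]
    exact pow_ne_zero _ hzM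

end

/-- comparison of the exponents of one factor -/
theorem exps {Ω R : Type} [Field Ω] [IsAlgClosed Ω] [Field R] [Algebra Ω R] {n : ℕ} (hn : 0 < n)
    {p : R} (hp : p ≠ 0) {d : ℕ} (hd : d = 0 → ∃ c : Ω, p = algebraMap Ω R c) (s a b : ℕ)
    (h : d = 0 ∨ (s + a) % n = b % n) : ∃ z : R, z ≠ 0 ∧ p ^ s * p ^ a = p ^ b * z ^ n := by
  rcases h with h | h
  · obtain ⟨c, rfl⟩ := hd h
    have hc : c ≠ 0 := by
      rintro rfl
      exact hp (map_zero _)
    obtain ⟨g, hg⟩ := IsAlgClosed.exists_pow_nat_eq (c ^ (s + a) * (c ^ b)⁻¹) hn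
    refine ⟨algebraMap Ω R g, ?_, ?_⟩
    · intro h0
      have h1 : g = 0 := by simpa using h0
      rw [h1, zero_pow hn.ne'] at hg
      exact mul_ne_zero (pow_ne_zero _ hc) (inv_ne_zero (pow_ne_zero _ hc)) hg.symm
    · rw [← map_pow _ g, hg, ← pow_add, ← map_pow, ← map_pow, ← map_mul]
      congr 1
      field_simp
  · refine ⟨p ^ (((s + a : ℕ) : ℤ) / n - (b : ℤ) / n), zpow_ne_zero _ hp, ?_⟩
    rw [← pow_add, ← zpow_natCast p (s + a), ← zpow_natCast p b, ← zpow_natCast _ n, ← zpow_mul,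
      ← zpow_add₀ hp]
    congr 1
    have h1 := Int.emod_add_mul_ediv ((s + a : ℕ) : ℤ) n
    have h2 := Int.emod_add_mul_ediv (b : ℤ) n
    have h3 : ((s + a : ℕ) : ℤ) % n = (b : ℤ) % n := by exact_mod_cast h
    linear_combination -h1 + h2 + h3

section

variable {Ω R M : Type} [Field Ω] [Field R] [Field M] [Algebra Ω R] [Algebra Ω M]
    [Algebra R M]

theorem aeval_const (x y : R) {P : MvPolynomial (Fin 2) Ω} (h : P.totalDegree ≤ 0) :
    ∃ c : Ω, MvPolynomial.aeval ![x, y] P = algebraMap Ω R c := by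
  obtain ⟨c, hc⟩ : ∃ c, P = MvPolynomial.C c :=
    ⟨_, MvPolynomial.totalDegree_eq_zero_iff_eq_C.1 (Nat.le_zero.1 h)⟩
  exact ⟨c, by rw [hc, MvPolynomial.aeval_C]⟩

end

/-- the product of powers -/
noncomputable def prodP {Ω : Type} [Field Ω] (n : ℕ) (P : ℕ → MvPolynomial (Fin 2) Ω)
    (a : ℕ → ℕ) : MvPolynomial (Fin 2) Ω :=
  ∏ e ∈ Finset.range n, P e ^ a e

theorem prodP_deg {Ω : Type} [Field Ω] {n : ℕ} {P : ℕ → MvPolynomial (Fin 2) Ω} {D : ℕ → ℕ}
    (hP : ∀ e, (P e).totalDegree ≤ D e) (a : ℕ → ℕ) :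
    (prodP n P a).totalDegree ≤ ∑ e ∈ Finset.range n, a e * D e := by
  refine (MvPolynomial.totalDegree_finsetProd _ _).trans (Finset.sum_le_sum fun e _ => ?_)
  exact (MvPolynomial.totalDegree_pow _ _).trans (Nat.mul_le_mul_left _ (hP e))

theorem prodP_add {Ω : Type} [Field Ω] {n : ℕ} {P : ℕ → MvPolynomial (Fin 2) Ω} (a b : ℕ → ℕ) :
    prodP n P (fun e => a e + b e) = prodP n P a * prodP n P b := by
  unfold prodP
  rw [← Finset.prod_mul_distrib]
  exact Finset.prod_congr rfl fun e _ => pow_add _ _ _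

theorem prodP_mul {Ω : Type} [Field Ω] {n : ℕ} {P : ℕ → MvPolynomial (Fin 2) Ω} (k : ℕ)
    (a : ℕ → ℕ) : prodP n P (fun e => k * a e) = prodP n P a ^ k := by
  unfold prodP
  rw [← Finset.prod_pow]
  refine Finset.prod_congr rfl fun e _ => ?_
  change P e ^ (k * a e) = _
  rw [mul_comm, pow_mul]

theorem prodP_ne {Ω R : Type} [Field Ω] [Field R] [Algebra Ω R] {x y : R} {n : ℕ}
    {P : ℕ → MvPolynomial (Fin 2) Ω} (hP : ∀ e, MvPolynomial.aeval ![x, y] (P e) ≠ 0)
    (a : ℕ → ℕ) : MvPolynomial.aeval ![x, y] (prodP n P a) ≠ 0 := by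
  unfold prodP
  rw [map_prod, Finset.prod_ne_zero_iff]
  intro e _
  rw [map_pow]
  exact pow_ne_zero _ (hP e)

/-- **Twist of a representation.** -/
theorem Rep.twist {Ω R M : Type} [Field Ω] [IsAlgClosed Ω] [Field R] [Field M] [Algebra Ω R]
    [Algebra Ω M] [Algebra R M] {n : ℕ} {D : ℕ → ℕ} (H : Rep Ω R M n D) (hn : 0 < n) {t : ℕ}
    (ht : t.Coprime n) (a b : ℕ → ℕ)
    (h : ∀ e < n, D e = 0 ∨ (t * e + a e) % n = b e % n) :
    ∃ w' : M, adjoin R {w'} = ⊤ ∧
      w' ^ n * algebraMap R M (MvPolynomial.aeval ![H.x, H.y] (prodP n H.P a)) =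
        algebraMap R M (MvPolynomial.aeval ![H.x, H.y] (prodP n H.P b)) := by
  classical
  have h1 : ∀ e, ∃ z : R, z ≠ 0 ∧ (e < n → MvPolynomial.aeval ![H.x, H.y] (H.P e) ^ (t * e) *
      MvPolynomial.aeval ![H.x, H.y] (H.P e) ^ a e =
        MvPolynomial.aeval ![H.x, H.y] (H.P e) ^ b e * z ^ n) := by
    intro e
    by_cases he : e < n
    · obtain ⟨z, hz, hz'⟩ := exps (Ω := Ω) hn (H.ne e) (d := D e)
        (fun h0 => aeval_const H.x H.y ((H.deg e).trans h0.le)) (t * e) (a e) (b e) (h e he)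
      exact ⟨z, hz, fun _ => hz'⟩
    · exact ⟨1, one_ne_zero, fun h => absurd h he⟩
  choose z hz hz' using h1
  refine Pool.Agent.Helper75.WC.twist (z := ∏ e ∈ Finset.range n, z e) hn H.top ht (u := _) ?_ H.eq
    (Finset.prod_ne_zero_iff.2 fun e _ => hz e) ?_
  · rw [Finset.prod_ne_zero_iff]
    exact fun e _ => pow_ne_zero _ (H.ne e)
  · unfold prodP
    rw [map_prod, map_prod, ← Finset.prod_pow, ← Finset.prod_pow, ← Finset.prod_mul_distrib,
      ← Finset.prod_mul_distrib]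
    refine Finset.prod_congr rfl fun e he => ?_
    rw [map_pow, map_pow, ← pow_mul, mul_comm e t]
    exact hz' e (Finset.mem_range.1 he)

end Pool.Agent.Helper75.WC
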