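import Pool.Agent.Helper75.WC.CurveCert

/-! Project WC. The certificates for the exponents `n ≤ 7` and `n = 10`. -/

set_option autoImplicit false

namespace Pool.Agent.Helper75.WC

def certs1 : List Cert := [
  ⟨[0], 0, 0, 1, [1, 0, 0, 1], [], [], []⟩]

theorem covers1 : Covers 1 certs1 := by decide +kernel

def certs2 : List Cert := [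
  ⟨[0, 0], 0, 0, 1, [1, 0, 0, 2], [], [], []⟩,
  ⟨[0, 2], 0, 0, 1, [1, 0, 0, 2], [], [0, 1], []⟩,
  ⟨[0, 4], 0, 0, 1, [1, 0, 0, 2], [], [0, 1], []⟩]

theorem covers2 : Covers 2 certs2 := by decide +kernel

def certs3 : List Cert := [
  ⟨[0, 0, 0], 0, 0, 1, [1, 0, 0, 3], [], [], []⟩,
  ⟨[0, 1, 1], 0, 0, 1, [1, 0, 0, 3], [], [0, 1, 2], []⟩,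
  ⟨[0, 3, 0], 0, 0, 1, [1, 0, 0, 3], [], [0, 1], []⟩,
  ⟨[0, 0, 3], 0, 0, 1, [1, 2, 2, 1], [], [0, 0, 2], []⟩,
  ⟨[0, 2, 2], 0, 0, 1, [1, 2, 2, 1], [], [0, 1, 2], []⟩,
  ⟨[0, 4, 1], 0, 0, 1, [1, 2, 2, 1], [], [0, 1, 2], []⟩,
  ⟨[0, 1, 4], 0, 0, 2, [1, 2, 2, 1], [], [0, 2, 1], []⟩]

theorem covers3 : Covers 3 certs3 := by decide +kernel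

def certs4 : List Cert := [
  ⟨[0, 0, 0, 0], 0, 0, 1, [1, 0, 0, 4], [], [], []⟩,
  ⟨[0, 1, 0, 1], 0, 0, 1, [1, 0, 0, 4], [], [0, 1, 0, 3], []⟩,
  ⟨[0, 0, 2, 0], 0, 0, 1, [1, 0, 0, 4], [], [0, 0, 2], []⟩,
  ⟨[0, 2, 1, 0], 0, 0, 1, [1, 0, 0, 4], [], [0, 1, 2], []⟩,
  ⟨[0, 0, 1, 2], 0, 0, 1, [1, 2, 2, 0], [], [0, 0, 2, 3], []⟩,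
  ⟨[0, 4, 0, 0], 0, 0, 1, [1, 0, 0, 4], [], [0, 1], []⟩,
  ⟨[0, 2, 0, 2], 0, 0, 1, [1, 2, 2, 0], [], [0, 1, 0, 3], []⟩,
  ⟨[0, 1, 2, 1], 0, 0, 1, [1, 2, 2, 0], [], [0, 1, 2, 3], []⟩,
  ⟨[0, 0, 4, 0], 0, 0, 1, [1, 2, 2, 0], [], [0, 0, 2], []⟩,
  ⟨[0, 0, 0, 4], 0, 0, 3, [1, 0, 0, 4], [], [0, 0, 0, 1], []⟩,
  ⟨[0, 3, 1, 1], 0, 0, 1, [1, 2, 2, 0], [], [0, 1, 2, 3], []⟩,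
  ⟨[0, 2, 3, 0], 0, 0, 1, [1, 2, 2, 0], [], [0, 1, 2], []⟩,
  ⟨[0, 1, 1, 3], 0, 0, 3, [1, 2, 2, 0], [], [0, 3, 2, 1], []⟩,
  ⟨[0, 0, 3, 2], 0, 0, 3, [1, 2, 2, 0], [], [0, 0, 2, 1], []⟩]

theorem covers4 : Covers 4 certs4 := by decide +kernel

def certs5 : List Cert := [
  ⟨[0, 0, 0, 0, 0], 0, 0, 1, [1, 0, 0, 5], [], [], []⟩,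
  ⟨[0, 1, 0, 0, 1], 0, 0, 1, [1, 1, 3, 1], [], [0, 1, 0, 0, 4], []⟩,
  ⟨[0, 0, 1, 1, 0], 0, 0, 1, [1, 1, 3, 1], [], [0, 0, 2, 3], []⟩,
  ⟨[0, 2, 0, 1, 0], 0, 0, 1, [1, 1, 3, 1], [], [0, 1, 0, 3], []⟩,
  ⟨[0, 1, 2, 0, 0], 0, 0, 1, [1, 1, 3, 1], [], [0, 1, 2], []⟩,
  ⟨[0, 0, 1, 0, 2], 0, 0, 1, [1, 0, 0, 5], [0, 0, 0, 0, 1], [0, 0, 2, 0, 1], []⟩,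
  ⟨[0, 0, 0, 2, 1], 0, 0, 1, [1, 0, 0, 5], [0, 0, 0, 1], [0, 0, 0, 0, 4], []⟩,
  ⟨[0, 3, 1, 0, 0], 0, 0, 1, [1, 1, 3, 1], [], [0, 1, 2], []⟩,
  ⟨[0, 2, 0, 0, 2], 0, 0, 1, [1, 0, 0, 5], [0, 0, 0, 0, 1], [0, 1, 0, 0, 1], []⟩,
  ⟨[0, 1, 1, 1, 1], 0, 0, 1, [1, 0, 0, 5], [0, 0, 0, 1, 1], [0, 1, 2, 0, 1], []⟩,
  ⟨[0, 1, 0, 3, 0], 0, 0, 1, [1, 1, 0, 5], [0, 0, 0, 1], [0, 1], []⟩,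
  ⟨[0, 0, 3, 0, 1], 0, 0, 3, [1, 1, 3, 1], [], [0, 0, 1, 0, 2], []⟩,
  ⟨[0, 0, 2, 2, 0], 0, 0, 1, [1, 0, 0, 5], [0, 0, 0, 1], [0, 0, 2], []⟩,
  ⟨[0, 0, 0, 1, 3], 0, 0, 2, [1, 1, 0, 5], [0, 0, 0, 0, 1], [0, 0, 0, 1], []⟩,
  ⟨[0, 5, 0, 0, 0], 0, 0, 1, [1, 1, 3, 1], [], [0, 1], []⟩,
  ⟨[0, 3, 0, 1, 1], 0, 0, 1, [1, 0, 0, 5], [0, 0, 0, 1, 1], [0, 1, 0, 0, 1], []⟩,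
  ⟨[0, 2, 2, 0, 1], 0, 0, 3, [1, 0, 0, 5], [0, 1], [0, 0, 1, 0, 2], []⟩,
  ⟨[0, 2, 1, 2, 0], 0, 0, 1, [1, 0, 0, 5], [0, 0, 0, 1], [0, 1, 2], []⟩,
  ⟨[0, 1, 3, 1, 0], 0, 0, 3, [1, 0, 0, 5], [0, 1, 0, 1], [0, 0, 1, 1], []⟩,
  ⟨[0, 1, 1, 0, 3], 0, 0, 4, [1, 0, 0, 5], [0, 1, 1], [0, 1, 0, 0, 1], []⟩,
  ⟨[0, 1, 0, 2, 2], 0, 0, 2, [1, 0, 0, 5], [0, 0, 0, 0, 1], [0, 2, 0, 1], []⟩,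
  ⟨[0, 0, 5, 0, 0], 0, 0, 3, [1, 1, 3, 1], [], [0, 0, 1], []⟩,
  ⟨[0, 0, 2, 1, 2], 0, 0, 4, [1, 0, 0, 5], [0, 0, 1], [0, 0, 0, 2, 1], []⟩,
  ⟨[0, 0, 1, 3, 1], 0, 0, 2, [1, 0, 0, 5], [0, 0, 1, 0, 1], [0, 0, 1, 1], []⟩,
  ⟨[0, 0, 0, 5, 0], 0, 0, 2, [1, 1, 3, 1], [], [0, 0, 0, 1], []⟩,
  ⟨[0, 0, 0, 0, 5], 0, 0, 4, [1, 1, 3, 1], [], [0, 0, 0, 0, 1], []⟩]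

theorem covers5 : Covers 5 certs5 := by decide +kernel

def certs6 : List Cert := [
  ⟨[0, 0, 0, 0, 0, 0], 0, 0, 1, [1, 0, 0, 6], [], [], []⟩,
  ⟨[0, 1, 0, 0, 0, 1], 0, 0, 1, [1, 1, 3, 0], [], [0, 1, 0, 0, 0, 5], []⟩,
  ⟨[0, 0, 1, 0, 1, 0], 0, 0, 1, [1, 1, 3, 0], [], [0, 0, 2, 0, 4], []⟩,
  ⟨[0, 0, 0, 2, 0, 0], 0, 0, 1, [1, 1, 3, 0], [], [0, 0, 0, 3], []⟩,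
  ⟨[0, 2, 0, 0, 1, 0], 0, 0, 1, [1, 1, 3, 0], [], [0, 1, 0, 0, 4], []⟩,
  ⟨[0, 1, 1, 1, 0, 0], 0, 0, 1, [1, 1, 3, 0], [], [0, 1, 2, 3], []⟩,
  ⟨[0, 0, 3, 0, 0, 0], 0, 0, 1, [1, 1, 3, 0], [], [0, 0, 2], []⟩,
  ⟨[0, 0, 1, 0, 0, 2], 0, 0, 1, [1, 0, 0, 6], [0, 0, 0, 0, 0, 1], [0, 0, 2, 0, 0, 1], []⟩,
  ⟨[0, 0, 0, 1, 1, 1], 0, 0, 1, [1, 0, 0, 6], [0, 0, 0, 0, 1, 1], [0, 0, 0, 3, 0, 1], []⟩,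
  ⟨[0, 0, 0, 0, 3, 0], 0, 0, 1, [1, 1, 0, 6], [0, 0, 0, 0, 1], [], []⟩,
  ⟨[0, 3, 0, 1, 0, 0], 0, 0, 1, [1, 1, 3, 0], [], [0, 1, 0, 3], []⟩,
  ⟨[0, 2, 2, 0, 0, 0], 0, 0, 1, [1, 1, 3, 0], [], [0, 1, 2], []⟩,
  ⟨[0, 2, 0, 0, 0, 2], 0, 0, 1, [1, 0, 0, 6], [0, 0, 0, 0, 0, 1], [0, 1, 0, 0, 0, 1], []⟩,
  ⟨[0, 1, 1, 0, 1, 1], 0, 0, 1, [1, 0, 0, 6], [0, 0, 0, 0, 1, 1], [0, 1, 2, 0, 0, 1], []⟩,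
  ⟨[0, 1, 0, 2, 0, 1], 0, 1, 1, [1, 4, 3, 0], [], [0, 1, 0, 3, 0, 5], []⟩,
  ⟨[0, 1, 0, 1, 2, 0], 0, 0, 1, [1, 0, 0, 6], [0, 0, 0, 0, 1], [0, 1, 0, 3], []⟩,
  ⟨[0, 0, 2, 1, 0, 1], 0, 0, 5, [1, 0, 0, 6], [0, 0, 1], [0, 0, 0, 3, 0, 1], []⟩,
  ⟨[0, 0, 2, 0, 2, 0], 0, 0, 1, [1, 0, 0, 6], [0, 0, 0, 0, 1], [0, 0, 2], []⟩,
  ⟨[0, 0, 1, 2, 1, 0], 0, 1, 1, [1, 4, 3, 0], [], [0, 0, 2, 3, 4], []⟩,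
  ⟨[0, 0, 0, 4, 0, 0], 0, 1, 1, [1, 4, 3, 0], [], [0, 0, 0, 3], []⟩,
  ⟨[0, 0, 0, 1, 0, 3], 0, 0, 5, [1, 1, 3, 0], [], [0, 0, 0, 3, 0, 1], []⟩,
  ⟨[0, 0, 0, 0, 2, 2], 0, 0, 5, [1, 1, 3, 0], [], [0, 0, 0, 0, 2, 1], []⟩,
  ⟨[0, 4, 1, 0, 0, 0], 0, 0, 1, [1, 1, 3, 0], [], [0, 1, 2], []⟩,
  ⟨[0, 3, 0, 0, 1, 1], 0, 0, 1, [1, 0, 0, 6], [0, 0, 0, 0, 1, 1], [0, 1, 0, 0, 0, 1], []⟩,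
  ⟨[0, 2, 1, 1, 0, 1], 0, 1, 1, [1, 4, 3, 0], [], [0, 1, 2, 3, 0, 5], []⟩,
  ⟨[0, 2, 1, 0, 2, 0], 0, 0, 1, [1, 0, 0, 6], [0, 0, 0, 0, 1], [0, 1, 2], []⟩,
  ⟨[0, 2, 0, 2, 1, 0], 0, 1, 1, [1, 4, 3, 0], [], [0, 1, 0, 3, 4], []⟩,
  ⟨[0, 1, 3, 0, 0, 1], 0, 1, 1, [1, 4, 3, 0], [], [0, 1, 2, 0, 0, 5], []⟩,
  ⟨[0, 1, 2, 1, 1, 0], 0, 1, 1, [1, 4, 3, 0], [], [0, 1, 2, 3, 4], []⟩,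
  ⟨[0, 1, 1, 3, 0, 0], 0, 1, 1, [1, 4, 3, 0], [], [0, 1, 2, 3], []⟩,
  ⟨[0, 1, 1, 0, 0, 3], 0, 0, 5, [1, 0, 0, 6], [0, 1, 1], [0, 1, 0, 0, 0, 1], []⟩,
  ⟨[0, 1, 0, 1, 1, 2], 0, 1, 5, [1, 4, 3, 0], [], [0, 5, 0, 3, 2, 1], []⟩,
  ⟨[0, 1, 0, 0, 3, 1], 0, 1, 5, [1, 4, 3, 0], [], [0, 5, 0, 0, 2, 1], []⟩,
  ⟨[0, 0, 4, 0, 1, 0], 0, 1, 1, [1, 4, 3, 0], [], [0, 0, 2, 0, 4], []⟩,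
  ⟨[0, 0, 3, 2, 0, 0], 0, 1, 1, [1, 4, 3, 0], [], [0, 0, 2, 3], []⟩,
  ⟨[0, 0, 2, 0, 1, 2], 0, 0, 5, [1, 0, 0, 6], [0, 0, 1], [0, 0, 0, 0, 2, 1], []⟩,
  ⟨[0, 0, 1, 2, 0, 2], 0, 1, 5, [1, 4, 3, 0], [], [0, 0, 4, 3, 0, 1], []⟩,
  ⟨[0, 0, 1, 1, 2, 1], 0, 1, 5, [1, 4, 3, 0], [], [0, 0, 4, 3, 2, 1], []⟩,
  ⟨[0, 0, 1, 0, 4, 0], 0, 1, 5, [1, 4, 3, 0], [], [0, 0, 4, 0, 2], []⟩,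
  ⟨[0, 0, 0, 3, 1, 1], 0, 1, 5, [1, 4, 3, 0], [], [0, 0, 0, 3, 2, 1], []⟩,
  ⟨[0, 0, 0, 2, 3, 0], 0, 1, 5, [1, 4, 3, 0], [], [0, 0, 0, 3, 2], []⟩,
  ⟨[0, 0, 0, 0, 1, 4], 0, 0, 5, [1, 1, 3, 0], [], [0, 0, 0, 0, 2, 1], []⟩]

theorem covers6 : Covers 6 certs6 := by decide +kernel

def certs7 : List Cert := [
  ⟨[0, 0, 0, 0, 0, 0, 0], 0, 0, 1, [1, 0, 0, 7], [], [], []⟩,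
  ⟨[0, 1, 0, 0, 0, 0, 1], 0, 0, 1, [1, 0, 0, 7], [0, 0, 0, 0, 0, 0, 1], [0, 1, 0, 0, 0, 0, 1], []⟩,
  ⟨[0, 0, 1, 0, 0, 1, 0], 0, 0, 1, [1, 0, 0, 7], [0, 0, 0, 0, 0, 1], [0, 0, 2], []⟩,
  ⟨[0, 0, 0, 1, 1, 0, 0], 0, 0, 1, [1, 0, 0, 7], [0, 0, 0, 0, 2], [0, 0, 0, 3, 1], []⟩,
  ⟨[0, 2, 0, 0, 0, 1, 0], 0, 0, 1, [1, 0, 0, 7], [0, 0, 0, 0, 0, 1], [0, 1], []⟩,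
  ⟨[0, 1, 1, 0, 1, 0, 0], 0, 0, 1, [1, 0, 0, 7], [0, 0, 0, 0, 2], [0, 1, 2, 0, 1], []⟩,
  ⟨[0, 1, 0, 2, 0, 0, 0], 0, 0, 2, [1, 0, 0, 7], [0, 0, 0, 1], [0, 2, 0, 1], []⟩,
  ⟨[0, 0, 2, 1, 0, 0, 0], 0, 0, 1, [1, 0, 0, 7], [0, 0, 0, 2], [0, 0, 2], []⟩,
  ⟨[0, 0, 1, 0, 0, 0, 2], 0, 0, 1, [1, 0, 0, 7], [0, 0, 0, 0, 0, 0, 1], [0, 0, 2, 0, 0, 0, 1], []⟩,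
  ⟨[0, 0, 0, 1, 0, 1, 1], 0, 0, 1, [1, 0, 0, 7], [0, 0, 0, 0, 0, 1, 1], [0, 0, 0, 3, 0, 0, 1], []⟩,
  ⟨[0, 0, 0, 0, 2, 0, 1], 0, 0, 2, [1, 0, 0, 7], [0, 0, 0, 0, 0, 0, 1], [0, 0, 0, 0, 1], []⟩,
  ⟨[0, 0, 0, 0, 1, 2, 0], 0, 0, 1, [1, 0, 0, 7], [0, 0, 0, 0, 0, 1], [0, 0, 0, 0, 4], []⟩,
  ⟨[0, 3, 0, 0, 1, 0, 0], 0, 0, 1, [1, 0, 0, 7], [0, 0, 0, 0, 2], [0, 1, 0, 0, 1], []⟩,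
  ⟨[0, 2, 1, 1, 0, 0, 0], 0, 0, 1, [1, 0, 0, 7], [0, 0, 0, 2], [0, 1, 2], []⟩,
  ⟨[0, 2, 0, 0, 0, 0, 2], 0, 0, 1, [1, 0, 0, 7], [0, 0, 0, 0, 0, 0, 1], [0, 1, 0, 0, 0, 0, 1], []⟩,
  ⟨[0, 1, 3, 0, 0, 0, 0], 0, 0, 4, [1, 0, 0, 7], [0, 2], [0, 1, 1], []⟩,
  ⟨[0, 1, 1, 0, 0, 1, 1], 0, 0, 1, [1, 0, 0, 7], [0, 0, 0, 0, 0, 1, 1], [0, 1, 2, 0, 0, 0, 1], []⟩,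
  ⟨[0, 1, 0, 1, 1, 0, 1], 0, 0, 2, [1, 0, 0, 7], [0, 0, 0, 1, 0, 0, 1], [0, 2, 0, 1, 1], []⟩,
  ⟨[0, 1, 0, 1, 0, 2, 0], 0, 0, 1, [1, 0, 0, 7], [0, 0, 0, 0, 0, 1], [0, 1, 0, 3], []⟩,
  ⟨[0, 1, 0, 0, 2, 1, 0], 0, 0, 2, [1, 0, 0, 7], [0, 0, 0, 0, 0, 2], [0, 2, 0, 0, 1], []⟩,
  ⟨[0, 0, 2, 0, 1, 0, 1], 0, 0, 4, [1, 0, 0, 7], [0, 0, 0, 0, 0, 0, 2], [0, 0, 1, 0, 2], []⟩,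
  ⟨[0, 0, 2, 0, 0, 2, 0], 0, 0, 1, [1, 0, 0, 7], [0, 0, 0, 0, 0, 1], [0, 0, 2], []⟩,
  ⟨[0, 0, 1, 2, 0, 0, 1], 0, 0, 4, [1, 0, 0, 7], [0, 0, 0, 1], [0, 0, 1, 0, 0, 0, 3], []⟩,
  ⟨[0, 0, 1, 1, 1, 1, 0], 0, 0, 3, [1, 0, 0, 7], [0, 0, 1, 0, 1], [0, 0, 1, 2, 0, 1], []⟩,
  ⟨[0, 0, 1, 0, 3, 0, 0], 0, 0, 2, [1, 0, 0, 7], [0, 0, 2], [0, 0, 1, 0, 1], []⟩,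
  ⟨[0, 0, 0, 3, 0, 1, 0], 0, 0, 5, [1, 0, 0, 7], [0, 0, 0, 0, 0, 2], [0, 0, 0, 1, 0, 1], []⟩,
  ⟨[0, 0, 0, 2, 2, 0, 0], 0, 0, 2, [1, 0, 0, 7], [0, 0, 0, 1], [0, 0, 0, 1, 1], []⟩,
  ⟨[0, 0, 0, 1, 0, 0, 3], 0, 0, 6, [1, 0, 0, 7], [0, 0, 0, 2], [0, 0, 0, 1, 0, 0, 1], []⟩,
  ⟨[0, 0, 0, 0, 1, 1, 2], 0, 0, 2, [1, 0, 0, 7], [0, 0, 0, 0, 0, 0, 1], [0, 0, 0, 0, 1, 3], []⟩,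
  ⟨[0, 0, 0, 0, 0, 3, 1], 0, 0, 3, [1, 0, 0, 7], [0, 0, 0, 0, 0, 0, 2], [0, 0, 0, 0, 0, 1, 1], []⟩,
  ⟨[0, 4, 0, 1, 0, 0, 0], 0, 0, 1, [1, 0, 0, 7], [0, 0, 0, 2], [0, 1], []⟩,
  ⟨[0, 3, 2, 0, 0, 0, 0], 0, 2, 1, [1, 2, 0], [0, 1], [0, 0, 1], []⟩,
  ⟨[0, 3, 0, 0, 0, 1, 1], 0, 0, 1, [1, 0, 0, 7], [0, 0, 0, 0, 0, 1, 1], [0, 1, 0, 0, 0, 0, 1], []⟩,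
  ⟨[0, 2, 1, 0, 1, 0, 1], 0, 2, 1, [4, 2, 1], [0, 0, 0, 0, 1, 0, 1], [0, 0, 1, 0, 0, 0, 1], [0, 1]⟩,
  ⟨[0, 2, 1, 0, 0, 2, 0], 0, 0, 1, [1, 0, 0, 7], [0, 0, 0, 0, 0, 1], [0, 1, 2], []⟩,
  ⟨[0, 2, 0, 2, 0, 0, 1], 0, 0, 5, [1, 0, 0, 7], [0, 1], [0, 0, 0, 1, 0, 0, 2], []⟩,
  ⟨[0, 2, 0, 1, 1, 1, 0], 3, 3, 1, [4], [0, 0, 0, 0, 0, 1], [0, 1, 0, 0, 4], []⟩,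
  ⟨[0, 2, 0, 0, 3, 0, 0], 0, 2, 1, [4, 1, 0], [0, 0, 0, 0, 1], [0, 1], []⟩,
  ⟨[0, 1, 2, 1, 0, 0, 1], 1, 3, 4, [6], [0, 0, 0, 1], [0, 0, 1, 0, 0, 0, 3], []⟩,
  ⟨[0, 1, 2, 0, 1, 1, 0], 0, 2, 1, [4, 2, 1], [0, 0, 0, 0, 1, 1], [0, 0, 1], [0, 1, 0, 0, 0, 1]⟩,
  ⟨[0, 1, 1, 2, 0, 1, 0], 2, 3, 5, [5], [0, 1], [0, 0, 0, 1, 0, 4], []⟩,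
  ⟨[0, 1, 1, 1, 2, 0, 0], 0, 2, 1, [4, 2, 1], [0, 0, 0, 0, 1], [0, 0, 1, 1], [0, 1, 0, 1]⟩,
  ⟨[0, 1, 1, 0, 0, 0, 3], 0, 0, 6, [1, 0, 0, 7], [0, 1, 1], [0, 1, 0, 0, 0, 0, 1], []⟩,
  ⟨[0, 1, 0, 3, 1, 0, 0], 0, 0, 5, [1, 0, 0, 7], [0, 1, 0, 0, 1], [0, 0, 0, 1, 1], []⟩,
  ⟨[0, 1, 0, 1, 0, 1, 2], 0, 2, 1, [6, 5, 3], [0, 0, 0, 0, 0, 0, 1], [0, 1, 0, 0, 0, 1], [0, 1, 0, 1]⟩,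
  ⟨[0, 1, 0, 0, 2, 0, 2], 0, 0, 2, [1, 0, 0, 7], [0, 0, 0, 0, 0, 0, 1], [0, 2, 0, 0, 1], []⟩,
  ⟨[0, 1, 0, 0, 1, 2, 1], 1, 3, 3, [6], [0, 0, 0, 0, 1], [0, 0, 0, 0, 0, 1, 4], []⟩,
  ⟨[0, 1, 0, 0, 0, 4, 0], 0, 0, 3, [1, 0, 0, 7], [0, 2], [0, 0, 0, 0, 0, 1], []⟩,
  ⟨[0, 0, 4, 0, 0, 0, 1], 0, 0, 4, [1, 0, 0, 7], [0, 0, 0, 0, 0, 0, 2], [0, 0, 1], []⟩,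
  ⟨[0, 0, 3, 1, 0, 1, 0], 0, 0, 4, [1, 0, 0, 7], [0, 0, 0, 1, 0, 1], [0, 0, 1, 0, 0, 1], []⟩,
  ⟨[0, 0, 3, 0, 2, 0, 0], 0, 2, 1, [2, 4, 0], [0, 0, 1], [0, 0, 0, 0, 1], []⟩,
  ⟨[0, 0, 2, 2, 1, 0, 0], 0, 0, 4, [1, 0, 0, 7], [0, 0, 0, 1], [0, 0, 1, 0, 2], []⟩,
  ⟨[0, 0, 2, 0, 0, 1, 2], 0, 0, 6, [1, 0, 0, 7], [0, 0, 1], [0, 0, 0, 0, 0, 2, 1], []⟩,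
  ⟨[0, 0, 1, 4, 0, 0, 0], 0, 0, 5, [1, 0, 0, 7], [0, 0, 2], [0, 0, 0, 1], []⟩,
  ⟨[0, 0, 1, 1, 1, 0, 2], 3, 3, 6, [4], [0, 0, 1], [0, 0, 0, 0, 3, 0, 1], []⟩,
  ⟨[0, 0, 1, 1, 0, 2, 1], 0, 2, 1, [5, 6, 3], [0, 0, 0, 0, 0, 1], [0, 0, 1, 0, 0, 0, 1], [0, 0, 1, 1]⟩,
  ⟨[0, 0, 1, 0, 2, 1, 1], 2, 3, 2, [5], [0, 0, 0, 0, 0, 0, 1], [0, 0, 0, 0, 1, 3], []⟩,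
  ⟨[0, 0, 1, 0, 1, 3, 0], 0, 0, 3, [1, 0, 0, 7], [0, 0, 1, 0, 1], [0, 0, 1, 0, 0, 1], []⟩,
  ⟨[0, 0, 0, 3, 0, 0, 2], 0, 2, 1, [3, 6, 0], [0, 0, 0, 1], [0, 0, 0, 0, 0, 0, 1], []⟩,
  ⟨[0, 0, 0, 2, 1, 1, 1], 0, 2, 1, [6, 5, 3], [0, 0, 0, 0, 1, 0, 1], [0, 0, 0, 0, 1, 1], [0, 0, 0, 1]⟩,
  ⟨[0, 0, 0, 2, 0, 3, 0], 0, 2, 1, [5, 3, 0], [0, 0, 0, 0, 0, 1], [0, 0, 0, 1], []⟩,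
  ⟨[0, 0, 0, 1, 3, 0, 1], 0, 0, 2, [1, 0, 0, 7], [0, 0, 0, 1, 0, 0, 1], [0, 0, 0, 1, 1], []⟩,
  ⟨[0, 0, 0, 1, 2, 2, 0], 0, 0, 3, [1, 0, 0, 7], [0, 0, 0, 0, 1], [0, 0, 0, 2, 0, 1], []⟩,
  ⟨[0, 0, 0, 0, 4, 1, 0], 0, 0, 2, [1, 0, 0, 7], [0, 0, 0, 0, 0, 2], [0, 0, 0, 0, 1], []⟩,
  ⟨[0, 0, 0, 0, 1, 0, 4], 0, 0, 6, [1, 0, 0, 7], [0, 0, 0, 0, 2], [0, 0, 0, 0, 0, 0, 1], []⟩,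
  ⟨[0, 0, 0, 0, 0, 2, 3], 0, 2, 1, [6, 5, 0], [0, 0, 0, 0, 0, 0, 1], [0, 0, 0, 0, 0, 1], []⟩]

theorem covers7 : Covers 7 certs7 := by decide +kernel

def certs10 : List Cert := [
  ⟨[0, 0, 0, 0, 0, 0, 0, 0, 0, 0], 0, 0, 1, [1, 0, 0, 10], [], [], []⟩,
  ⟨[0, 1, 0, 0, 0, 0, 0, 0, 0, 1], 0, 0, 1, [1, 0, 0, 10], [0, 0, 0, 0, 0, 0, 0, 0, 0, 1], [0, 1, 0, 0, 0, 0, 0, 0, 0, 1], []⟩,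
  ⟨[0, 0, 1, 0, 0, 0, 0, 0, 1, 0], 0, 0, 1, [1, 0, 0, 10], [0, 0, 0, 0, 0, 0, 0, 0, 1], [0, 0, 2], []⟩,
  ⟨[0, 0, 0, 1, 0, 0, 0, 1, 0, 0], 0, 0, 1, [1, 0, 0, 10], [0, 0, 0, 0, 0, 0, 0, 2], [0, 0, 0, 3, 0, 0, 0, 1], []⟩,
  ⟨[0, 0, 0, 0, 1, 0, 1, 0, 0, 0], 0, 0, 1, [1, 0, 0, 10], [0, 0, 0, 0, 0, 0, 2], [0, 0, 0, 0, 4], []⟩,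
  ⟨[0, 0, 0, 0, 0, 2, 0, 0, 0, 0], 0, 1, 1, [1, 0, 1, 6], [0, 0, 0, 0, 0, 1], [0, 0, 0, 0, 0, 1], []⟩,
  ⟨[0, 2, 0, 0, 0, 0, 0, 0, 1, 0], 0, 0, 1, [1, 0, 0, 10], [0, 0, 0, 0, 0, 0, 0, 0, 1], [0, 1], []⟩,
  ⟨[0, 1, 1, 0, 0, 0, 0, 1, 0, 0], 0, 0, 1, [1, 0, 0, 10], [0, 0, 0, 0, 0, 0, 0, 2], [0, 1, 2, 0, 0, 0, 0, 1], []⟩,
  ⟨[0, 1, 0, 1, 0, 0, 1, 0, 0, 0], 0, 0, 1, [1, 0, 0, 10], [0, 0, 0, 0, 0, 0, 2], [0, 1, 0, 3], []⟩,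
  ⟨[0, 1, 0, 0, 1, 1, 0, 0, 0, 0], 0, 1, 1, [1, 1, 5, 0], [0, 0, 0, 0, 0, 1], [0, 1, 0, 0, 4, 1], []⟩,
  ⟨[0, 0, 2, 0, 0, 0, 1, 0, 0, 0], 0, 0, 1, [1, 0, 0, 10], [0, 0, 0, 0, 0, 0, 2], [0, 0, 2], []⟩,
  ⟨[0, 0, 1, 1, 0, 1, 0, 0, 0, 0], 0, 1, 1, [1, 1, 5, 0], [0, 0, 0, 0, 0, 1], [0, 0, 2, 3, 0, 1], []⟩,
  ⟨[0, 0, 1, 0, 2, 0, 0, 0, 0, 0], 0, 0, 3, [1, 0, 0, 10], [0, 0, 2], [0, 0, 0, 0, 2], []⟩,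
  ⟨[0, 0, 1, 0, 0, 0, 0, 0, 0, 2], 0, 0, 1, [1, 0, 0, 10], [0, 0, 0, 0, 0, 0, 0, 0, 0, 1], [0, 0, 2, 0, 0, 0, 0, 0, 0, 1], []⟩,
  ⟨[0, 0, 0, 2, 1, 0, 0, 0, 0, 0], 0, 0, 3, [1, 0, 0, 10], [0, 0, 0, 1], [0, 0, 0, 1, 2], []⟩,
  ⟨[0, 0, 0, 1, 0, 0, 0, 0, 1, 1], 0, 0, 1, [1, 0, 0, 10], [0, 0, 0, 0, 0, 0, 0, 0, 1, 1], [0, 0, 0, 3, 0, 0, 0, 0, 0, 1], []⟩,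
  ⟨[0, 0, 0, 0, 1, 0, 0, 1, 0, 1], 0, 0, 3, [1, 0, 0, 10], [0, 0, 0, 0, 0, 0, 0, 0, 0, 2], [0, 0, 0, 0, 2, 0, 0, 1, 0, 1], []⟩,
  ⟨[0, 0, 0, 0, 1, 0, 0, 0, 2, 0], 0, 0, 1, [1, 0, 0, 10], [0, 0, 0, 0, 0, 0, 0, 0, 1], [0, 0, 0, 0, 4], []⟩,
  ⟨[0, 0, 0, 0, 0, 1, 1, 0, 0, 1], 0, 1, 1, [1, 0, 1, 6], [0, 0, 0, 0, 0, 1, 1, 0, 0, 2], [0, 0, 0, 0, 0, 1, 2, 0, 0, 1], []⟩,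
  ⟨[0, 0, 0, 0, 0, 1, 0, 1, 1, 0], 0, 1, 1, [1, 0, 1, 6], [0, 0, 0, 0, 0, 1, 0, 1, 2], [0, 0, 0, 0, 0, 1, 0, 3], []⟩,
  ⟨[0, 0, 0, 0, 0, 0, 2, 0, 1, 0], 0, 0, 3, [1, 0, 0, 10], [0, 0, 0, 0, 0, 0, 1], [0, 0, 0, 0, 0, 0, 0, 0, 4], []⟩,
  ⟨[0, 0, 0, 0, 0, 0, 1, 2, 0, 0], 0, 0, 3, [1, 0, 0, 10], [0, 0, 0, 0, 0, 0, 1], [0, 0, 0, 0, 0, 0, 0, 1], []⟩,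
  ⟨[0, 3, 0, 0, 0, 0, 0, 1, 0, 0], 0, 0, 1, [1, 0, 0, 10], [0, 0, 0, 0, 0, 0, 0, 2], [0, 1, 0, 0, 0, 0, 0, 1], []⟩,
  ⟨[0, 2, 1, 0, 0, 0, 1, 0, 0, 0], 0, 0, 1, [1, 0, 0, 10], [0, 0, 0, 0, 0, 0, 2], [0, 1, 2], []⟩,
  ⟨[0, 2, 0, 1, 0, 1, 0, 0, 0, 0], 0, 1, 1, [1, 1, 5, 0], [0, 0, 0, 0, 0, 1], [0, 1, 0, 3, 0, 1], []⟩,
  ⟨[0, 2, 0, 0, 2, 0, 0, 0, 0, 0], 0, 1, 1, [1, 0, 1, 6], [0, 0, 0, 0, 1], [0, 1], []⟩,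
  ⟨[0, 2, 0, 0, 0, 0, 0, 0, 0, 2], 0, 0, 1, [1, 0, 0, 10], [0, 0, 0, 0, 0, 0, 0, 0, 0, 1], [0, 1, 0, 0, 0, 0, 0, 0, 0, 1], []⟩,
  ⟨[0, 1, 2, 0, 0, 1, 0, 0, 0, 0], 0, 1, 1, [1, 1, 5, 0], [0, 0, 0, 0, 0, 1], [0, 1, 2, 0, 0, 1], []⟩,
  ⟨[0, 1, 1, 1, 1, 0, 0, 0, 0, 0], 0, 1, 1, [1, 1, 5, 0], [0, 0, 0, 0, 1], [0, 1, 2, 3], []⟩,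
  ⟨[0, 1, 1, 0, 0, 0, 0, 0, 1, 1], 0, 0, 1, [1, 0, 0, 10], [0, 0, 0, 0, 0, 0, 0, 0, 1, 1], [0, 1, 2, 0, 0, 0, 0, 0, 0, 1], []⟩,
  ⟨[0, 1, 0, 3, 0, 0, 0, 0, 0, 0], 0, 0, 7, [1, 0, 0, 10], [0, 2], [0, 1, 0, 1], []⟩,
  ⟨[0, 1, 0, 1, 0, 0, 0, 1, 0, 1], 0, 2, 1, [6, 3, 1], [0, 0, 0, 0, 0, 0, 0, 1, 0, 1], [0, 0, 0, 1, 0, 0, 0, 0, 0, 1], [0, 1, 0, 0, 0, 0, 0, 1]⟩,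
  ⟨[0, 1, 0, 1, 0, 0, 0, 0, 2, 0], 0, 0, 1, [1, 0, 0, 10], [0, 0, 0, 0, 0, 0, 0, 0, 1], [0, 1, 0, 3], []⟩,
  ⟨[0, 1, 0, 0, 1, 0, 1, 0, 0, 1], 0, 1, 1, [1, 0, 1, 6], [0, 0, 0, 0, 1, 0, 1, 0, 0, 2], [0, 1, 0, 0, 0, 0, 2, 0, 0, 1], []⟩,
  ⟨[0, 1, 0, 0, 1, 0, 0, 1, 1, 0], 0, 1, 1, [1, 0, 1, 6], [0, 0, 0, 0, 1, 0, 0, 1, 2], [0, 1, 0, 0, 0, 0, 0, 3], []⟩,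
  ⟨[0, 1, 0, 0, 0, 2, 0, 0, 0, 1], 0, 1, 1, [1, 0, 1, 6], [0, 0, 0, 0, 0, 1, 0, 0, 0, 2], [0, 1, 0, 0, 0, 1, 0, 0, 0, 1], []⟩,
  ⟨[0, 1, 0, 0, 0, 1, 1, 0, 1, 0], 0, 1, 1, [1, 0, 1, 6], [0, 0, 0, 0, 0, 1, 1, 0, 2], [0, 1, 0, 0, 0, 1, 2], []⟩,
  ⟨[0, 1, 0, 0, 0, 1, 0, 2, 0, 0], 0, 1, 3, [1, 1, 5, 0], [0, 0, 0, 0, 0, 1], [0, 3, 0, 0, 0, 1, 0, 1], []⟩,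
  ⟨[0, 1, 0, 0, 0, 0, 2, 1, 0, 0], 0, 0, 3, [1, 0, 0, 10], [0, 0, 0, 0, 0, 0, 1], [0, 3, 0, 0, 0, 0, 0, 1], []⟩,
  ⟨[0, 0, 3, 0, 1, 0, 0, 0, 0, 0], 0, 1, 1, [1, 1, 5, 0], [0, 0, 0, 0, 1], [0, 0, 2], []⟩,
  ⟨[0, 0, 2, 2, 0, 0, 0, 0, 0, 0], 0, 1, 7, [1, 0, 1, 6], [0, 0, 1], [0, 0, 0, 1], []⟩,
  ⟨[0, 0, 2, 0, 0, 0, 0, 1, 0, 1], 0, 0, 9, [1, 0, 0, 10], [0, 0, 1], [0, 0, 0, 0, 0, 0, 0, 3, 0, 1], []⟩,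
  ⟨[0, 0, 2, 0, 0, 0, 0, 0, 2, 0], 0, 0, 1, [1, 0, 0, 10], [0, 0, 0, 0, 0, 0, 0, 0, 1], [0, 0, 2], []⟩,
  ⟨[0, 0, 1, 1, 0, 0, 1, 0, 0, 1], 0, 1, 7, [1, 1, 5, 0], [0, 0, 1], [0, 0, 0, 1, 0, 0, 2, 0, 0, 3], []⟩,
  ⟨[0, 0, 1, 1, 0, 0, 0, 1, 1, 0], 0, 1, 3, [1, 0, 1, 6], [0, 0, 1, 2, 0, 0, 0, 0, 1], [0, 0, 2, 1, 0, 0, 0, 1], []⟩,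
  ⟨[0, 0, 1, 0, 1, 1, 0, 0, 0, 1], 0, 1, 1, [1, 0, 1, 6], [0, 0, 0, 0, 1, 1, 0, 0, 0, 2], [0, 0, 2, 0, 0, 1, 0, 0, 0, 1], []⟩,
  ⟨[0, 0, 1, 0, 1, 0, 1, 0, 1, 0], 0, 1, 1, [1, 0, 1, 6], [0, 0, 0, 0, 1, 0, 1, 0, 2], [0, 0, 2, 0, 0, 0, 2], []⟩,
  ⟨[0, 0, 1, 0, 1, 0, 0, 2, 0, 0], 0, 0, 3, [1, 0, 0, 10], [0, 0, 2], [0, 0, 0, 0, 2, 0, 0, 1], []⟩,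
  ⟨[0, 0, 1, 0, 0, 2, 0, 0, 1, 0], 0, 1, 1, [1, 0, 1, 6], [0, 0, 0, 0, 0, 1, 0, 0, 2], [0, 0, 2, 0, 0, 1], []⟩,
  ⟨[0, 0, 1, 0, 0, 1, 1, 1, 0, 0], 0, 1, 3, [1, 0, 1, 6], [0, 0, 1, 0, 0, 1, 2], [0, 0, 2, 0, 0, 1, 0, 1], []⟩,
  ⟨[0, 0, 1, 0, 0, 0, 3, 0, 0, 0], 0, 1, 7, [1, 1, 5, 0], [0, 0, 1], [0, 0, 0, 0, 0, 0, 2], []⟩,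
  ⟨[0, 0, 0, 2, 0, 1, 0, 0, 0, 1], 0, 1, 7, [1, 1, 5, 0], [0, 0, 0, 0, 0, 1], [0, 0, 0, 1, 0, 1, 0, 0, 0, 3], []⟩,
  ⟨[0, 0, 0, 2, 0, 0, 1, 0, 1, 0], 0, 0, 7, [1, 0, 0, 10], [0, 0, 0, 0, 0, 0, 0, 0, 2], [0, 0, 0, 1, 0, 0, 2], []⟩,
  ⟨[0, 0, 0, 2, 0, 0, 0, 2, 0, 0], 0, 0, 3, [1, 0, 0, 10], [0, 0, 0, 1], [0, 0, 0, 1, 0, 0, 0, 1], []⟩,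
  ⟨[0, 0, 0, 1, 2, 0, 0, 0, 0, 1], 0, 0, 7, [1, 0, 0, 10], [0, 0, 0, 0, 1], [0, 0, 0, 1, 0, 0, 0, 0, 0, 3], []⟩,
  ⟨[0, 0, 0, 1, 1, 1, 0, 0, 1, 0], 0, 1, 1, [1, 0, 1, 6], [0, 0, 0, 0, 1, 1, 0, 0, 2], [0, 0, 0, 3, 0, 1], []⟩,
  ⟨[0, 0, 0, 1, 1, 0, 1, 1, 0, 0], 0, 0, 3, [1, 0, 0, 10], [0, 0, 0, 1, 0, 0, 1], [0, 0, 0, 1, 2, 0, 0, 1], []⟩,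
  ⟨[0, 0, 0, 1, 0, 2, 0, 1, 0, 0], 0, 1, 3, [1, 0, 1, 6], [0, 0, 0, 2, 0, 1], [0, 0, 0, 1, 0, 1, 0, 1], []⟩,
  ⟨[0, 0, 0, 1, 0, 1, 2, 0, 0, 0], 0, 1, 7, [1, 1, 5, 0], [0, 0, 0, 0, 0, 1], [0, 0, 0, 1, 0, 1, 2], []⟩,
  ⟨[0, 0, 0, 1, 0, 0, 0, 0, 0, 3], 0, 0, 9, [1, 0, 0, 10], [0, 0, 0, 2], [0, 0, 0, 1, 0, 0, 0, 0, 0, 1], []⟩,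
  ⟨[0, 0, 0, 0, 3, 0, 0, 0, 1, 0], 0, 1, 1, [1, 0, 1, 6], [0, 0, 0, 0, 1, 0, 0, 0, 1], [0, 0, 0, 0, 0, 0, 0, 0, 4], []⟩,
  ⟨[0, 0, 0, 0, 2, 1, 0, 1, 0, 0], 0, 1, 1, [1, 0, 1, 6], [0, 0, 0, 0, 1, 1, 0, 1], [0, 0, 0, 0, 0, 1, 0, 3], []⟩,
  ⟨[0, 0, 0, 0, 2, 0, 2, 0, 0, 0], 0, 0, 3, [1, 0, 0, 10], [0, 0, 0, 0, 0, 0, 1], [0, 0, 0, 0, 2], []⟩,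
  ⟨[0, 0, 0, 0, 1, 2, 1, 0, 0, 0], 0, 1, 1, [1, 0, 1, 6], [0, 0, 0, 0, 1, 1, 1], [0, 0, 0, 0, 0, 1, 2], []⟩,
  ⟨[0, 0, 0, 0, 1, 0, 0, 0, 1, 2], 0, 0, 9, [1, 0, 0, 10], [0, 0, 0, 0, 2], [0, 0, 0, 0, 0, 0, 0, 0, 2, 1], []⟩,
  ⟨[0, 0, 0, 0, 0, 4, 0, 0, 0, 0], 0, 1, 1, [1, 0, 1, 6], [0, 0, 0, 0, 0, 1], [0, 0, 0, 0, 0, 1], []⟩,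
  ⟨[0, 0, 0, 0, 0, 1, 0, 1, 0, 2], 0, 1, 9, [1, 1, 5, 0], [0, 0, 0, 0, 0, 1], [0, 0, 0, 0, 0, 1, 0, 3, 0, 1], []⟩,
  ⟨[0, 0, 0, 0, 0, 1, 0, 0, 2, 1], 0, 1, 3, [1, 0, 1, 6], [0, 0, 0, 0, 0, 1, 0, 0, 1, 1], [0, 0, 0, 0, 0, 1, 0, 0, 0, 3], []⟩,
  ⟨[0, 0, 0, 0, 0, 0, 2, 0, 0, 2], 0, 1, 9, [1, 0, 1, 6], [0, 0, 0, 0, 0, 0, 1], [0, 0, 0, 0, 0, 0, 0, 0, 0, 1], []⟩,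
  ⟨[0, 0, 0, 0, 0, 0, 1, 1, 1, 1], 0, 1, 3, [1, 0, 1, 6], [0, 0, 0, 0, 0, 0, 2, 0, 1, 1], [0, 0, 0, 0, 0, 0, 0, 1, 0, 3], []⟩,
  ⟨[0, 0, 0, 0, 0, 0, 1, 0, 3, 0], 0, 1, 3, [1, 0, 1, 6], [0, 0, 0, 0, 0, 0, 1, 0, 1], [0, 0, 0, 0, 0, 0, 4], []⟩,
  ⟨[0, 0, 0, 0, 0, 0, 0, 3, 0, 1], 0, 0, 3, [1, 0, 0, 10], [0, 0, 0, 0, 0, 0, 0, 0, 0, 2], [0, 0, 0, 0, 0, 0, 0, 1, 0, 1], []⟩,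
  ⟨[0, 0, 0, 0, 0, 0, 0, 2, 2, 0], 0, 1, 3, [1, 0, 1, 6], [0, 0, 0, 0, 0, 0, 0, 0, 1], [0, 0, 0, 0, 0, 0, 0, 1], []⟩,
  ⟨[0, 4, 0, 0, 0, 0, 1, 0, 0, 0], 0, 0, 1, [1, 0, 0, 10], [0, 0, 0, 0, 0, 0, 2], [0, 1], []⟩,
  ⟨[0, 3, 1, 0, 0, 1, 0, 0, 0, 0], 0, 1, 1, [1, 1, 5, 0], [0, 0, 0, 0, 0, 1], [0, 1, 2, 0, 0, 1], []⟩,
  ⟨[0, 3, 0, 1, 1, 0, 0, 0, 0, 0], 0, 1, 1, [1, 1, 5, 0], [0, 0, 0, 0, 1], [0, 1, 0, 3], []⟩,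
  ⟨[0, 3, 0, 0, 0, 0, 0, 0, 1, 1], 0, 0, 1, [1, 0, 0, 10], [0, 0, 0, 0, 0, 0, 0, 0, 1, 1], [0, 1, 0, 0, 0, 0, 0, 0, 0, 1], []⟩,
  ⟨[0, 2, 2, 0, 1, 0, 0, 0, 0, 0], 0, 1, 1, [1, 1, 5, 0], [0, 0, 0, 0, 1], [0, 1, 2], []⟩,
  ⟨[0, 2, 1, 2, 0, 0, 0, 0, 0, 0], 0, 2, 1, [3, 6, 1], [0, 0, 0, 1], [0, 0, 2], [0, 1]⟩,
  ⟨[0, 2, 1, 0, 0, 0, 0, 1, 0, 1], 0, 2, 1, [7, 2, 1], [0, 0, 0, 0, 0, 0, 0, 1, 0, 1], [0, 0, 1, 0, 0, 0, 0, 0, 0, 1], [0, 1]⟩,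
  ⟨[0, 2, 1, 0, 0, 0, 0, 0, 2, 0], 0, 0, 1, [1, 0, 0, 10], [0, 0, 0, 0, 0, 0, 0, 0, 1], [0, 1, 2], []⟩,
  ⟨[0, 2, 0, 1, 0, 0, 1, 0, 0, 1], 0, 2, 1, [6, 3, 1], [0, 0, 0, 0, 0, 0, 1, 0, 0, 1], [0, 0, 0, 1, 0, 0, 0, 0, 0, 1], [0, 1]⟩,
  ⟨[0, 2, 0, 1, 0, 0, 0, 1, 1, 0], 3, 3, 1, [7], [0, 0, 0, 0, 0, 0, 0, 0, 1], [0, 1, 0, 0, 0, 0, 0, 7], []⟩,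
  ⟨[0, 2, 0, 0, 1, 1, 0, 0, 0, 1], 0, 1, 1, [1, 0, 1, 6], [0, 0, 0, 0, 1, 1, 0, 0, 0, 2], [0, 1, 0, 0, 0, 1, 0, 0, 0, 1], []⟩,
  ⟨[0, 2, 0, 0, 1, 0, 1, 0, 1, 0], 0, 1, 1, [1, 0, 1, 6], [0, 0, 0, 0, 1, 0, 1, 0, 2], [0, 1, 0, 0, 0, 0, 2], []⟩,
  ⟨[0, 2, 0, 0, 1, 0, 0, 2, 0, 0], 0, 2, 1, [7, 2, 1], [0, 0, 0, 0, 0, 0, 0, 1], [0, 0, 0, 0, 2], [0, 1]⟩,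
  ⟨[0, 2, 0, 0, 0, 2, 0, 0, 1, 0], 0, 1, 1, [1, 0, 1, 6], [0, 0, 0, 0, 0, 1, 0, 0, 2], [0, 1, 0, 0, 0, 1], []⟩,
  ⟨[0, 2, 0, 0, 0, 1, 1, 1, 0, 0], 7, 1, 1, [2, 1, 5, 0], [0, 0, 0, 0, 0, 1, 1], [0, 1, 0, 0, 0, 1, 2], []⟩,
  ⟨[0, 2, 0, 0, 0, 0, 3, 0, 0, 0], 0, 2, 1, [6, 1, 0], [0, 0, 0, 0, 0, 0, 1], [0, 1], []⟩,
  ⟨[0, 1, 3, 1, 0, 0, 0, 0, 0, 0], 0, 1, 7, [1, 0, 1, 6], [0, 1, 1], [0, 3, 0, 1], []⟩,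
  ⟨[0, 1, 2, 0, 0, 0, 1, 0, 0, 1], 1, 1, 7, [2, 1, 5, 0], [0, 0, 1], [0, 0, 0, 0, 0, 0, 2, 0, 0, 3], []⟩,
  ⟨[0, 1, 2, 0, 0, 0, 0, 1, 1, 0], 0, 2, 1, [7, 2, 1], [0, 0, 0, 0, 0, 0, 0, 1, 1], [0, 0, 1], [0, 1, 0, 0, 0, 0, 0, 0, 1]⟩,
  ⟨[0, 1, 1, 1, 0, 1, 0, 0, 0, 1], 1, 1, 7, [2, 1, 5, 0], [0, 0, 1, 0, 0, 1], [0, 0, 0, 1, 0, 1, 0, 0, 0, 3], []⟩,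
  ⟨[0, 1, 1, 1, 0, 0, 1, 0, 1, 0], 1, 1, 7, [2, 1, 5, 0], [0, 0, 1, 0, 0, 0, 0, 0, 1], [0, 0, 0, 1, 0, 0, 2, 0, 2], []⟩,
  ⟨[0, 1, 1, 1, 0, 0, 0, 2, 0, 0], 0, 2, 1, [7, 2, 1], [0, 0, 0, 0, 0, 0, 0, 1], [0, 0, 1, 1], [0, 1, 0, 1]⟩,
  ⟨[0, 1, 1, 0, 2, 0, 0, 0, 0, 1], 0, 1, 1, [1, 0, 1, 6], [0, 0, 0, 0, 1, 0, 0, 0, 0, 2], [0, 1, 2, 0, 0, 0, 0, 0, 0, 1], []⟩,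
  ⟨[0, 1, 1, 0, 1, 1, 0, 0, 1, 0], 0, 1, 1, [1, 0, 1, 6], [0, 0, 0, 0, 1, 1, 0, 0, 2], [0, 1, 2, 0, 0, 1], []⟩,
  ⟨[0, 1, 1, 0, 1, 0, 1, 1, 0, 0], 7, 1, 1, [2, 1, 5, 0], [0, 0, 0, 0, 1, 0, 1], [0, 1, 2, 0, 0, 0, 2], []⟩,
  ⟨[0, 1, 1, 0, 0, 2, 0, 1, 0, 0], 7, 1, 1, [2, 1, 5, 0], [0, 0, 0, 0, 0, 1], [0, 1, 2, 0, 0, 1], []⟩,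
  ⟨[0, 1, 1, 0, 0, 1, 2, 0, 0, 0], 1, 1, 7, [2, 1, 5, 0], [0, 0, 1, 0, 0, 1], [0, 0, 0, 0, 0, 1, 2], []⟩,
  ⟨[0, 1, 1, 0, 0, 0, 0, 0, 0, 3], 0, 0, 9, [1, 0, 0, 10], [0, 1, 1], [0, 1, 0, 0, 0, 0, 0, 0, 0, 1], []⟩,
  ⟨[0, 1, 0, 2, 1, 0, 0, 0, 0, 1], 1, 1, 7, [2, 1, 5, 0], [0, 0, 0, 0, 2], [0, 0, 0, 1, 0, 0, 0, 0, 0, 3], []⟩,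
  ⟨[0, 1, 0, 2, 0, 1, 0, 0, 1, 0], 1, 1, 7, [2, 1, 5, 0], [0, 0, 0, 0, 0, 1, 0, 0, 1], [0, 0, 0, 1, 0, 1, 0, 0, 2], []⟩,
  ⟨[0, 1, 0, 2, 0, 0, 1, 1, 0, 0], 0, 2, 1, [6, 3, 1], [0, 0, 0, 0, 0, 0, 1, 1], [0, 0, 0, 1], [0, 1, 0, 0, 0, 0, 0, 1]⟩,
  ⟨[0, 1, 0, 1, 2, 0, 0, 0, 1, 0], 0, 1, 1, [1, 0, 1, 6], [0, 0, 0, 0, 1, 0, 0, 0, 2], [0, 1, 0, 3], []⟩,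
  ⟨[0, 1, 0, 1, 1, 1, 0, 1, 0, 0], 7, 1, 1, [2, 1, 5, 0], [0, 0, 0, 0, 1, 1], [0, 1, 0, 3, 0, 1], []⟩,
  ⟨[0, 1, 0, 1, 1, 0, 2, 0, 0, 0], 0, 2, 1, [6, 3, 1], [0, 0, 0, 0, 0, 0, 1], [0, 0, 0, 1, 1], [0, 1, 0, 0, 1]⟩,
  ⟨[0, 1, 0, 1, 0, 2, 1, 0, 0, 0], 1, 1, 7, [2, 1, 5, 0], [0, 0, 0, 0, 0, 1], [0, 0, 0, 1, 0, 1, 2], []⟩,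
  ⟨[0, 1, 0, 1, 0, 0, 0, 0, 1, 2], 0, 2, 1, [9, 8, 3], [0, 0, 0, 0, 0, 0, 0, 0, 0, 1], [0, 1, 0, 0, 0, 0, 0, 0, 1], [0, 1, 0, 1]⟩,
  ⟨[0, 1, 0, 0, 3, 0, 0, 1, 0, 0], 0, 1, 1, [1, 0, 1, 6], [0, 0, 0, 0, 1, 0, 0, 1], [0, 1, 0, 0, 0, 0, 0, 3], []⟩,
  ⟨[0, 1, 0, 0, 2, 1, 1, 0, 0, 0], 0, 1, 1, [1, 0, 1, 6], [0, 0, 0, 0, 1, 1, 1], [0, 1, 0, 0, 0, 1, 2], []⟩,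
  ⟨[0, 1, 0, 0, 1, 3, 0, 0, 0, 0], 0, 1, 1, [1, 0, 1, 6], [0, 0, 0, 0, 1, 1], [0, 1, 0, 0, 0, 1], []⟩,
  ⟨[0, 1, 0, 0, 1, 0, 0, 1, 0, 2], 0, 2, 1, [9, 7, 4], [0, 0, 0, 0, 0, 0, 0, 0, 0, 1], [0, 1, 0, 0, 0, 0, 0, 1], [0, 1, 0, 0, 1]⟩,
  ⟨[0, 1, 0, 0, 1, 0, 0, 0, 2, 1], 9, 1, 3, [2, 1, 5, 0], [0, 0, 0, 0, 0, 0, 0, 0, 1], [0, 3, 0, 0, 2], []⟩,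
  ⟨[0, 1, 0, 0, 0, 1, 1, 0, 0, 2], 0, 1, 9, [1, 0, 1, 6], [0, 2, 0, 0, 0, 1, 1], [0, 1, 0, 0, 0, 1, 0, 0, 0, 1], []⟩,
  ⟨[0, 1, 0, 0, 0, 1, 0, 1, 1, 1], 9, 1, 3, [2, 1, 5, 0], [0, 0, 0, 0, 0, 1, 0, 0, 1], [0, 3, 0, 0, 0, 1, 0, 1], []⟩,
  ⟨[0, 1, 0, 0, 0, 1, 0, 0, 3, 0], 0, 1, 3, [1, 0, 1, 6], [0, 0, 0, 0, 0, 1, 0, 0, 1], [0, 3, 0, 0, 0, 1], []⟩,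
  ⟨[0, 1, 0, 0, 0, 0, 2, 0, 1, 1], 0, 1, 9, [1, 0, 1, 6], [0, 2, 0, 0, 0, 0, 1], [0, 1, 0, 0, 0, 0, 0, 0, 2, 1], []⟩,
  ⟨[0, 1, 0, 0, 0, 0, 1, 2, 0, 1], 1, 3, 3, [9], [0, 0, 0, 0, 0, 0, 1], [0, 0, 0, 0, 0, 0, 0, 1, 0, 7], []⟩,
  ⟨[0, 1, 0, 0, 0, 0, 1, 1, 2, 0], 0, 1, 3, [1, 0, 1, 6], [0, 0, 0, 0, 0, 0, 2, 0, 1], [0, 3, 0, 0, 0, 0, 0, 1], []⟩,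
  ⟨[0, 1, 0, 0, 0, 0, 0, 3, 1, 0], 0, 1, 3, [1, 1, 5, 0], [0, 0, 0, 0, 0, 0, 0, 0, 1], [0, 3, 0, 0, 0, 0, 0, 1], []⟩,
  ⟨[0, 0, 5, 0, 0, 0, 0, 0, 0, 0], 0, 1, 7, [1, 1, 1, 6], [0, 0, 1], [], []⟩,
  ⟨[0, 0, 3, 0, 0, 1, 0, 0, 0, 1], 0, 1, 7, [1, 0, 1, 6], [0, 0, 1, 0, 0, 1], [0, 0, 0, 0, 0, 1, 0, 0, 0, 3], []⟩,
  ⟨[0, 0, 3, 0, 0, 0, 1, 0, 1, 0], 0, 1, 7, [1, 0, 1, 6], [0, 0, 1, 0, 0, 0, 0, 0, 1], [0, 0, 0, 0, 0, 0, 2, 0, 2], []⟩,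
  ⟨[0, 0, 3, 0, 0, 0, 0, 2, 0, 0], 0, 2, 1, [2, 7, 0], [0, 0, 1], [0, 0, 0, 0, 0, 0, 0, 1], []⟩,
  ⟨[0, 0, 2, 1, 1, 0, 0, 0, 0, 1], 0, 1, 7, [1, 0, 1, 6], [0, 0, 1, 0, 2], [0, 0, 0, 1, 0, 0, 0, 0, 0, 3], []⟩,
  ⟨[0, 0, 2, 1, 0, 1, 0, 0, 1, 0], 0, 1, 7, [1, 0, 1, 6], [0, 0, 1, 0, 0, 1, 0, 0, 1], [0, 0, 0, 1, 0, 1, 0, 0, 2], []⟩,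
  ⟨[0, 0, 2, 1, 0, 0, 1, 1, 0, 0], 0, 1, 7, [1, 0, 1, 6], [0, 0, 1, 0, 0, 0, 0, 2], [0, 0, 0, 1, 0, 0, 2, 1], []⟩,
  ⟨[0, 0, 2, 0, 2, 0, 0, 0, 1, 0], 0, 1, 1, [1, 0, 1, 6], [0, 0, 0, 0, 1, 0, 0, 0, 2], [0, 0, 2], []⟩,
  ⟨[0, 0, 2, 0, 1, 1, 0, 1, 0, 0], 7, 1, 1, [2, 1, 5, 0], [0, 0, 0, 0, 1, 1], [0, 0, 2, 0, 0, 1], []⟩,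
  ⟨[0, 0, 2, 0, 1, 0, 2, 0, 0, 0], 0, 1, 7, [1, 0, 1, 6], [0, 0, 1, 0, 2], [0, 0, 0, 0, 0, 0, 2], []⟩,
  ⟨[0, 0, 2, 0, 0, 2, 1, 0, 0, 0], 0, 1, 7, [1, 0, 1, 6], [0, 0, 1, 0, 0, 1], [0, 0, 0, 0, 0, 1, 2], []⟩,
  ⟨[0, 0, 2, 0, 0, 0, 0, 0, 1, 2], 0, 0, 9, [1, 0, 0, 10], [0, 0, 1], [0, 0, 0, 0, 0, 0, 0, 0, 2, 1], []⟩,
  ⟨[0, 0, 1, 3, 0, 0, 0, 0, 0, 1], 0, 1, 7, [1, 1, 5, 0], [0, 0, 1], [0, 0, 0, 1, 0, 0, 0, 0, 0, 3], []⟩,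
  ⟨[0, 0, 1, 2, 1, 0, 0, 0, 1, 0], 0, 1, 7, [1, 0, 1, 6], [0, 0, 1, 0, 2, 0, 0, 0, 1], [0, 0, 0, 1, 0, 0, 0, 0, 2], []⟩,
  ⟨[0, 0, 1, 2, 0, 1, 0, 1, 0, 0], 0, 1, 7, [1, 0, 1, 6], [0, 0, 1, 0, 0, 1, 0, 2], [0, 0, 0, 1, 0, 1, 0, 1], []⟩,
  ⟨[0, 0, 1, 2, 0, 0, 2, 0, 0, 0], 0, 1, 7, [1, 1, 5, 0], [0, 0, 1], [0, 0, 0, 1, 0, 0, 2], []⟩,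
  ⟨[0, 0, 1, 1, 2, 0, 0, 1, 0, 0], 7, 1, 1, [2, 1, 5, 0], [0, 0, 0, 0, 1], [0, 0, 2, 3], []⟩,
  ⟨[0, 0, 1, 1, 1, 1, 1, 0, 0, 0], 0, 1, 7, [1, 0, 1, 6], [0, 0, 1, 0, 2, 1], [0, 0, 0, 1, 0, 1, 2], []⟩,
  ⟨[0, 0, 1, 1, 0, 3, 0, 0, 0, 0], 0, 1, 7, [1, 0, 1, 6], [0, 0, 1, 0, 0, 1], [0, 0, 0, 1, 0, 1], []⟩,
  ⟨[0, 0, 1, 1, 0, 0, 0, 1, 0, 2], 3, 1, 9, [2, 1, 5, 0], [0, 0, 2], [0, 0, 0, 0, 0, 0, 0, 3, 0, 1], []⟩,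
  ⟨[0, 0, 1, 1, 0, 0, 0, 0, 2, 1], 0, 2, 1, [8, 9, 3], [0, 0, 0, 0, 0, 0, 0, 0, 1], [0, 0, 1, 0, 0, 0, 0, 0, 0, 1], [0, 0, 1, 1]⟩,
  ⟨[0, 0, 1, 0, 3, 0, 1, 0, 0, 0], 0, 1, 1, [1, 0, 1, 6], [0, 0, 0, 0, 1, 0, 1], [0, 0, 2, 0, 0, 0, 2], []⟩,
  ⟨[0, 0, 1, 0, 2, 2, 0, 0, 0, 0], 0, 1, 1, [1, 0, 1, 6], [0, 0, 0, 0, 1, 1], [0, 0, 2, 0, 0, 1], []⟩,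
  ⟨[0, 0, 1, 0, 1, 0, 1, 0, 0, 2], 0, 1, 9, [1, 0, 1, 6], [0, 0, 2, 0, 1, 0, 1], [0, 0, 0, 0, 2, 0, 0, 0, 0, 1], []⟩,
  ⟨[0, 0, 1, 0, 1, 0, 0, 1, 1, 1], 9, 1, 3, [2, 1, 5, 0], [0, 0, 1, 0, 0, 0, 0, 0, 1], [0, 0, 2, 0, 2, 0, 0, 1], []⟩,
  ⟨[0, 0, 1, 0, 1, 0, 0, 0, 3, 0], 0, 1, 3, [1, 0, 1, 6], [0, 0, 1, 0, 0, 0, 0, 0, 1], [0, 0, 2, 0, 2], []⟩,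
  ⟨[0, 0, 1, 0, 0, 2, 0, 0, 0, 2], 0, 1, 9, [1, 0, 1, 6], [0, 0, 2, 0, 0, 1], [0, 0, 0, 0, 0, 1, 0, 0, 0, 1], []⟩,
  ⟨[0, 0, 1, 0, 0, 1, 1, 0, 1, 1], 0, 1, 9, [1, 0, 1, 6], [0, 0, 2, 0, 0, 1, 1], [0, 0, 0, 0, 0, 1, 0, 0, 2, 1], []⟩,
  ⟨[0, 0, 1, 0, 0, 1, 0, 2, 0, 1], 9, 1, 3, [2, 1, 5, 0], [0, 0, 1, 0, 0, 1], [0, 0, 2, 0, 0, 1, 0, 1], []⟩,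
  ⟨[0, 0, 1, 0, 0, 1, 0, 1, 2, 0], 0, 1, 3, [1, 0, 1, 6], [0, 0, 1, 0, 0, 1, 0, 0, 1], [0, 0, 2, 0, 0, 1, 0, 1], []⟩,
  ⟨[0, 0, 1, 0, 0, 0, 2, 1, 0, 1], 0, 1, 9, [1, 0, 1, 6], [0, 0, 2, 0, 0, 0, 1], [0, 0, 0, 0, 0, 0, 0, 3, 0, 1], []⟩,
  ⟨[0, 0, 1, 0, 0, 0, 2, 0, 2, 0], 0, 1, 9, [1, 0, 1, 6], [0, 0, 2, 0, 0, 0, 1], [0, 0, 0, 0, 0, 0, 0, 0, 2], []⟩,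
  ⟨[0, 0, 1, 0, 0, 0, 1, 2, 1, 0], 0, 1, 3, [1, 0, 1, 6], [0, 0, 1, 0, 0, 0, 2, 0, 1], [0, 0, 2, 0, 0, 0, 0, 1], []⟩,
  ⟨[0, 0, 1, 0, 0, 0, 0, 4, 0, 0], 0, 0, 3, [1, 0, 0, 10], [0, 0, 2], [0, 0, 0, 0, 0, 0, 0, 1], []⟩,
  ⟨[0, 0, 0, 4, 0, 0, 0, 0, 1, 0], 0, 0, 7, [1, 0, 0, 10], [0, 0, 0, 0, 0, 0, 0, 0, 2], [0, 0, 0, 1], []⟩,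
  ⟨[0, 0, 0, 3, 1, 0, 0, 1, 0, 0], 0, 0, 7, [1, 0, 0, 10], [0, 0, 0, 0, 1, 0, 0, 1], [0, 0, 0, 1, 0, 0, 0, 1], []⟩,
  ⟨[0, 0, 0, 3, 0, 1, 1, 0, 0, 0], 0, 1, 7, [1, 1, 5, 0], [0, 0, 0, 0, 0, 1], [0, 0, 0, 1, 0, 1, 2], []⟩,
  ⟨[0, 0, 0, 2, 2, 0, 1, 0, 0, 0], 0, 0, 7, [1, 0, 0, 10], [0, 0, 0, 0, 1], [0, 0, 0, 1, 0, 0, 2], []⟩,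
  ⟨[0, 0, 0, 2, 1, 2, 0, 0, 0, 0], 0, 1, 7, [1, 0, 1, 6], [0, 0, 0, 0, 2, 1], [0, 0, 0, 1, 0, 1], []⟩,
  ⟨[0, 0, 0, 2, 0, 0, 1, 0, 0, 2], 0, 2, 1, [9, 8, 3], [0, 0, 0, 0, 0, 0, 0, 0, 0, 1], [0, 0, 0, 0, 0, 0, 2], [0, 0, 0, 1]⟩,
  ⟨[0, 0, 0, 2, 0, 0, 0, 1, 1, 1], 0, 2, 1, [9, 8, 3], [0, 0, 0, 0, 0, 0, 0, 1, 0, 1], [0, 0, 0, 0, 0, 0, 0, 1, 1], [0, 0, 0, 1]⟩,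
  ⟨[0, 0, 0, 2, 0, 0, 0, 0, 3, 0], 0, 2, 1, [8, 3, 0], [0, 0, 0, 0, 0, 0, 0, 0, 1], [0, 0, 0, 1], []⟩,
  ⟨[0, 0, 0, 1, 3, 1, 0, 0, 0, 0], 0, 1, 1, [1, 0, 1, 6], [0, 0, 0, 0, 1, 1], [0, 0, 0, 3, 0, 1], []⟩,
  ⟨[0, 0, 0, 1, 1, 1, 0, 0, 0, 2], 3, 1, 9, [2, 1, 5, 0], [0, 0, 0, 0, 1, 1], [0, 0, 0, 0, 2, 1, 0, 0, 0, 1], []⟩,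
  ⟨[0, 0, 0, 1, 1, 0, 1, 0, 1, 1], 3, 1, 9, [2, 1, 5, 0], [0, 0, 0, 0, 1, 0, 1], [0, 0, 0, 0, 2, 0, 0, 0, 2, 1], []⟩,
  ⟨[0, 0, 0, 1, 1, 0, 0, 2, 0, 1], 0, 2, 1, [7, 9, 4], [0, 0, 0, 0, 0, 0, 0, 1], [0, 0, 0, 1, 0, 0, 0, 0, 0, 1], [0, 0, 0, 1, 1]⟩,
  ⟨[0, 0, 0, 1, 1, 0, 0, 1, 2, 0], 0, 1, 3, [1, 0, 1, 6], [0, 0, 0, 2, 0, 0, 0, 0, 1], [0, 0, 0, 1, 2, 0, 0, 1], []⟩,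
  ⟨[0, 0, 0, 1, 0, 2, 0, 0, 1, 1], 3, 1, 9, [2, 1, 5, 0], [0, 0, 0, 0, 0, 1], [0, 0, 0, 0, 0, 1, 0, 0, 2, 1], []⟩,
  ⟨[0, 0, 0, 1, 0, 1, 1, 1, 0, 1], 3, 1, 9, [2, 1, 5, 0], [0, 0, 0, 0, 0, 1, 1], [0, 0, 0, 0, 0, 1, 0, 3, 0, 1], []⟩,
  ⟨[0, 0, 0, 1, 0, 1, 1, 0, 2, 0], 3, 1, 9, [2, 1, 5, 0], [0, 0, 0, 0, 0, 1, 1], [0, 0, 0, 0, 0, 1, 0, 0, 2], []⟩,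
  ⟨[0, 0, 0, 1, 0, 1, 0, 2, 1, 0], 0, 1, 3, [1, 0, 1, 6], [0, 0, 0, 2, 0, 1, 0, 0, 1], [0, 0, 0, 1, 0, 1, 0, 1], []⟩,
  ⟨[0, 0, 0, 1, 0, 0, 3, 0, 0, 1], 0, 1, 9, [1, 0, 1, 6], [0, 0, 0, 1, 0, 0, 1], [0, 0, 0, 3, 0, 0, 0, 0, 0, 1], []⟩,
  ⟨[0, 0, 0, 1, 0, 0, 2, 1, 1, 0], 3, 1, 9, [2, 1, 5, 0], [0, 0, 0, 0, 0, 0, 1], [0, 0, 0, 0, 0, 0, 0, 3, 2], []⟩,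
  ⟨[0, 0, 0, 1, 0, 0, 1, 3, 0, 0], 0, 0, 3, [1, 0, 0, 10], [0, 0, 0, 1, 0, 0, 1], [0, 0, 0, 1, 0, 0, 0, 1], []⟩,
  ⟨[0, 0, 0, 0, 5, 0, 0, 0, 0, 0], 0, 1, 1, [1, 1, 1, 6], [0, 0, 0, 0, 1], [], []⟩,
  ⟨[0, 0, 0, 0, 3, 0, 0, 0, 0, 2], 0, 2, 1, [4, 9, 0], [0, 0, 0, 0, 1], [0, 0, 0, 0, 0, 0, 0, 0, 0, 1], []⟩,
  ⟨[0, 0, 0, 0, 2, 1, 0, 0, 1, 1], 9, 1, 3, [2, 1, 5, 0], [0, 0, 0, 0, 0, 1, 0, 0, 1], [0, 0, 0, 0, 2, 1], []⟩,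
  ⟨[0, 0, 0, 0, 2, 0, 1, 1, 0, 1], 0, 2, 1, [9, 7, 4], [0, 0, 0, 0, 0, 0, 1, 0, 0, 1], [0, 0, 0, 0, 0, 0, 1, 1], [0, 0, 0, 0, 1]⟩,
  ⟨[0, 0, 0, 0, 2, 0, 1, 0, 2, 0], 0, 1, 3, [1, 0, 1, 6], [0, 0, 0, 0, 0, 0, 2, 0, 1], [0, 0, 0, 0, 2], []⟩,
  ⟨[0, 0, 0, 0, 2, 0, 0, 2, 1, 0], 0, 1, 3, [1, 1, 5, 0], [0, 0, 0, 0, 0, 0, 0, 0, 1], [0, 0, 0, 0, 2, 0, 0, 1], []⟩,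
  ⟨[0, 0, 0, 0, 1, 2, 0, 1, 0, 1], 9, 1, 3, [2, 1, 5, 0], [0, 0, 0, 0, 0, 1], [0, 0, 0, 0, 2, 1, 0, 1], []⟩,
  ⟨[0, 0, 0, 0, 1, 2, 0, 0, 2, 0], 0, 1, 3, [1, 0, 1, 6], [0, 0, 0, 0, 0, 1, 0, 0, 1], [0, 0, 0, 0, 2, 1], []⟩,
  ⟨[0, 0, 0, 0, 1, 1, 2, 0, 0, 1], 0, 1, 9, [1, 0, 1, 6], [0, 0, 0, 0, 1, 1, 1], [0, 0, 0, 0, 2, 1, 0, 0, 0, 1], []⟩,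
  ⟨[0, 0, 0, 0, 1, 1, 1, 1, 1, 0], 0, 1, 3, [1, 0, 1, 6], [0, 0, 0, 0, 0, 1, 2, 0, 1], [0, 0, 0, 0, 2, 1, 0, 1], []⟩,
  ⟨[0, 0, 0, 0, 1, 1, 0, 3, 0, 0], 0, 1, 3, [1, 1, 5, 0], [0, 0, 0, 0, 0, 1], [0, 0, 0, 0, 2, 1, 0, 1], []⟩,
  ⟨[0, 0, 0, 0, 1, 0, 3, 0, 1, 0], 0, 1, 9, [1, 0, 1, 6], [0, 0, 0, 0, 1, 0, 1], [0, 0, 0, 0, 2, 0, 0, 0, 2], []⟩,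
  ⟨[0, 0, 0, 0, 1, 0, 2, 2, 0, 0], 0, 0, 3, [1, 0, 0, 10], [0, 0, 0, 0, 0, 0, 1], [0, 0, 0, 0, 2, 0, 0, 1], []⟩,
  ⟨[0, 0, 0, 0, 1, 0, 0, 0, 0, 4], 0, 0, 9, [1, 0, 0, 10], [0, 0, 0, 0, 2], [0, 0, 0, 0, 0, 0, 0, 0, 0, 1], []⟩,
  ⟨[0, 0, 0, 0, 0, 3, 1, 0, 0, 1], 0, 1, 9, [1, 0, 1, 6], [0, 0, 0, 0, 0, 1, 1], [0, 0, 0, 0, 0, 1, 0, 0, 0, 1], []⟩,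
  ⟨[0, 0, 0, 0, 0, 3, 0, 1, 1, 0], 0, 1, 3, [1, 0, 1, 6], [0, 0, 0, 0, 0, 1, 0, 0, 1], [0, 0, 0, 0, 0, 1, 0, 1], []⟩,
  ⟨[0, 0, 0, 0, 0, 2, 2, 0, 1, 0], 0, 1, 9, [1, 0, 1, 6], [0, 0, 0, 0, 0, 1, 1], [0, 0, 0, 0, 0, 1, 0, 0, 2], []⟩,
  ⟨[0, 0, 0, 0, 0, 2, 1, 2, 0, 0], 0, 1, 3, [1, 0, 1, 6], [0, 0, 0, 0, 0, 1, 2], [0, 0, 0, 0, 0, 1, 0, 1], []⟩,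
  ⟨[0, 0, 0, 0, 0, 1, 3, 1, 0, 0], 0, 1, 9, [1, 0, 1, 6], [0, 0, 0, 0, 0, 1, 1], [0, 0, 0, 0, 0, 1, 0, 3], []⟩,
  ⟨[0, 0, 0, 0, 0, 1, 0, 0, 1, 3], 0, 1, 9, [1, 1, 5, 0], [0, 0, 0, 0, 0, 1], [0, 0, 0, 0, 0, 1, 0, 0, 2, 1], []⟩,
  ⟨[0, 0, 0, 0, 0, 0, 5, 0, 0, 0], 0, 1, 9, [1, 1, 1, 6], [0, 0, 0, 0, 0, 0, 1], [], []⟩,
  ⟨[0, 0, 0, 0, 0, 0, 1, 1, 0, 3], 0, 1, 9, [1, 1, 5, 0], [0, 0, 0, 0, 0, 0, 1], [0, 0, 0, 0, 0, 0, 0, 3, 0, 1], []⟩,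
  ⟨[0, 0, 0, 0, 0, 0, 1, 0, 2, 2], 0, 1, 9, [1, 1, 5, 0], [0, 0, 0, 0, 0, 0, 1], [0, 0, 0, 0, 0, 0, 0, 0, 2, 1], []⟩,
  ⟨[0, 0, 0, 0, 0, 0, 0, 2, 1, 2], 0, 2, 1, [9, 4, 7], [0, 0, 0, 0, 0, 0, 0, 0, 0, 1], [0, 0, 0, 0, 0, 0, 0, 0, 2], [0, 0, 0, 0, 0, 0, 0, 1]⟩,
  ⟨[0, 0, 0, 0, 0, 0, 0, 1, 3, 1], 0, 1, 3, [1, 0, 1, 6], [0, 0, 0, 0, 0, 0, 0, 0, 1, 1], [0, 0, 0, 0, 0, 0, 0, 1, 0, 3], []⟩,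
  ⟨[0, 0, 0, 0, 0, 0, 0, 0, 5, 0], 0, 1, 3, [1, 1, 1, 6], [0, 0, 0, 0, 0, 0, 0, 0, 1], [], []⟩]

theorem covers10 : Covers 10 certs10 := by decide +kernel

end Pool.Agent.Helper75.WC
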