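import Pool.Agent.Helper75.WC.CurveGroup

/-! Project WC. The branch curves for which there is no condition on the exponent `n`. -/

set_option autoImplicit false

namespace Pool.Agent.Helper75.WC

open IntermediateField MvPolynomial

variable {Ω R M : Type} [Field Ω] [IsAlgClosed Ω] [Field R] [Field M] [Algebra Ω R] [Algebra Ω M]
    [Algebra R M] [IsScalarTower Ω R M]

/-- two components of degree at most two -/
theorem Rep.two {n : ℕ} {D : ℕ → ℕ} (H : Rep Ω R M n D) (hn : 0 < n) {k1 k2 : ℕ}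
    (h0 : ∀ e < n, e ≠ k1 → e ≠ k2 → D e = 0) (h1 : D k1 ≤ 2) (h2 : D k2 ≤ 2) : Lst Ω R M n := by
  classical
  by_cases h12 : k1 = k2
  · subst h12
    refine H.lstT hn (t := 1) (a := k1) (b := 0) (c := (n - 1) * k1) (Nat.coprime_one_left n)
      (fun e => if e = k1 then 1 else 0) (fun _ => 0) (fun _ => 0) ?_ (Or.inr ⟨?_, ?_, ?_, ?_⟩)
    · intro e he
      by_cases h3 : e = k1
      · subst h3
        right
        simp
      · exact Or.inl (h0 e he h3 h3)
    · simp only [ite_mul, one_mul, zero_mul]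
      rw [Finset.sum_ite_eq']
      split_ifs <;> omega
    · simp
    · simp
    · refine ⟨k1, ?_⟩
      obtain ⟨m, rfl⟩ : ∃ m, n = m + 1 := ⟨n - 1, by omega⟩
      rw [Nat.add_sub_cancel]
      ring
  · refine H.lstT hn (t := 1) (a := k1) (b := k2) (c := (n - 1) * (k1 + k2))
      (Nat.coprime_one_left n)
      (fun e => if e = k1 then 1 else 0) (fun e => if e = k2 then 1 else 0) (fun _ => 0) ?_
      (Or.inr ⟨?_, ?_, ?_, ?_⟩)
    · intro e he
      by_cases h3 : e = k1
      · subst h3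
        right
        simp [h12]
      · by_cases h4 : e = k2
        · subst h4
          right
          simp [h3]
        · exact Or.inl (h0 e he h3 h4)
    · simp only [ite_mul, one_mul, zero_mul]
      rw [Finset.sum_ite_eq']
      split_ifs <;> omega
    · simp only [ite_mul, one_mul, zero_mul]
      rw [Finset.sum_ite_eq']
      split_ifs <;> omega
    · simp
    · refine ⟨k1 + k2, ?_⟩
      obtain ⟨m, rfl⟩ : ∃ m, n = m + 1 := ⟨n - 1, by omega⟩
      rw [Nat.add_sub_cancel]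
      ring

/-- a cubic and a conic -/
theorem Rep.threeTwo {n : ℕ} {D : ℕ → ℕ} (H : Rep Ω R M n D) (hn : 0 < n) {k1 k2 : ℕ}
    (h12 : k1 ≠ k2) (hk1 : k1 < n) (hk2 : k2 < n)
    (h0 : ∀ e < n, e ≠ k1 → e ≠ k2 → D e = 0) (h1 : D k1 = 3) (h2 : D k2 = 2)
    (hsum : n ∣ ∑ e ∈ Finset.range n, e * D e) : Lst Ω R M n := by
  classical
  have h5 : ∑ e ∈ Finset.range n, e * D e = 3 * k1 + 2 * k2 := by
    rw [Finset.sum_eq_add_of_mem k1 k2 (Finset.mem_range.2 hk1) (Finset.mem_range.2 hk2) h12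
      (fun e he h => by rw [h0 e (Finset.mem_range.1 he) h.1 h.2, mul_zero]), h1, h2]
    ring
  rw [h5] at hsum
  refine H.lstT hn (t := 1) (a := k1) (b := k2) (c := 0) (Nat.coprime_one_left n)
    (fun e => if e = k1 then 1 else 0) (fun e => if e = k2 then 1 else 0) (fun _ => 0) ?_
    (Or.inl ⟨?_, ?_, fun _ => rfl, hsum⟩)
  · intro e he
    by_cases h3 : e = k1
    · subst h3
      right
      simp [h12]
    · by_cases h4 : e = k2
      · subst h4
        right
        simp [h3]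
      · exact Or.inl (h0 e he h3 h4)
  · simp only [ite_mul, one_mul, zero_mul]
    rw [Finset.sum_ite_eq']
    split_ifs <;> omega
  · simp only [ite_mul, one_mul, zero_mul]
    rw [Finset.sum_ite_eq']
    split_ifs <;> omega

/-- the exponent of the only component is a unit -/
theorem Rep.unit {n : ℕ} {D : ℕ → ℕ} (H : Rep Ω R M n D) (hn : 0 < n)
    (hfin : Module.finrank R M = n) {k1 : ℕ} (hk1 : k1 < n)
    (h0 : ∀ e < n, e ≠ k1 → D e = 0) : k1.Coprime n := by
  classical
  obtain ⟨g, hg⟩ : ∃ g, g = k1.gcd n := ⟨_, rfl⟩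
  have hg0 : 0 < g := by
    rw [hg]
    exact Nat.gcd_pos_of_pos_right _ hn
  obtain ⟨m, hm⟩ : g ∣ n := by
    rw [hg]
    exact Nat.gcd_dvd_right _ _
  obtain ⟨l, hl⟩ : g ∣ k1 := by
    rw [hg]
    exact Nat.gcd_dvd_left _ _
  have hm0 : 0 < m := Nat.pos_of_ne_zero fun h => by
    rw [h, mul_zero] at hm
    omega
  -- `u = p ^ k1 c`
  have h1 : ∀ e ∈ Finset.range n, e ≠ k1 → ∃ c : Ω, aeval ![H.x, H.y] (H.P e) ^ e =
      algebraMap Ω R c := by
    intro e he hne
    obtain ⟨c, hc⟩ := aeval_const H.x H.y (P := H.P e)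
      ((H.deg e).trans (h0 e (Finset.mem_range.1 he) hne).le)
    exact ⟨c ^ e, by rw [hc, map_pow]⟩
  obtain ⟨c, hc⟩ : ∃ c : Ω, ∏ e ∈ (Finset.range n).erase k1, aeval ![H.x, H.y] (H.P e) ^ e =
      algebraMap Ω R c := by
    have h2 : ∀ e, ∃ c : Ω, e ∈ (Finset.range n).erase k1 → aeval ![H.x, H.y] (H.P e) ^ e =
        algebraMap Ω R c := by
      intro e
      by_cases he : e ∈ (Finset.range n).erase k1
      · rw [Finset.mem_erase] at he
        obtain ⟨c, hc⟩ := h1 e he.2 he.1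
        exact ⟨c, fun _ => hc⟩
      · exact ⟨0, fun h => absurd h he⟩
    choose c hc using h2
    exact ⟨∏ e ∈ (Finset.range n).erase k1, c e, by rw [map_prod, Finset.prod_congr rfl hc]⟩
  obtain ⟨γ, hγ⟩ := IsAlgClosed.exists_pow_nat_eq c hg0
  obtain ⟨q, hq⟩ : ∃ q : R, q = aeval ![H.x, H.y] (H.P k1) ^ l * algebraMap Ω R γ := ⟨_, rfl⟩
  have hu : ∏ e ∈ Finset.range n, aeval ![H.x, H.y] (H.P e) ^ e = q ^ g := by
    rw [← Finset.mul_prod_erase _ _ (Finset.mem_range.2 hk1), hc, hq, mul_pow, ← pow_mul,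
      mul_comm l g, ← hl, ← map_pow _ γ, hγ]
  have hq0 : q ≠ 0 := by
    intro h
    rw [h, zero_pow hg0.ne'] at hu
    exact Finset.prod_ne_zero_iff.2 (fun e _ => pow_ne_zero e (H.ne e)) hu
  have hqM : algebraMap R M q ≠ 0 := by simpa using hq0
  -- `w ^ m / q` is a root of unity
  have h3 : (H.w ^ m / algebraMap R M q) ^ g = 1 := by
    rw [div_pow, ← pow_mul, mul_comm m g, ← hm, H.eq, hu, map_pow, div_self (pow_ne_zero _ hqM)]
  have h4 : ∃ ζ : Ω, H.w ^ m / algebraMap R M q = algebraMap Ω M ζ := by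
    have h5 : IsIntegral Ω (H.w ^ m / algebraMap R M q) := by
      refine ⟨Polynomial.X ^ g - Polynomial.C 1, Polynomial.monic_X_pow_sub_C _ hg0.ne', ?_⟩
      simp [h3]
    have h6 : Algebra.IsIntegral Ω Ω⟮H.w ^ m / algebraMap R M q⟯ := by
      have := IntermediateField.isAlgebraic_adjoin_simple h5
      exact Algebra.IsAlgebraic.isIntegral
    obtain ⟨ζ, hζ⟩ := (IsAlgClosed.algebraMap_bijective_of_isIntegral
      (k := Ω) (K := Ω⟮H.w ^ m / algebraMap R M q⟯)).2
        ⟨_, IntermediateField.mem_adjoin_simple_self Ω _⟩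
    exact ⟨ζ, (congrArg Subtype.val hζ).symm⟩
  obtain ⟨ζ, hζ⟩ := h4
  have h7 : H.w ^ m = algebraMap R M (q * algebraMap Ω R ζ) := by
    rw [map_mul, ← IsScalarTower.algebraMap_apply, ← hζ, mul_div_cancel₀ _ hqM]
  -- the degree
  have h8 : Polynomial.aeval H.w (Polynomial.X ^ m - Polynomial.C (q * algebraMap Ω R ζ)) = 0 := by
    rw [map_sub, map_pow, Polynomial.aeval_X, Polynomial.aeval_C, h7, sub_self]
  have h9 : IsIntegral R H.w :=
    ⟨_, Polynomial.monic_X_pow_sub_C _ hm0.ne', by rwa [← Polynomial.aeval_def]⟩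
  have h10 : n ≤ m := by
    have h11 := IntermediateField.adjoin.finrank h9
    rw [H.top, IntermediateField.finrank_top', hfin] at h11
    rw [h11, ← Polynomial.natDegree_X_pow_sub_C (n := m) (r := q * algebraMap Ω R ζ)]
    exact Polynomial.natDegree_le_of_dvd (minpoly.dvd R H.w h8)
      (Polynomial.monic_X_pow_sub_C _ hm0.ne').ne_zero
  rw [Nat.coprime_iff_gcd_eq_one, ← hg]
  by_contra h12
  have h13 : 2 ≤ g := by omega
  have h14 : 2 * m ≤ g * m := Nat.mul_le_mul_right _ h13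
  omega

/-- `t k1 = 1` modulo `n` -/
theorem exists_inv {n k1 : ℕ} (hn : 0 < n) (h : k1.Coprime n) :
    ∃ t : ℕ, t.Coprime n ∧ (t * k1) % n = 1 % n := by
  rcases Nat.lt_or_ge 1 n with h1 | h1
  · obtain ⟨t, -, ht⟩ := Nat.exists_mul_mod_eq_one_of_coprime h h1
    refine ⟨t, ?_, ?_⟩
    · have h2 : (k1 * t).Coprime n := by
        rw [Nat.coprime_comm, Nat.coprime_iff_gcd_eq_one, Nat.gcd_rec, ht]
        exact Nat.gcd_one_left n
      exact Nat.Coprime.coprime_mul_left h2
    · rw [mul_comm, ht, Nat.mod_eq_of_lt h1]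
  · have h2 : n = 1 := by omega
    subst h2
    exact ⟨1, Nat.coprime_one_left 1, by omega⟩

/-- one component of degree at most four -/
theorem Rep.four {n : ℕ} {D : ℕ → ℕ} (H : Rep Ω R M n D) (hn : 0 < n)
    (hfin : Module.finrank R M = n) {k1 : ℕ} (hk1 : k1 < n)
    (h0 : ∀ e < n, e ≠ k1 → D e = 0) (h1 : D k1 ≤ 4) : Lst Ω R M n := by
  classical
  obtain ⟨t, ht, ht'⟩ := exists_inv hn (H.unit hn hfin hk1 h0)
  refine H.lstA hn (a := 1) (c := 0) (i := n) (j := n) ht (fun _ => 0)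
    (fun e => if e = k1 then 1 else 0) ?_ (by omega) (Or.inr rfl) (Or.inl (by omega)) (by simp) ?_
  · intro e he
    by_cases h3 : e = k1
    · subst h3
      right
      simpa using ht'
    · exact Or.inl (h0 e he h3)
  · simp only [ite_mul, one_mul, zero_mul]
    rw [Finset.sum_ite_eq', if_pos (Finset.mem_range.2 hk1)]
    omega

/-- one component of degree five -/
theorem Rep.five {n : ℕ} {D : ℕ → ℕ} (H : Rep Ω R M n D) (hn : 0 < n)
    (hfin : Module.finrank R M = n) {k1 : ℕ} (hk1 : k1 < n)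
    (h0 : ∀ e < n, e ≠ k1 → D e = 0) (h1 : D k1 = 5)
    (hsum : n ∣ ∑ e ∈ Finset.range n, e * D e) : Lst Ω R M n := by
  classical
  have hu := H.unit hn hfin hk1 h0
  obtain ⟨t, ht, ht'⟩ := exists_inv hn hu
  rw [Finset.sum_eq_single_of_mem k1 (Finset.mem_range.2 hk1) (fun e he h => by
    rw [h0 e (Finset.mem_range.1 he) h, mul_zero]), h1] at hsum
  have h2 : n ∣ 5 := (Nat.Coprime.dvd_of_dvd_mul_left hu.symm hsum)
  rcases (Nat.dvd_prime (by norm_num : Nat.Prime 5)).1 h2 with h3 | h3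
  · subst h3
    refine H.lstA hn (a := 1) (c := 0) (i := 1) (j := 1) ht (fun _ => 0) (fun _ => 0) ?_
      (by omega) (Or.inr rfl) (Or.inl (by omega)) (by simp) (by simp)
    intro e _
    right
    omega
  · subst h3
    refine H.lstA hn (a := 1) (c := 1) (i := 3) (j := 1) ht (fun _ => 0)
      (fun e => if e = k1 then 1 else 0) ?_ (by omega) (Or.inl (by omega)) (Or.inl (by omega))
      (by simp) ?_
    · intro e he
      by_cases h3 : e = k1
      · subst h3
        right
        simpa using ht'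
      · exact Or.inl (h0 e he h3)
    · simp only [ite_mul, one_mul, zero_mul]
      rw [Finset.sum_ite_eq', if_pos (Finset.mem_range.2 hk1), h1]

/-- three lines and the line at infinity -/
def Lin (Ω R M : Type) [Field Ω] [Field R] [Field M] [Algebra Ω R] [Algebra Ω M]
    [Algebra R M] (n : ℕ) : Prop :=
  ∃ (x y : R) (w : M) (a b c : ℕ) (f g h : MvPolynomial (Fin 2) Ω), adjoin Ω {x, y} = ⊤ ∧
    adjoin R {w} = ⊤ ∧ f.totalDegree ≤ 1 ∧ g.totalDegree ≤ 1 ∧ h.totalDegree ≤ 1 ∧
    aeval ![algebraMap R M x, algebraMap R M y] f ≠ 0 ∧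
    aeval ![algebraMap R M x, algebraMap R M y] g ≠ 0 ∧
    aeval ![algebraMap R M x, algebraMap R M y] h ≠ 0 ∧
    w ^ n = aeval ![algebraMap R M x, algebraMap R M y] f ^ a *
      aeval ![algebraMap R M x, algebraMap R M y] g ^ b *
      aeval ![algebraMap R M x, algebraMap R M y] h ^ c

/-- **The types without a condition on `n`.** -/
theorem Rep.free {n : ℕ} {D : ℕ → ℕ} (H : Rep Ω R M n D) (hn : 0 < n)
    (hfin : Module.finrank R M = n) (hsum : n ∣ ∑ e ∈ Finset.range n, e * D e)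
    (h5 : ∑ e ∈ Finset.range n, D e ≤ 5)
    (hc : ∑ e ∈ Finset.range n, D e ≤ 4 ∧ ((Finset.range n).filter fun e => D e ≠ 0).card ≤ 3 ∨
      ((Finset.range n).filter fun e => D e = 1).card ≤ 1) : Lst Ω R M n := by
  classical
  obtain ⟨K, hK⟩ : ∃ K, K = (Finset.range n).filter fun e => D e ≠ 0 := ⟨_, rfl⟩
  have hKn : ∀ e, e < n → e ∉ K → D e = 0 := by
    intro e he hne
    by_contra h
    exact hne (by rw [hK]; exact Finset.mem_filter.2 ⟨Finset.mem_range.2 he, h⟩)
  have hKpos : ∀ e ∈ K, e < n ∧ 0 < D e := by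
    intro e he
    rw [hK, Finset.mem_filter, Finset.mem_range] at he
    exact ⟨he.1, Nat.pos_of_ne_zero he.2⟩
  have hKs : ∑ e ∈ Finset.range n, D e = ∑ e ∈ K, D e := by
    rw [hK, Finset.sum_filter_ne_zero]
  -- the number of residues is at most three
  have hK3 : K.card ≤ 3 := by
    rcases hc with hc | hc
    · rw [hK]
      exact hc.2
    · by_contra h
      have h1 : ∑ e ∈ K, (if D e = 1 then 1 else 2) ≤ ∑ e ∈ K, D e := by
        refine Finset.sum_le_sum fun e he => ?_
        have := (hKpos e he).2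
        split_ifs <;> omega
      have h2 : ∑ e ∈ K, (if D e = 1 then 1 else 2) + (K.filter fun e => D e = 1).card =
          2 * K.card := by
        rw [Finset.card_filter, ← Finset.sum_add_distrib, Finset.card_eq_sum_ones,
          Finset.mul_sum]
        refine Finset.sum_congr rfl fun e _ => ?_
        split_ifs <;> rfl
      have h3 : (K.filter fun e => D e = 1).card ≤ 1 := by
        refine (Finset.card_le_card ?_).trans hc
        intro e he
        rw [Finset.mem_filter] at he ⊢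
        exact ⟨Finset.mem_range.2 (hKpos e he.1).1, he.2⟩
      omega
  have hlines : ∀ a b c : ℕ, a ∈ K → b ∈ K → c ∈ K → a ≠ b → a ≠ c → b ≠ c → D a = 1 → D b = 1 →
      ∑ e ∈ Finset.range n, D e ≤ 4 := by
    intro a b c ha hb hcc hab hac hbc h1 h2
    rcases hc with hc | hc
    · exact hc.1
    · exfalso
      have h3 : ({a, b} : Finset ℕ) ⊆ (Finset.range n).filter fun e => D e = 1 := by
        intro e he
        rw [Finset.mem_insert, Finset.mem_singleton] at he
        rcases he with rfl | rfl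
        · exact Finset.mem_filter.2 ⟨Finset.mem_range.2 (hKpos _ ha).1, h1⟩
        · exact Finset.mem_filter.2 ⟨Finset.mem_range.2 (hKpos _ hb).1, h2⟩
      have h4 := Finset.card_le_card h3
      rw [Finset.card_pair hab] at h4
      omega
  rw [hKs] at h5 hlines
  have h6 : K.card = 0 ∨ K.card = 1 ∨ K.card = 2 ∨ K.card = 3 := by omega
  rcases h6 with h6 | h6 | h6 | h6
  · -- no component
    rw [Finset.card_eq_zero] at h6
    have h7 : ∀ e < n, D e = 0 := fun e he => hKn e he (by rw [h6]; exact Finset.notMem_empty _)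
    exact H.two hn (k1 := 0) (k2 := 0) (fun e he _ _ => h7 e he) (by rw [h7 0 hn]; omega)
      (by rw [h7 0 hn]; omega)
  · obtain ⟨k1, rfl⟩ := Finset.card_eq_one.1 h6
    have hk1 := hKpos k1 (Finset.mem_singleton_self _)
    have h0 : ∀ e < n, e ≠ k1 → D e = 0 := fun e he hne =>
      hKn e he (by rwa [Finset.mem_singleton])
    rw [Finset.sum_singleton] at h5
    rcases Nat.lt_or_ge 4 (D k1) with h7 | h7
    · exact H.five hn hfin hk1.1 h0 (by omega) hsum
    · exact H.four hn hfin hk1.1 h0 h7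
  · obtain ⟨k1, k2, h12, rfl⟩ := Finset.card_eq_two.1 h6
    have hk1 := hKpos k1 (by simp)
    have hk2 := hKpos k2 (by simp)
    have h0 : ∀ e < n, e ≠ k1 → e ≠ k2 → D e = 0 := fun e he hne hne' =>
      hKn e he (by rw [Finset.mem_insert, Finset.mem_singleton]; tauto)
    rw [Finset.sum_pair h12] at h5
    -- the case `D k2 ≤ D k1`
    have key : ∀ k1 k2 : ℕ, k1 ≠ k2 → k1 < n → k2 < n → 0 < D k2 → D k2 ≤ D k1 →
        D k1 + D k2 ≤ 5 → (∀ e < n, e ≠ k1 → e ≠ k2 → D e = 0) → Lst Ω R M n := by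
      intro k1 k2 h12 hk1 hk2 hp hle h5 h0
      rcases Nat.lt_or_ge 2 (D k1) with h7 | h7
      · rcases Nat.lt_or_ge 1 (D k2) with h8 | h8
        · exact H.threeTwo hn h12 hk1 hk2 h0 (by omega) (by omega) hsum
        · obtain ⟨H'⟩ := H.move (Finset.mem_range.2 hk2) (by omega) hsum
          refine H'.four hn hfin hk1 (fun e he hne => ?_) ?_
          · by_cases h9 : e = k2
            · rw [h9, Function.update_self]
            · rw [Function.update_of_ne h9, h0 e he hne h9]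
          · rw [Function.update_of_ne h12]
            omega
      · exact H.two hn h0 h7 (by omega)
    rcases Nat.le_total (D k2) (D k1) with h7 | h7
    · exact key k1 k2 h12 hk1.1 hk2.1 hk2.2 h7 h5 h0
    · exact key k2 k1 (Ne.symm h12) hk2.1 hk1.1 hk1.2 h7 (by omega)
        (fun e he h1 h2 => h0 e he h2 h1)
  · obtain ⟨k1, k2, k3, h12, h13, h23, rfl⟩ := Finset.card_eq_three.1 h6
    have hk1 := hKpos k1 (by simp)
    have hk2 := hKpos k2 (by simp)
    have hk3 := hKpos k3 (by simp)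
    have h0 : ∀ e < n, e ≠ k1 → e ≠ k2 → e ≠ k3 → D e = 0 := fun e he hne hne' hne'' =>
      hKn e he (by rw [Finset.mem_insert, Finset.mem_insert, Finset.mem_singleton]; tauto)
    have hs : ∑ e ∈ ({k1, k2, k3} : Finset ℕ), D e = D k1 + D k2 + D k3 := by
      rw [Finset.sum_insert (by simp [h12, h13]), Finset.sum_pair h23]
      ring
    rw [hs] at h5 hlines
    have l12 := hlines k1 k2 k3 (by simp) (by simp) (by simp) h12 h13 h23
    have l13 := hlines k1 k3 k2 (by simp) (by simp) (by simp) h13 h12 (Ne.symm h23)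
    have l23 := hlines k2 k3 k1 (by simp) (by simp) (by simp) h23 (Ne.symm h12) (Ne.symm h13)
    -- the line `k3` is moved
    have key : ∀ k1 k2 k3 : ℕ, k1 ≠ k3 → k2 ≠ k3 → k3 < n → D k3 = 1 → D k1 ≤ 2 → D k2 ≤ 2 →
        (∀ e < n, e ≠ k1 → e ≠ k2 → e ≠ k3 → D e = 0) → Lst Ω R M n := by
      intro k1 k2 k3 h13 h23 hk3 hd3 hd1 hd2 h0
      obtain ⟨H'⟩ := H.move (Finset.mem_range.2 hk3) hd3 hsum
      refine H'.two hn (k1 := k1) (k2 := k2) (fun e he h1 h2 => ?_) ?_ ?_
      · by_cases h9 : e = k3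
        · rw [h9, Function.update_self]
        · rw [Function.update_of_ne h9, h0 e he h1 h2 h9]
      · rw [Function.update_of_ne h13]
        exact hd1
      · rw [Function.update_of_ne h23]
        exact hd2
    have h7 : (D k3 = 1 ∧ D k1 ≤ 2 ∧ D k2 ≤ 2) ∨ (D k2 = 1 ∧ D k1 ≤ 2 ∧ D k3 ≤ 2) ∨
        (D k1 = 1 ∧ D k2 ≤ 2 ∧ D k3 ≤ 2) := by omega
    rcases h7 with h7 | h7 | h7
    · exact key k1 k2 k3 h13 h23 hk3.1 h7.1 h7.2.1 h7.2.2 h0
    · exact key k1 k3 k2 h12 (Ne.symm h23) hk2.1 h7.1 h7.2.1 h7.2.2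
        (fun e he h1 h2 h3 => h0 e he h1 h3 h2)
    · exact key k2 k3 k1 (Ne.symm h12) (Ne.symm h13) hk1.1 h7.1 h7.2.1 h7.2.2
        (fun e he h1 h2 h3 => h0 e he h3 h1 h2)

end Pool.Agent.Helper75.WC
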