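import Pool.Agent.Helper75.WC.CurveData

/-! Project WC. The components of the branch curve with the same exponent are put together. -/

set_option autoImplicit false

namespace Pool.Agent.Helper75.WC

open IntermediateField MvPolynomial

/-- the type of a curve with the components of the degrees `d i` and exponents `e i` -/
def typ (n : ℕ) {r : ℕ} (d e : Fin r → ℕ) : List ℕ :=
  (List.range (n - 1)).map fun k => ∑ i with e i % n = k + 1, d i

theorem ent_typ {n : ℕ} {r : ℕ} (d e : Fin r → ℕ) (k : ℕ) :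
    ent (0 :: typ n d e) k = if k = 0 ∨ n ≤ k then 0 else ∑ i with e i % n = k, d i := by
  unfold ent typ
  rcases k with _ | k
  · simp
  · rw [List.getD_cons_succ, List.getD_eq_getElem?_getD, List.getElem?_map]
    by_cases h : k < n - 1
    · have h2 : ¬ (k + 1 = 0 ∨ n ≤ k + 1) := by omega
      rw [if_neg h2, List.getElem?_range h]
      rfl
    · have h2 : k + 1 = 0 ∨ n ≤ k + 1 := by omega
      rw [if_pos h2, List.getElem?_eq_none (by rw [List.length_range]; omega)]
      rfl

theorem sum_map_range (f : ℕ → ℕ) (m : ℕ) :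
    ((List.range m).map f).sum = ∑ k ∈ Finset.range m, f k := by
  induction m with
  | zero => simp
  | succ m ih => rw [List.range_succ, List.map_append, List.sum_append, ih,
      Finset.sum_range_succ, List.map_singleton, List.sum_singleton]

theorem typ_sum {n : ℕ} {r : ℕ} (d e : Fin r → ℕ) : (typ n d e).sum ≤ ∑ i, d i := by
  unfold typ
  rw [sum_map_range]
  simp only [Finset.sum_filter]
  rw [Finset.sum_comm]
  refine Finset.sum_le_sum fun i _ => ?_
  rcases e i % n with _ | g
  · simp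
  · simp only [Nat.add_right_cancel_iff]
    rw [Finset.sum_ite_eq]
    split_ifs <;> omega

theorem typ_length {n : ℕ} {r : ℕ} (d e : Fin r → ℕ) : (typ n d e).length = n - 1 := by
  unfold typ
  simp

theorem typ_wsum {n : ℕ} (hn : 0 < n) {r : ℕ} (d e : Fin r → ℕ) :
    ∑ k ∈ Finset.range n, k * ent (0 :: typ n d e) k = ∑ i, d i * (e i % n) := by
  have h1 : ∀ k ∈ Finset.range n, k * ent (0 :: typ n d e) k =
      ∑ i, if e i % n = k then k * d i else 0 := by
    intro k hk
    rw [Finset.mem_range] at hk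
    rw [ent_typ, ← Finset.sum_filter, ← Finset.mul_sum]
    by_cases h : k = 0
    · rw [h]
      simp
    · rw [if_neg (by omega)]
  rw [Finset.sum_congr rfl h1, Finset.sum_comm]
  refine Finset.sum_congr rfl fun i _ => ?_
  rw [Finset.sum_ite_eq, if_pos (Finset.mem_range.2 (Nat.mod_lt _ hn)), mul_comm]

theorem typ_dvd {n : ℕ} (hn : 0 < n) {r : ℕ} (d e : Fin r → ℕ) (h : n ∣ ∑ i, d i * e i) :
    n ∣ ∑ k ∈ Finset.range n, k * ent (0 :: typ n d e) k := by
  rw [typ_wsum hn]
  rw [Nat.dvd_iff_mod_eq_zero] at h ⊢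
  rw [← h, Finset.sum_nat_mod, Finset.sum_nat_mod Finset.univ n (fun i => d i * e i)]
  congr 1
  refine Finset.sum_congr rfl fun i _ => ?_
  rw [Nat.mul_mod, Nat.mod_mod, ← Nat.mul_mod]

variable {Ω R M : Type} [Field Ω] [Field R] [Field M] [Algebra Ω R] [Algebra Ω M]
    [Algebra R M]

/-- **The representation of a cyclic cover.** -/
theorem rep_of_curve {n : ℕ} (hn : 0 < n) {x y : R} {w : M} (hR : adjoin Ω {x, y} = ⊤)
    (hw : adjoin R {w} = ⊤) {r : ℕ} (d e : Fin r → ℕ) (f : Fin r → MvPolynomial (Fin 2) Ω)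
    (hd : ∀ i, (f i).totalDegree ≤ d i) (hne : ∀ i, aeval ![x, y] (f i) ≠ 0)
    (heq : w ^ n = algebraMap R M (∏ i, aeval ![x, y] (f i) ^ e i)) :
    Nonempty (Rep Ω R M n (ent (0 :: typ n d e))) := by
  classical
  obtain ⟨z, hz⟩ : ∃ z : R, z = ∏ i, aeval ![x, y] (f i) ^ (e i / n) := ⟨_, rfl⟩
  have hz0 : z ≠ 0 := by
    rw [hz, Finset.prod_ne_zero_iff]
    exact fun i _ => pow_ne_zero _ (hne i)
  have hzM : algebraMap R M z ≠ 0 := by simpa using hz0
  let P : ℕ → MvPolynomial (Fin 2) Ω := fun k =>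
    if k = 0 ∨ n ≤ k then 1 else ∏ i with e i % n = k, f i
  refine ⟨⟨x, y, w / algebraMap R M z, P, hR, ?_, fun k => ?_, fun k => ?_, ?_⟩⟩
  · rw [eq_top_iff, ← hw, adjoin_le_iff]
    intro w' hw'
    rw [Set.mem_singleton_iff] at hw'
    rw [hw']
    have h2 : w / algebraMap R M z ∈ adjoin R {w / algebraMap R M z} := subset_adjoin _ _ rfl
    have h3 := mul_mem h2 ((adjoin R {w / algebraMap R M z}).algebraMap_mem z)
    rwa [div_mul_cancel₀ _ hzM] at h3
  · rw [ent_typ]
    change (if k = 0 ∨ n ≤ k then 1 else ∏ i with e i % n = k, f i).totalDegree ≤ _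
    split_ifs with h
    · simp
    · exact (totalDegree_finsetProd _ _).trans (Finset.sum_le_sum fun i _ => hd i)
  · change aeval ![x, y] (if k = 0 ∨ n ≤ k then 1 else ∏ i with e i % n = k, f i) ≠ 0
    split_ifs with h
    · simp
    · rw [map_prod, Finset.prod_ne_zero_iff]
      exact fun i _ => hne i
  · rw [div_pow, heq, ← map_pow, ← map_div₀]
    congr 1
    rw [div_eq_iff (pow_ne_zero _ hz0), hz, ← Finset.prod_pow]
    have h1 : ∏ k ∈ Finset.range n, aeval ![x, y] (P k) ^ k =
        ∏ i, aeval ![x, y] (f i) ^ (e i % n) := by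
      have h2 : ∀ k ∈ Finset.range n, aeval ![x, y] (P k) ^ k =
          ∏ i with e i % n = k, aeval ![x, y] (f i) ^ (e i % n) := by
        intro k hk
        rw [Finset.mem_range] at hk
        change aeval ![x, y] (if k = 0 ∨ n ≤ k then 1 else ∏ i with e i % n = k, f i) ^ k = _
        by_cases h : k = 0
        · rw [if_pos (Or.inl h), h, pow_zero, Finset.prod_eq_one]
          intro i hi
          rw [(Finset.mem_filter.1 hi).2, pow_zero]
        · rw [if_neg (by omega), map_prod, ← Finset.prod_pow]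
          refine Finset.prod_congr rfl fun i hi => ?_
          rw [(Finset.mem_filter.1 hi).2]
      rw [Finset.prod_congr rfl h2]
      exact Finset.prod_fiberwise_of_maps_to
        (fun i _ => Finset.mem_range.2 (Nat.mod_lt _ hn)) _
    rw [h1, ← Finset.prod_mul_distrib]
    refine Finset.prod_congr rfl fun i _ => ?_
    rw [← pow_mul, ← pow_add]
    congr 1
    rw [mul_comm]
    exact (Nat.mod_add_div _ _).symm

/-- **The curves of degree at most five, `n ≤ 7` or `n = 10`.** -/
theorem lst_small [IsAlgClosed Ω] [IsScalarTower Ω R M] {n : ℕ} (hn : 0 < n)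
    (hn' : n ≤ 7 ∨ n = 10) {x y : R} {w : M} (hR : adjoin Ω {x, y} = ⊤)
    (hw : adjoin R {w} = ⊤) {r : ℕ} (d e : Fin r → ℕ) (f : Fin r → MvPolynomial (Fin 2) Ω)
    (hd : ∀ i, (f i).totalDegree ≤ d i) (hne : ∀ i, aeval ![x, y] (f i) ≠ 0)
    (hsum : ∑ i, d i ≤ 5) (hdvd : n ∣ ∑ i, d i * e i)
    (heq : w ^ n = algebraMap R M (∏ i, aeval ![x, y] (f i) ^ e i)) : Lst Ω R M n := by
  obtain ⟨H⟩ := rep_of_curve hn hR hw d e f hd hne heq
  have h1 := typ_length (n := n) d e
  have h2 := (typ_sum (n := n) d e).trans hsum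
  have h3 := typ_dvd hn d e hdvd
  have h4 : n = 1 ∨ n = 2 ∨ n = 3 ∨ n = 4 ∨ n = 5 ∨ n = 6 ∨ n = 7 ∨ n = 10 := by omega
  rcases h4 with rfl | rfl | rfl | rfl | rfl | rfl | rfl | rfl
  · exact covers1.lst hn h1 h2 H h3
  · exact covers2.lst hn h1 h2 H h3
  · exact covers3.lst hn h1 h2 H h3
  · exact covers4.lst hn h1 h2 H h3
  · exact covers5.lst hn h1 h2 H h3
  · exact covers6.lst hn h1 h2 H h3
  · exact covers7.lst hn h1 h2 H h3
  · exact covers10.lst hn h1 h2 H h3

end Pool.Agent.Helper75.WC
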