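import Pool.Agent.Helper75.WC.CurveFree

/-! Project WC. The cyclic covers of the plane branched along a curve of small degree are in the
list. -/

set_option autoImplicit false

namespace Pool.Agent.Helper75.WC

open IntermediateField MvPolynomial

section

variable {n : ℕ} {r : ℕ} (d e : Fin r → ℕ)

theorem typ_range_sum (hn : 0 < n) :
    ∑ k ∈ Finset.range n, ent (0 :: typ n d e) k ≤ ∑ i, d i := by
  obtain ⟨m, rfl⟩ : ∃ m, n = m + 1 := ⟨n - 1, by omega⟩
  rw [Finset.sum_range_succ']
  have h1 : ent (0 :: typ (m + 1) d e) 0 = 0 := by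
    unfold ent
    simp
  rw [h1, add_zero]
  refine le_trans (le_of_eq ?_) (typ_sum (n := m + 1) d e)
  have h2 : (typ (m + 1) d e).sum =
      ∑ k ∈ Finset.range m, ∑ i with e i % (m + 1) = k + 1, d i := by
    unfold typ
    rw [Nat.add_sub_cancel, sum_map_range]
  rw [h2]
  refine Finset.sum_congr rfl fun k hk => ?_
  rw [Finset.mem_range] at hk
  rw [ent_typ, if_neg (by omega)]

/-- the number of the lines does not increase -/
theorem typ_lines :
    ((Finset.range n).filter fun k => ent (0 :: typ n d e) k = 1).card ≤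
      (Finset.univ.filter fun i => d i = 1).card := by
  classical
  refine Finset.card_le_card_of_surjOn (fun i => e i % n) ?_
  intro k hk
  rw [Finset.mem_coe, Finset.mem_filter, Finset.mem_range, ent_typ] at hk
  obtain ⟨hkn, hk⟩ := hk
  split_ifs at hk with h
  · have h1 : ∃ i ∈ Finset.univ.filter (fun i => e i % n = k), d i ≠ 0 := by
      by_contra h2
      push Not at h2
      rw [Finset.sum_eq_zero h2] at hk
      omega
    obtain ⟨i, hi, hi'⟩ := h1
    have h2 : d i ≤ 1 := by
      rw [← hk]
      exact Finset.single_le_sum (fun _ _ => Nat.zero_le _) hi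
    refine ⟨i, ?_, (Finset.mem_filter.1 hi).2⟩
    rw [Finset.mem_coe, Finset.mem_filter]
    exact ⟨Finset.mem_univ _, by omega⟩

/-- the number of the components does not increase -/
theorem typ_comps :
    ((Finset.range n).filter fun k => ent (0 :: typ n d e) k ≠ 0).card ≤
      (Finset.univ.filter fun i => d i ≠ 0).card := by
  classical
  refine Finset.card_le_card_of_surjOn (fun i => e i % n) ?_
  intro k hk
  rw [Finset.mem_coe, Finset.mem_filter, Finset.mem_range, ent_typ] at hk
  obtain ⟨hkn, hk⟩ := hk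
  split_ifs at hk with h
  · exact absurd rfl hk
  · have h1 : ∃ i ∈ Finset.univ.filter (fun i => e i % n = k), d i ≠ 0 := by
      by_contra h2
      push Not at h2
      exact hk (Finset.sum_eq_zero h2)
    obtain ⟨i, hi, hi'⟩ := h1
    refine ⟨i, ?_, (Finset.mem_filter.1 hi).2⟩
    rw [Finset.mem_coe, Finset.mem_filter]
    exact ⟨Finset.mem_univ _, hi'⟩

end

variable {Ω R M : Type} [Field Ω] [IsAlgClosed Ω] [Field R] [Field M] [Algebra Ω R] [Algebra Ω M]
    [Algebra R M] [IsScalarTower Ω R M]

omit [IsAlgClosed Ω] [IsScalarTower Ω R M] in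
/-- the trivial extension -/
theorem lst_one {x y : R} (hR : adjoin Ω {x, y} = ⊤) (h : Module.finrank R M = 1) :
    Lst Ω R M (Module.finrank R M) := by
  rw [h]
  refine ⟨x, y, 1, hR, ?_, Or.inl ⟨1, 1, 0, 1, 1, 1, 1, by omega, Or.inr rfl, ?_,
    Or.inl ⟨Or.inl rfl, ?_, ?_, ?_⟩⟩⟩
  · have h1 : (⊥ : IntermediateField R M) = ⊤ := by
      rw [eq_comm, ← IntermediateField.finrank_eq_one_iff, IntermediateField.finrank_top']
      exact h
    rw [eq_top_iff, ← h1]
    exact bot_le
  · intro m hm
    have h1 : m = 0 := by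
      by_contra h2
      exact (mem_support_iff.1 hm) (by rw [coeff_one, if_neg (Ne.symm h2)])
    subst h1
    simp
  · intro m hm
    have h1 : m = 0 := by
      by_contra h2
      exact (mem_support_iff.1 hm) (by rw [coeff_one, if_neg (Ne.symm h2)])
    subst h1
    simp
  · simp
  · simp

/-- the reduction to values which are not zero -/
theorem curve_ne [FiniteDimensional R M] {n : ℕ} (hn : Module.finrank R M = n) {x y : R} {w : M}
    (hR : adjoin Ω {x, y} = ⊤)
    (hw : adjoin R {w} = ⊤) {r : ℕ} (d e : Fin r → ℕ) (f : Fin r → MvPolynomial (Fin 2) Ω)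
    (hd : ∀ i, (f i).totalDegree ≤ d i)
    (heq : w ^ n = ∏ i, aeval ![algebraMap R M x, algebraMap R M y] (f i) ^ e i) :
    Lst Ω R M n ∨ ∃ f' : Fin r → MvPolynomial (Fin 2) Ω, (∀ i, (f' i).totalDegree ≤ d i) ∧
      (∀ i, aeval ![x, y] (f' i) ≠ 0) ∧
      w ^ n = algebraMap R M (∏ i, aeval ![x, y] (f' i) ^ e i) := by
  have hn0 : 0 < n := by
    rw [← hn]
    exact Module.finrank_pos
  by_cases hw0 : w = 0
  · left
    rw [← hn]
    refine lst_one hR ?_
    rw [hw0] at hw
    rw [← IntermediateField.finrank_top', ← hw, IntermediateField.adjoin_zero,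
      IntermediateField.finrank_bot]
  · right
    have h1 : w ^ n ≠ 0 := pow_ne_zero _ hw0
    refine ⟨fun i => if e i = 0 then 1 else f i, fun i => ?_, fun i => ?_, ?_⟩
    · dsimp only
      split_ifs
      · simp
      · exact hd i
    · dsimp only
      split_ifs with h
      · simp
      · intro h2
        apply h1
        rw [heq]
        refine Finset.prod_eq_zero (Finset.mem_univ i) ?_
        rw [aeval_map75, h2, map_zero, zero_pow h]
    · rw [heq, map_prod]
      refine Finset.prod_congr rfl fun i _ => ?_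
      dsimp only
      split_ifs with h
      · rw [h]
        simp
      · rw [map_pow, aeval_map75]

/-- **Curves of degree at most five.** -/
theorem lst_of_curve [FiniteDimensional R M] {n : ℕ} (hn : Module.finrank R M = n) {x y : R}
    {w : M} (hR : adjoin Ω {x, y} = ⊤)
    (hw : adjoin R {w} = ⊤) {r : ℕ} (d e : Fin r → ℕ) (f : Fin r → MvPolynomial (Fin 2) Ω)
    (hd : ∀ i, (f i).totalDegree ≤ d i) (h5 : ∑ i, d i ≤ 5) (hdvd : n ∣ ∑ i, d i * e i)
    (hc : n ≤ 7 ∨ n = 10 ∨ r ≤ 3 ∧ (∑ i, d i ≤ 4 ∨ (Finset.univ.filter fun i => d i = 1).card ≤ 1))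
    (heq : w ^ n = ∏ i, aeval ![algebraMap R M x, algebraMap R M y] (f i) ^ e i) :
    Lst Ω R M n := by
  have hn0 : 0 < n := by
    rw [← hn]
    exact Module.finrank_pos
  rcases curve_ne hn hR hw d e f hd heq with h | ⟨f', hd', hne, heq'⟩
  · exact h
  rcases hc with hc | hc | ⟨hr, hc⟩
  · exact lst_small hn0 (Or.inl hc) hR hw d e f' hd' hne h5 hdvd heq'
  · exact lst_small hn0 (Or.inr hc) hR hw d e f' hd' hne h5 hdvd heq'
  · obtain ⟨H⟩ := rep_of_curve hn0 hR hw d e f' hd' hne heq'
    refine H.free hn0 hn (typ_dvd hn0 d e hdvd) ((typ_range_sum d e hn0).trans h5) ?_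
    rcases hc with hc | hc
    · refine Or.inl ⟨(typ_range_sum d e hn0).trans hc, (typ_comps d e).trans ?_⟩
      refine (Finset.card_le_univ _).trans ?_
      rwa [Fintype.card_fin]
    · exact Or.inr ((typ_lines d e).trans hc)

end Pool.Agent.Helper75.WC
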