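import Pool.Agent.Helper75.WC.CurveBase

/-! Project WC. The change of the line at infinity. -/

set_option autoImplicit false

namespace Pool.Agent.Helper75.WC

open IntermediateField MvPolynomial

/-- `f(x, y) y' ^ d` as a polynomial in `x'`, `y'`. -/
theorem moved {Ω R : Type} [Field Ω] [Field R] [Algebra Ω R] {x y x' y' : R}
    {A B : MvPolynomial (Fin 2) Ω} (hA : A.totalDegree ≤ 1) (hB : B.totalDegree ≤ 1)
    (hx : aeval ![x', y'] A = x * y') (hy : aeval ![x', y'] B = y * y')
    (f : MvPolynomial (Fin 2) Ω) {d : ℕ} (hf : f.totalDegree ≤ d) :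
    ∃ f' : MvPolynomial (Fin 2) Ω, f'.totalDegree ≤ d ∧
      aeval ![x', y'] f' = aeval ![x, y] f * y' ^ d := by
  classical
  refine ⟨∑ m ∈ f.support, C (f.coeff m) * (A ^ m 0 * B ^ m 1 * X 1 ^ (d - m 0 - m 1)), ?_, ?_⟩
  · refine totalDegree_finsetSum_le fun m hm => ?_
    have h1 : m 0 + m 1 ≤ d := by
      have := (le_totalDegree hm).trans hf
      rwa [Finsupp.sum_fintype _ _ (fun _ => rfl), Fin.sum_univ_two] at this
    calc (C (f.coeff m) * (A ^ m 0 * B ^ m 1 * X 1 ^ (d - m 0 - m 1))).totalDegree
        ≤ 0 + ((m 0 * 1 + m 1 * 1) + (d - m 0 - m 1)) := by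
          refine (totalDegree_mul _ _).trans (add_le_add (by rw [totalDegree_C]) ?_)
          refine (totalDegree_mul _ _).trans (add_le_add ?_ ?_)
          · refine (totalDegree_mul _ _).trans (add_le_add ?_ ?_)
            · exact (totalDegree_pow _ _).trans (Nat.mul_le_mul_left _ hA)
            · exact (totalDegree_pow _ _).trans (Nat.mul_le_mul_left _ hB)
          · exact (totalDegree_X_pow _ _).le
      _ ≤ d := by omega
  · have h2 : aeval ![x, y] f = ∑ m ∈ f.support, algebraMap Ω R (f.coeff m) *
        (x ^ m 0 * y ^ m 1) := by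
      rw [aeval_def, eval₂_eq']
      refine Finset.sum_congr rfl fun m _ => ?_
      rw [Fin.prod_univ_two]
      rfl
    rw [h2, map_sum, Finset.sum_mul]
    refine Finset.sum_congr rfl fun m hm => ?_
    have h1 : m 0 + m 1 ≤ d := by
      have := (le_totalDegree hm).trans hf
      rwa [Finsupp.sum_fintype _ _ (fun _ => rfl), Fin.sum_univ_two] at this
    rw [map_mul, map_mul, map_mul, map_pow, map_pow, map_pow, hx, hy, aeval_X, aeval_C]
    change _ * ((x * y') ^ m 0 * (y * y') ^ m 1 * y' ^ (d - m 0 - m 1)) = _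
    obtain ⟨k, hk⟩ := Nat.exists_eq_add_of_le h1
    rw [show d - m 0 - m 1 = k by omega, hk, mul_pow, mul_pow, pow_add, pow_add]
    ring

/-- A line which is not at infinity can be moved to infinity. -/
theorem new_line {Ω R : Type} [Field Ω] [Field R] [Algebra Ω R] {x y : R}
    (hR : adjoin Ω {x, y} = ⊤) {l : MvPolynomial (Fin 2) Ω} (hl : l.totalDegree ≤ 1)
    (hl' : ¬ l.totalDegree ≤ 0) (h0 : aeval ![x, y] l ≠ 0) :
    ∃ (x' y' : R) (A B : MvPolynomial (Fin 2) Ω), adjoin Ω {x', y'} = ⊤ ∧ y' ≠ 0 ∧
      aeval ![x, y] l * y' = 1 ∧ A.totalDegree ≤ 1 ∧ B.totalDegree ≤ 1 ∧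
      aeval ![x', y'] A = x * y' ∧ aeval ![x', y'] B = y * y' := by
  classical
  -- the coefficients
  obtain ⟨α, β, γ, rfl⟩ : ∃ α β γ : Ω, l = C α * X 0 + C β * X 1 + C γ := by
    refine ⟨l.coeff (Finsupp.single 0 1), l.coeff (Finsupp.single 1 1), l.coeff 0, ?_⟩
    ext m
    rw [coeff_add, coeff_add, coeff_C_mul, coeff_C_mul, coeff_X, coeff_X, coeff_C]
    by_cases hm : m ∈ l.support
    · have h1 : m 0 + m 1 ≤ 1 := by
        have := (le_totalDegree hm).trans hl
        rwa [Finsupp.sum_fintype _ _ (fun _ => rfl), Fin.sum_univ_two] at this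
      have h3 : m = 0 ∨ m = Finsupp.single 0 1 ∨ m = Finsupp.single 1 1 := by
        have h4 : m 0 = 0 ∧ m 1 = 0 ∨ m 0 = 1 ∧ m 1 = 0 ∨ m 0 = 0 ∧ m 1 = 1 := by omega
        rcases h4 with ⟨h5, h6⟩ | ⟨h5, h6⟩ | ⟨h5, h6⟩
        · left
          ext i
          fin_cases i
          · simpa using h5
          · simpa using h6
        · right; left
          ext i
          fin_cases i
          · simpa using h5
          · simpa using h6
        · right; right
          ext i
          fin_cases i
          · simpa using h5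
          · simpa using h6
      have n1 : (Finsupp.single (0 : Fin 2) 1 : Fin 2 →₀ ℕ) ≠ Finsupp.single 1 1 := by
        intro h
        have := DFunLike.congr_fun h 0
        simp at this
      have n2 : (Finsupp.single (0 : Fin 2) 1 : Fin 2 →₀ ℕ) ≠ 0 := by simp
      have n3 : (Finsupp.single (1 : Fin 2) 1 : Fin 2 →₀ ℕ) ≠ 0 := by simp
      rcases h3 with rfl | rfl | rfl
      · simp [n2, n3]
      · simp [n1.symm, n2.symm]
      · simp [n1, n3.symm]
    · have h2 : l.coeff m = 0 := notMem_support_iff.1 hm
      rw [h2]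
      by_cases e1 : Finsupp.single 0 1 = m
      · subst e1
        have n1 : (Finsupp.single (0 : Fin 2) 1 : Fin 2 →₀ ℕ) ≠ Finsupp.single 1 1 := by
          intro h
          have := DFunLike.congr_fun h 0
          simp at this
        have n2 : (0 : Fin 2 →₀ ℕ) ≠ Finsupp.single 0 1 := by
          intro h
          have := DFunLike.congr_fun h 0
          simp at this
        simp [n1.symm, h2, n2]
      · by_cases e2 : Finsupp.single 1 1 = m
        · subst e2
          have n2 : (0 : Fin 2 →₀ ℕ) ≠ Finsupp.single 1 1 := by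
            intro h
            have := DFunLike.congr_fun h 1
            simp at this
          simp [e1, h2, n2]
        · by_cases e3 : 0 = m
          · subst e3
            simp [h2]
          · simp [e1, e2, e3]
  have hα : ∀ x y : R, aeval ![x, y] (C α * X 0 + C β * X 1 + C γ : MvPolynomial (Fin 2) Ω) =
      algebraMap Ω R α * x + algebraMap Ω R β * y + algebraMap Ω R γ := by
    intro x y
    simp
  rw [hα] at h0 ⊢
  obtain ⟨L, hL⟩ : ∃ L : R, L = algebraMap Ω R α * x + algebraMap Ω R β * y + algebraMap Ω R γ :=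
    ⟨_, rfl⟩
  rw [← hL] at h0 ⊢
  have hdeg : ∀ (c a b : Ω) (i : Fin 2), (C c * (C a + C b * X i) :
      MvPolynomial (Fin 2) Ω).totalDegree ≤ 1 := by
    intro c a b i
    refine (totalDegree_mul _ _).trans ?_
    rw [totalDegree_C, zero_add]
    refine (totalDegree_add _ _).trans (max_le (by rw [totalDegree_C]; omega) ?_)
    refine (totalDegree_mul _ _).trans ?_
    rw [totalDegree_C, zero_add]
    exact (totalDegree_X i).le
  by_cases hβ : β = 0
  · subst hβ
    have hα0 : α ≠ 0 := by
      rintro rfl
      apply hl'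
      simp
    have hαR : algebraMap Ω R α ≠ 0 := by simpa using hα0
    refine ⟨y / L, 1 / L, C α⁻¹ * (C 1 + C (-γ) * X 1), X 0, ?_, ?_, ?_, hdeg _ _ _ _, ?_, ?_, ?_⟩
    · rw [eq_top_iff, ← hR, adjoin_le_iff]
      set F := adjoin Ω {y / L, 1 / L} with hF
      have h1 : y / L ∈ F := subset_adjoin _ _ (by simp)
      have h2 : 1 / L ∈ F := subset_adjoin _ _ (by simp)
      have h3 : L ∈ F := by
        have := inv_mem h2
        rwa [one_div, inv_inv] at this
      intro z hz
      rcases hz with hz | hz
      · have h4 : x = (L - algebraMap Ω R γ) / algebraMap Ω R α := by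
          rw [hL, map_zero]
          field_simp
          ring
        rw [SetLike.mem_coe, hz, h4]
        exact div_mem (sub_mem h3 (F.algebraMap_mem _)) (F.algebraMap_mem _)
      · have h4 := mul_mem h1 h3
        rw [Set.mem_singleton_iff] at hz
        rwa [div_mul_cancel₀ _ h0, ← hz] at h4
    · exact one_div_ne_zero h0
    · rw [mul_one_div, div_self h0]
    · exact (totalDegree_X 0).le
    · simp only [map_mul, map_add, aeval_C, aeval_X, map_neg, map_one, map_inv₀]
      change _ * (1 + -algebraMap Ω R γ * (1 / L)) = _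
      rw [map_zero] at hL
      field_simp
      rw [hL]
      ring
    · rw [aeval_X]
      change y / L = _
      rw [mul_one_div]
  · have hβR : algebraMap Ω R β ≠ 0 := by simpa using hβ
    refine ⟨x / L, 1 / L, X 0, C β⁻¹ * (C 1 + C (-α) * X 0 + C (-γ) * X 1), ?_, ?_, ?_, ?_, ?_, ?_,
      ?_⟩
    · rw [eq_top_iff, ← hR, adjoin_le_iff]
      set F := adjoin Ω {x / L, 1 / L} with hF
      have h1 : x / L ∈ F := subset_adjoin _ _ (by simp)
      have h2 : 1 / L ∈ F := subset_adjoin _ _ (by simp)
      have h3 : L ∈ F := by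
        have := inv_mem h2
        rwa [one_div, inv_inv] at this
      have hx : x ∈ F := by
        have h4 := mul_mem h1 h3
        rwa [div_mul_cancel₀ _ h0] at h4
      intro z hz
      rcases hz with hz | hz
      · rw [hz]
        exact hx
      · rw [Set.mem_singleton_iff] at hz
        have h4 : y = (L - algebraMap Ω R α * x - algebraMap Ω R γ) / algebraMap Ω R β := by
          rw [hL]
          field_simp
          ring
        rw [SetLike.mem_coe, hz, h4]
        exact div_mem (sub_mem (sub_mem h3 (mul_mem (F.algebraMap_mem _) hx)) (F.algebraMap_mem _))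
          (F.algebraMap_mem _)
    · exact one_div_ne_zero h0
    · rw [mul_one_div, div_self h0]
    · exact (totalDegree_X 0).le
    · refine (totalDegree_mul _ _).trans ?_
      rw [totalDegree_C, zero_add]
      refine (totalDegree_add _ _).trans (max_le ((totalDegree_add _ _).trans (max_le ?_ ?_)) ?_)
      · rw [totalDegree_C]
        omega
      · refine (totalDegree_mul _ _).trans ?_
        rw [totalDegree_C, zero_add]
        exact (totalDegree_X 0).le
      · refine (totalDegree_mul _ _).trans ?_
        rw [totalDegree_C, zero_add]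
        exact (totalDegree_X 1).le
    · rw [aeval_X]
      change x / L = _
      rw [mul_one_div]
    · simp only [map_mul, map_add, aeval_C, aeval_X, map_neg, map_one, map_inv₀]
      change _ * (1 + -algebraMap Ω R α * (x / L) + -algebraMap Ω R γ * (1 / L)) = _
      field_simp
      rw [hL]
      ring

/-- **The component `e0`, a line, is moved to infinity.** -/
theorem Rep.move {Ω R M : Type} [Field Ω] [Field R] [Field M] [Algebra Ω R]
    [Algebra Ω M] [Algebra R M] {n : ℕ} {D : ℕ → ℕ} (H : Rep Ω R M n D) {e0 : ℕ}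
    (he : e0 ∈ Finset.range n) (hD : D e0 = 1) (hsum : n ∣ ∑ e ∈ Finset.range n, e * D e) :
    Nonempty (Rep Ω R M n (Function.update D e0 0)) := by
  classical
  by_cases h1 : (H.P e0).totalDegree ≤ 0
  · refine ⟨⟨H.x, H.y, H.w, H.P, H.gen, H.top, fun e => ?_, H.ne, H.eq⟩⟩
    by_cases h2 : e = e0
    · subst h2
      simpa using h1
    · rw [Function.update_of_ne h2]
      exact H.deg e
  obtain ⟨x', y', A, B, hgen, hy0, hl, hA, hB, hx, hy⟩ :=
    new_line H.gen ((H.deg e0).trans hD.le) h1 (H.ne e0)
  choose Q hQ1 hQ2 using fun e => moved hA hB hx hy (H.P e) (H.deg e)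
  obtain ⟨N, hN⟩ := hsum
  refine ⟨⟨x', y', H.w * algebraMap R M (y' ^ N), Function.update Q e0 1, hgen, ?_, fun e => ?_,
    fun e => ?_, ?_⟩⟩
  · have hz : algebraMap R M (y' ^ N) ≠ 0 := by
      rw [map_pow]
      exact pow_ne_zero _ (by simpa using hy0)
    rw [eq_top_iff, ← H.top, adjoin_le_iff]
    intro w hw
    rw [Set.mem_singleton_iff] at hw
    subst hw
    have h2 : H.w * algebraMap R M (y' ^ N) ∈ adjoin R {H.w * algebraMap R M (y' ^ N)} :=
      subset_adjoin _ _ rfl
    have h3 := div_mem h2 ((adjoin R {H.w * algebraMap R M (y' ^ N)}).algebraMap_mem (y' ^ N))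
    rwa [mul_div_cancel_right₀ _ hz] at h3
  · by_cases h2 : e = e0
    · subst h2
      simp
    · rw [Function.update_of_ne h2, Function.update_of_ne h2]
      exact hQ1 e
  · by_cases h2 : e = e0
    · subst h2
      simp
    · rw [Function.update_of_ne h2, hQ2]
      exact mul_ne_zero (H.ne e) (pow_ne_zero _ hy0)
  · rw [mul_pow, H.eq, ← map_pow, ← map_mul]
    congr 1
    have h3 : (y' ^ N) ^ n = ∏ e ∈ Finset.range n, (y' ^ D e) ^ e := by
      rw [← pow_mul, mul_comm N n, ← hN, ← Finset.prod_pow_eq_pow_sum]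
      refine Finset.prod_congr rfl fun e _ => ?_
      rw [← pow_mul, mul_comm]
    rw [h3, ← Finset.prod_mul_distrib]
    refine Finset.prod_congr rfl fun e _ => ?_
    rw [← mul_pow]
    by_cases h2 : e = e0
    · subst h2
      rw [Function.update_self, map_one, hD, pow_one, hl]
    · rw [Function.update_of_ne h2, hQ2]

end Pool.Agent.Helper75.WC
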