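import Pool.Agent.Helper75.WC.Tame
import Pool.Agent.Helper75.TC.Final2

/-! Project WC: the surfaces `w ^ n * q(x, y) ^ 2 = f(x, y)`, every exponent `n`. -/

set_option autoImplicit false

namespace Pool.Agent.Helper75.WC

open IntermediateField Pool.Agent.Helper75.QC Pool.Agent.Helper75.TC Pool.Agent.Helper35.TD

variable {p : ℕ} [hpr : Fact p.Prime] {Ω L : Type} [Field Ω] [CharP Ω p] [IsAlgClosed Ω]
  [Field L] [CharZero L] [IsAlgClosed L]

/-- The surface `w ^ n * q ^ 2 = f`: Frobenius is semisimple if the threefolds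
`v (1 - v) q ^ 2 = s ^ n' f` are uniruled and if it is for the double plane `z ^ 2 = f`. -/
theorem good_gen (hΩ : ∀ c : Ω, ∃ k : ℕ, 0 < k ∧ c ^ p ^ k = c) (T : Theory p Ω L) {K : Type}
    [Field K] [Algebra Ω K] {n : ℕ} (hn : 0 < n) (f q : MvPolynomial (Fin 2) Ω) (x y w : K)
    (hK : adjoin Ω {x, y, w} = ⊤) (hdeg : Module.finrank (adjoin Ω {x, y}) K = n)
    (hq : val q x y ≠ 0) (hw : w ^ n * val q x y ^ 2 = val f x y)
    (huni : ∀ m n' : ℕ, n = p ^ m * n' → 0 < n' → ∀ (N : Type) [Field N] [Algebra Ω N]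
      (x y v s : N), val q x y ≠ 0 → s ≠ 0 →
      v * (1 - v) * val q x y ^ 2 = s ^ n' * val f x y →
      Uniruled Ω (adjoin Ω {x, y, v, s} : IntermediateField Ω N) 3)
    (hD : ∀ m : ℕ, n = 2 * m → (2 : Ω) ≠ 0 →
      Good T (adjoin Ω {x, y, w ^ m} : IntermediateField Ω K)) : Good T K := by
  have hx : x ∈ adjoin Ω {x, y} := subset_adjoin _ _ (by simp)
  have hy : y ∈ adjoin Ω {x, y} := subset_adjoin _ _ (by simp)
  have hwF : w ^ n ∈ adjoin Ω {x, y} := by
    have h1 : w ^ n = val f x y * (val q x y ^ 2)⁻¹ := by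
      rw [← hw]
      field_simp
    rw [h1]
    exact mul_mem (val_mem f _ hx hy) (inv_mem (pow_mem (val_mem q _ hx hy) _))
  have hfg : (⊤ : IntermediateField Ω K).FG := by
    rw [← hK]
    exact fg_adjoin_of_finite (Set.toFinite _)
  by_cases hw0 : w = 0
  · intro e φ _ _
    exact semisimple_of_uniruled T (uniruled_surface (n := n) x y w hK
      (by rw [hw0]; exact zero_mem _)) φ
  refine Good.of_pow T hfg fun e φ he hφ => ?_
  obtain ⟨k, hk, hk'⟩ := frob_set hΩ φ hφ {x, y, w} (Set.toFinite _)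
  have hk1 := hk' k dvd_rfl
  refine ⟨k, hk, ?_⟩
  have hek : 0 < e * k := Nat.mul_pos he hk
  refine Pool.Agent.Helper75.QC.insep_gen T hn hek x y w hK hwF hdeg (φ ^ k)
    ⟨hk1 x (by simp), hk1 y (by simp), hk1 w (by simp)⟩ ?_
  intro m n' hnn hn0 hcast K1 x1 y1 w1 hx1 hy1 hw1 htop hdeg1 φ1 hφ1
  have hx' : K1.val x1 = x := hx1
  have hy' : K1.val y1 = y := hy1
  have hw' : K1.val w1 = w ^ p ^ m := hw1
  have hpow : K1.val (w1 ^ n') = w ^ n := by
    rw [map_pow, hw', hnn, pow_mul]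
  have hq1 : val q x1 y1 ≠ 0 := by
    intro h
    apply hq
    rw [← hx', ← hy', ← map_val, h, map_zero]
  have hw2 : w1 ^ n' * val q x1 y1 ^ 2 = val f x1 y1 := by
    apply K1.val.injective
    show K1.val (w1 ^ n' * val q x1 y1 ^ 2) = K1.val (val f x1 y1)
    rw [map_mul, map_pow K1.val (val q x1 y1), hpow, map_val, map_val, hx', hy', hw]
  have hw10 : w1 ≠ 0 := by
    intro h
    apply hw0
    rw [h, map_zero] at hw'
    exact pow_eq_zero_iff (pow_ne_zero _ hpr.out.ne_zero) |>.1 hw'.symm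
  have hx2 : x1 ∈ adjoin Ω {x1, y1} := subset_adjoin _ _ (by simp)
  have hy2 : y1 ∈ adjoin Ω {x1, y1} := subset_adjoin _ _ (by simp)
  have hwF1 : w1 ^ n' ∈ adjoin Ω {x1, y1} := by
    have h1 : w1 ^ n' = val f x1 y1 * (val q x1 y1 ^ 2)⁻¹ := by
      rw [← hw2]
      field_simp
    rw [h1]
    exact mul_mem (val_mem f _ hx2 hy2) (inv_mem (pow_mem (val_mem q _ hx2 hy2) _))
  refine tame_double T hek hn0 hcast x1 y1 w1 htop hw10 hwF1 hdeg1 ?_ ?_ φ1 hφ1
  · intro N _ _ g v s hv hs
    have hg : val q (g x1) (g y1) ≠ 0 := by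
      rw [← map_val]
      exact (map_ne_zero g).2 hq1
    have hv0 : v ≠ 0 := by
      rintro rfl
      exact hv isAlgebraic_zero
    have hv1 : 1 - v ≠ 0 := by
      intro h
      have h1 : v = algebraMap g.fieldRange N 1 := by
        rw [map_one]
        exact (sub_eq_zero.1 h).symm
      exact hv (h1 ▸ isAlgebraic_algebraMap (1 : g.fieldRange))
    have hs0 : s ≠ 0 := by
      rintro rfl
      rw [pow_one, pow_one, zero_pow hn0.ne', zero_mul] at hs
      exact mul_ne_zero hv0 hv1 hs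
    refine huni m n' hnn hn0 N (g x1) (g y1) v s hg hs0 ?_
    rw [pow_one, pow_one] at hs
    rw [hs, ← map_val, ← map_val, ← hw2, map_mul, map_pow, map_pow]
    ring
  · intro m' hm'
    have h2 : (2 : Ω) ≠ 0 := by
      intro h
      apply hcast
      rw [hm', Nat.cast_mul, Nat.cast_ofNat, h, zero_mul]
    have h3 : n = 2 * (p ^ m * m') := by
      rw [hnn, hm']
      ring
    have h4 := hD (p ^ m * m') h3 h2
    let j : (adjoin Ω {x1, y1, w1 ^ m'} : IntermediateField Ω K1) →ₐ[Ω]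
        (adjoin Ω {x, y, w ^ (p ^ m * m')} : IntermediateField Ω K) :=
      (K1.val.comp (adjoin Ω {x1, y1, w1 ^ m'}).val).codRestrict
        (adjoin Ω {x, y, w ^ (p ^ m * m')} : IntermediateField Ω K).toSubalgebra (by
          intro a
          have h5 : adjoin Ω {x1, y1, w1 ^ m'} ≤
              (adjoin Ω {x, y, w ^ (p ^ m * m')}).comap K1.val := by
            rw [adjoin_le_iff]
            rintro s (rfl | rfl | rfl)
            · show K1.val s ∈ adjoin Ω {x, y, w ^ (p ^ m * m')}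
              rw [hx']
              exact subset_adjoin _ _ (by simp)
            · show K1.val s ∈ adjoin Ω {x, y, w ^ (p ^ m * m')}
              rw [hy']
              exact subset_adjoin _ _ (by simp)
            · show K1.val (w1 ^ m') ∈ adjoin Ω {x, y, w ^ (p ^ m * m')}
              rw [map_pow, hw', ← pow_mul]
              exact subset_adjoin _ _ (by simp)
          exact h5 a.2)
    have hj : ∀ a : (adjoin Ω {x1, y1, w1 ^ m'} : IntermediateField Ω K1), (j a : K) =
        K1.val (a : K1) := fun a => rfl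
    refine Good.of_hom hΩ T (fg_sub (Set.toFinite _)) (fg_sub (Set.toFinite _)) j ?_ h4
    intro a
    have h6 : ∃ b, j b = a := by
      have h7 : adjoin Ω {x, y, w ^ (p ^ m * m')} ≤
          (adjoin Ω {x1, y1, w1 ^ m'}).map K1.val := by
        rw [adjoin_le_iff]
        rintro s (rfl | rfl | rfl)
        · exact ⟨x1, subset_adjoin _ _ (by simp), hx'⟩
        · exact ⟨y1, subset_adjoin _ _ (by simp), hy'⟩
        · refine ⟨w1 ^ m', subset_adjoin _ _ (by simp), ?_⟩
          show K1.val (w1 ^ m') = _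
          rw [map_pow, hw', ← pow_mul]
      obtain ⟨b, hb, hb'⟩ := h7 a.2
      exact ⟨⟨b, hb⟩, Subtype.ext hb'⟩
    obtain ⟨b, hb⟩ := h6
    rw [← hb]
    exact isAlgebraic_algebraMap (⟨j b, b, rfl⟩ : j.fieldRange)

end Pool.Agent.Helper75.WC
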