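import Pool.Agent.Helper75.WC.RowData
import Pool.Agent.Helper75.WC.GoodPr

/-! Project WC. Frobenius is semisimple on the eigenclasses for the faithful characters of the
cyclic covers of the plane in the list. -/

set_option autoImplicit false

namespace Pool.Agent.Helper75.WC

open IntermediateField Pool.Agent.Helper75.QC Pool.Agent.Helper75.TC

variable {p : ℕ} [hpr : Fact p.Prime] {Ω L : Type} [Field Ω] [CharP Ω p] [IsAlgClosed Ω]
  [Field L] [CharZero L] [IsAlgClosed L]

/-- **The list with weights.** -/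
theorem prim_weighted (T : Theory p Ω L) {R M : Type} [Field R] [Field M] [Algebra Ω R]
    [Algebra Ω M] [Algebra R M] [IsScalarTower Ω R M] [FiniteDimensional R M] [IsGalois R M]
    (x y : R) (hR : adjoin Ω {x, y} = ⊤) (w : M) (hw : adjoin R {w} = ⊤)
    (hrow : IsWeighted Ω (Module.finrank R M) (algebraMap R M x) (algebraMap R M y) w) :
    PrimGood T R M := by
  classical
  obtain ⟨n, hn⟩ : ∃ n, n = Module.finrank R M := ⟨_, rfl⟩
  rw [← hn] at hrow
  obtain ⟨hwn, hsmall, hlarge⟩ := row_uni x y hR w hw hn.symm hrow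
  obtain ⟨hn0, htop, hfin, hcast, hw0, hmem⟩ := cyc_data x y hR w hw hn.symm hwn
  obtain ⟨X, hX⟩ : ∃ X : M, X = algebraMap R M x := ⟨_, rfl⟩
  obtain ⟨Y, hY⟩ : ∃ Y : M, Y = algebraMap R M y := ⟨_, rfl⟩
  rw [← hX, ← hY] at hlarge hwn htop hfin hmem
  have hfg : (⊤ : IntermediateField Ω M).FG := by
    rw [← htop]
    exact fg_adjoin_of_finite (Set.toFinite _)
  rcases Nat.lt_or_ge 2 n with hn2 | hn2
  swap
  · refine Good.prim hfg fun e φ _ _ => ?_
    exact semisimple_of_uniruled T (hsmall hn2) φ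
  have hw0' := hw0 (by omega)
  obtain ⟨α, β, hαβ, hα, hβ, hαβ', huni⟩ := hlarge hn2
  have : NeZero (n : Ω) := ⟨hcast⟩
  obtain ⟨ζ, hζ⟩ : ∃ ζ : Ω, IsPrimitiveRoot ζ n :=
    HasEnoughRootsOfUnity.exists_primitiveRoot Ω n
  obtain ⟨σ, hσ⟩ := kummer_sigma hn0 hcast hζ.pow_eq_one X Y w htop hwn hfin
  -- the generator of the Galois group
  have hσR : ∀ r : R, σ (algebraMap R M r) = algebraMap R M r := by
    intro r
    have h1 : adjoin Ω {X, Y} ≤ (AlgHom.equalizer σ (AlgHom.id Ω M)).toIntermediateField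
        (fun a ha => by
          have h2 : σ a = a := ha
          show σ a⁻¹ = a⁻¹
          rw [map_inv₀, h2]) := by
      rw [adjoin_le_iff]
      rintro s (rfl | rfl)
      · exact hσ.1
      · exact hσ.2.1
    exact h1 (hmem r)
  let g0 : M →ₐ[R] M := { σ.toRingHom with commutes' := hσR }
  let g : M ≃ₐ[R] M := AlgEquiv.ofBijective g0 (Algebra.IsAlgebraic.algHom_bijective g0)
  have hgσ : autHom Ω g = σ := AlgHom.ext fun a => rfl
  have hgw : g w = algebraMap Ω M ζ * w := hσ.2.2
  have hgpow : ∀ k : ℕ, (g ^ k) w = algebraMap Ω M (ζ ^ k) * w := by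
    intro k
    induction k with
    | zero => simp
    | succ k ih =>
      rw [pow_succ', AlgEquiv.mul_apply, ih, map_mul, hgw]
      have h1 : g (algebraMap Ω M (ζ ^ k)) = algebraMap Ω M (ζ ^ k) := by
        rw [IsScalarTower.algebraMap_apply Ω R M]
        exact g.commutes _
      rw [h1, pow_succ, map_mul]
      ring
  have hord : ∀ k : ℕ, g ^ k = 1 → n ∣ k := by
    intro k hk
    apply hζ.dvd_of_pow_eq_one
    have h1 := hgpow k
    rw [hk, AlgEquiv.one_apply] at h1
    have h2 : (algebraMap Ω M (ζ ^ k) - 1) * w = 0 := by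
      rw [sub_mul, ← h1, one_mul, sub_self]
    have h3 := sub_eq_zero.1 ((mul_eq_zero.1 h2).resolve_right hw0')
    exact (algebraMap Ω M).injective (h3.trans (map_one _).symm)
  have hgn : g ^ n = 1 := by
    have h1 : ∀ a : M, (g ^ n) a = a := by
      intro a
      have h2 : adjoin R {w} ≤ (AlgHom.equalizer ((g ^ n : M ≃ₐ[R] M) : M →ₐ[R] M)
          (AlgHom.id R M)).toIntermediateField (fun a ha => by
          have h2 : (g ^ n) a = a := ha
          show (g ^ n) a⁻¹ = a⁻¹
          rw [map_inv₀, h2]) := by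
        rw [adjoin_le_iff]
        intro b hb
        rw [Set.mem_singleton_iff] at hb
        show (g ^ n) b = b
        rw [hb, hgpow, hζ.pow_eq_one, map_one, one_mul]
      rw [hw] at h2
      exact h2 (mem_top (x := a))
    exact AlgEquiv.ext h1
  refine ⟨{X, Y, w, algebraMap Ω M ζ}, Set.toFinite _, fun e φ he hφ χ U hU hP => ?_⟩
  by_cases hU0 : ∀ s ∈ U, s = 0
  · have h1 : (T.map 2 φ : Module.End L (T.H 2 M)).restrict hP = 0 := by
      ext v
      rw [hU0 _ (((T.map 2 φ : Module.End L (T.H 2 M)).restrict hP) v).2]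
      rfl
    rw [h1]
    exact Module.End.isSemisimple_zero
  push Not at hU0
  obtain ⟨s0, hs0, hs0'⟩ := hU0
  have hχ : Function.Injective χ := (hU s0 hs0).1
  have hξ : ∀ k : ℕ, (χ g : L) ^ k = 1 → n ∣ k := by
    intro k hk
    apply hord
    apply hχ
    rw [map_pow, map_one]
    exact Units.ext (by rw [Units.val_pow_eq_pow_val, hk, Units.val_one])
  have hζp : ζ ^ p ^ e = ζ := by
    have h1 := hφ (algebraMap Ω M ζ) (by simp)
    rw [AlgHom.commutes, ← map_pow] at h1
    exact ((algebraMap Ω M).injective h1).symm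
  refine tame_eigen T hn0 hcast hαβ X Y w htop hw0' hwn hfin (fun N _ _ k v s hv hs => ?_) hζ hζp σ
    hσ φ ⟨hφ X (by simp), hφ Y (by simp), hφ w (by simp)⟩ (ξ := (χ g : L)) ?_
    (fun h => hα (hξ _ h)) (fun h => hβ (hξ _ h)) (fun h => hαβ' (hξ _ h)) U (fun t ht => ?_) hP
  · refine huni N k v s ?_ ?_ hs
    · rintro rfl
      exact hv isAlgebraic_zero
    · rintro rfl
      exact hv (isAlgebraic_algebraMap (1 : k.fieldRange))
  · rw [← Units.val_pow_eq_pow_val, ← map_pow, hgn, map_one, Units.val_one]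
  · have h1 := (hU t ht).2 g
    rw [hgσ] at h1
    exact h1

end Pool.Agent.Helper75.WC
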